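import Mathlib

/-! Abstract Hilbert space parts of Theorem B. -/

set_option autoImplicit false

namespace Pool.Agent.Lib.MP_16d611_an.B12

open Complex Metric
open scoped InnerProductSpace ComplexConjugate

noncomputable section

variable {E : Type*} [NormedAddCommGroup E] [InnerProductSpace ℂ E]

/-- The pointwise estimate for `F - L + F L* F`, with the adjoints given by their property. -/
theorem re_pert_le (F Fs L Ls : E →L[ℂ] E) (hF : ‖F‖ ≤ 1)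
    (hFs : ∀ a b, ⟪b, F a⟫_ℂ = ⟪Fs b, a⟫_ℂ) (hLs : ∀ a b, ⟪b, Ls a⟫_ℂ = ⟪L b, a⟫_ℂ)
    (a b : E) (ha : ‖a‖ ≤ 1) (hb : ‖b‖ ≤ 1) :
    (⟪b, F a - L a + F (Ls (F a))⟫_ℂ).re ≤ 1 + 2 * ‖L‖ ^ 2 := by
  have hFa : ‖F a‖ ≤ 1 := by
    calc ‖F a‖ ≤ ‖F‖ * ‖a‖ := F.le_opNorm a
      _ ≤ 1 * 1 := by gcongr
      _ = 1 := one_mul 1
  have hFb : ‖Fs b‖ ≤ 1 := by
    have h1 : ‖Fs b‖ ^ 2 = (⟪b, F (Fs b)⟫_ℂ).re := by
      rw [hFs, ← @inner_self_eq_norm_sq ℂ]; rfl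
    have h2 : (⟪b, F (Fs b)⟫_ℂ).re ≤ ‖Fs b‖ := by
      calc (⟪b, F (Fs b)⟫_ℂ).re ≤ ‖⟪b, F (Fs b)⟫_ℂ‖ := re_le_norm _
        _ ≤ ‖b‖ * ‖F (Fs b)‖ := norm_inner_le_norm _ _
        _ ≤ 1 * (‖F‖ * ‖Fs b‖) := by gcongr; exact F.le_opNorm _
        _ ≤ 1 * (1 * ‖Fs b‖) := by gcongr
        _ = ‖Fs b‖ := by ring
    nlinarith [norm_nonneg (Fs b)]
  set s : ℝ := (⟪b, F a⟫_ℂ).re with hs
  set al : E := a - Fs b with hal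
  set be : E := b - F a with hbe
  have h1 : ‖al‖ ^ 2 ≤ 2 - 2 * s := by
    have : ‖al‖ ^ 2 = ‖a‖ ^ 2 - 2 * (⟪a, Fs b⟫_ℂ).re + ‖Fs b‖ ^ 2 := by
      rw [hal, @norm_sub_sq ℂ]; rfl
    have h3 : (⟪a, Fs b⟫_ℂ).re = s := by
      rw [hs, hFs, ← inner_conj_symm, conj_re]
    rw [this, h3]
    nlinarith [norm_nonneg a, norm_nonneg (Fs b)]
  have h2 : ‖be‖ ^ 2 ≤ 2 - 2 * s := by
    have : ‖be‖ ^ 2 = ‖b‖ ^ 2 - 2 * (⟪b, F a⟫_ℂ).re + ‖F a‖ ^ 2 := by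
      rw [hbe, @norm_sub_sq ℂ]; rfl
    rw [this, ← hs]
    nlinarith [norm_nonneg b, norm_nonneg (F a)]
  have h3 : (⟪b, F (Ls (F a))⟫_ℂ).re = (⟪F a, L (Fs b)⟫_ℂ).re := by
    rw [hFs, hLs, ← inner_conj_symm, conj_re]
  have h4 : ⟪b, L a⟫_ℂ - ⟪F a, L (Fs b)⟫_ℂ = ⟪b, L al⟫_ℂ + ⟪be, L (Fs b)⟫_ℂ := by
    rw [hal, hbe, map_sub, inner_sub_right, inner_sub_left]; ring
  have h5 : ‖⟪b, L al⟫_ℂ‖ ≤ ‖L‖ * ‖al‖ := by
    calc ‖⟪b, L al⟫_ℂ‖ ≤ ‖b‖ * ‖L al‖ := norm_inner_le_norm _ _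
      _ ≤ 1 * (‖L‖ * ‖al‖) := by gcongr; exact L.le_opNorm _
      _ = _ := one_mul _
  have h6 : ‖⟪be, L (Fs b)⟫_ℂ‖ ≤ ‖L‖ * ‖be‖ := by
    calc ‖⟪be, L (Fs b)⟫_ℂ‖ ≤ ‖be‖ * ‖L (Fs b)‖ := norm_inner_le_norm _ _
      _ ≤ ‖be‖ * (‖L‖ * ‖Fs b‖) := by gcongr; exact L.le_opNorm _
      _ ≤ ‖be‖ * (‖L‖ * 1) := by gcongr
      _ = _ := by ring
  have h7 := congrArg Complex.re h4
  rw [sub_re, add_re] at h7
  have h8 := (abs_le.1 ((abs_re_le_norm _).trans h5)).1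
  have h9 := (abs_le.1 ((abs_re_le_norm _).trans h6)).1
  rw [inner_add_right, inner_sub_right, add_re, sub_re, h3, ← hs]
  nlinarith [sq_nonneg (‖al‖ - 2 * ‖L‖), sq_nonneg (‖be‖ - 2 * ‖L‖)]

theorem opNorm_le_of_re (G : E →L[ℂ] E) {C : ℝ} (hC : 0 ≤ C)
    (h : ∀ a b : E, ‖a‖ ≤ 1 → ‖b‖ ≤ 1 → (⟪b, G a⟫_ℂ).re ≤ C) : ‖G‖ ≤ C := by
  refine ContinuousLinearMap.opNorm_le_of_unit_norm hC fun a ha => ?_
  by_cases h0 : G a = 0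
  · rw [h0, norm_zero]; exact hC
  have hn : ‖G a‖ ≠ 0 := norm_ne_zero_iff.2 h0
  have h1 := h a (((‖G a‖⁻¹ : ℝ) : ℂ) • G a) ha.le (by
    rw [norm_smul, Complex.norm_real, norm_inv, norm_norm, inv_mul_cancel₀ hn])
  rw [inner_smul_left, conj_ofReal, re_ofReal_mul] at h1
  have h2 : (⟪G a, G a⟫_ℂ).re = ‖G a‖ ^ 2 := by
    rw [← @inner_self_eq_norm_sq ℂ]; rfl
  rw [h2] at h1
  calc ‖G a‖ = ‖G a‖⁻¹ * ‖G a‖ ^ 2 := by field_simp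
    _ ≤ C := h1

/-- (g): a contraction `F` and any `L` give `‖F - L + F L* F‖ ≤ 1 + 2 ‖L‖ ^ 2`. -/
theorem norm_pert_le [CompleteSpace E] (F L : E →L[ℂ] E) (hF : ‖F‖ ≤ 1) :
    ‖F - L + F * ContinuousLinearMap.adjoint L * F‖ ≤ 1 + 2 * ‖L‖ ^ 2 := by
  refine opNorm_le_of_re _ (by positivity) fun a b ha hb => ?_
  exact re_pert_le F (ContinuousLinearMap.adjoint F) L (ContinuousLinearMap.adjoint L) hF
    (fun a b => (ContinuousLinearMap.adjoint_inner_left F a b).symm)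
    (fun a b => ContinuousLinearMap.adjoint_inner_right L b a) a b ha hb

open scoped Matrix.Norms.L2Operator in
/-- (g) for square matrices with the operator norm. -/
theorem norm_pert_le_matrix {m : Type*} [Fintype m] [DecidableEq m] (F L : Matrix m m ℂ)
    (hF : ‖F‖ ≤ 1) : ‖F - L + F * L.conjTranspose * F‖ ≤ 1 + 2 * ‖L‖ ^ 2 := by
  have h := norm_pert_le (Matrix.toEuclideanCLM (n := m) (𝕜 := ℂ) F)
    (Matrix.toEuclideanCLM (n := m) (𝕜 := ℂ) L) hF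
  rw [← ContinuousLinearMap.star_eq_adjoint, ← map_star, ← map_mul, ← map_mul, ← map_sub,
    ← map_add] at h
  exact h

/-- The circle lemma: the circle about `⟪u, A u⟫` of radius `√(1-|q|²)/|q| · ‖A u - c u‖` lies in
the scaled `q`-numerical range. -/
theorem circle_mem (A : E →L[ℂ] E) {q : ℂ} (hq0 : q ≠ 0) (hq1 : ‖q‖ ≤ 1) (u : E) (hu : ‖u‖ = 1)
    (hn : (∃ e : E, ‖e‖ = 1 ∧ ⟪e, u⟫_ℂ = 0) ∨ ‖q‖ = 1) (z : ℂ)
    (hz : ‖z - ⟪u, A u⟫_ℂ‖ = √(1 - ‖q‖ ^ 2) / ‖q‖ * ‖A u - ⟪u, A u⟫_ℂ • u‖) :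
    ∃ y : E, ‖y‖ = 1 ∧ ⟪y, u⟫_ℂ = q ∧ ⟪y, A u⟫_ℂ / q = z := by
  have huu : ⟪u, u⟫_ℂ = 1 := by rw [inner_self_eq_norm_sq_to_K, hu]; simp
  have hqn : 0 < ‖q‖ := norm_pos_iff.2 hq0
  have h1q : 0 ≤ 1 - ‖q‖ ^ 2 := by nlinarith
  set c : ℂ := ⟪u, A u⟫_ℂ with hc
  set r : E := A u - c • u with hr
  have hur : ⟪u, r⟫_ℂ = 0 := by rw [hr, inner_sub_right, inner_smul_right, huu, ← hc]; ring
  have hAu : A u = c • u + r := by rw [hr]; abel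
  -- a vector `e` orthogonal to `u` of norm `√(1-|q|²)` with `⟪e, r⟫ = (z - c) q`
  have key : ∃ e : E, ‖e‖ ^ 2 = 1 - ‖q‖ ^ 2 ∧ ⟪e, u⟫_ℂ = 0 ∧ ⟪e, r⟫_ℂ = (z - c) * q := by
    by_cases h0 : r = 0
    · have hzc : z - c = 0 := by
        rw [h0, norm_zero, mul_zero] at hz; exact norm_eq_zero.1 hz
      rcases hn with ⟨e, he, heu⟩ | hq
      · refine ⟨((√(1 - ‖q‖ ^ 2) : ℝ) : ℂ) • e, ?_, ?_, ?_⟩
        · rw [norm_smul, he, mul_one, Complex.norm_real, Real.norm_eq_abs, sq_abs,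
            Real.sq_sqrt h1q]
        · rw [inner_smul_left, heu, mul_zero]
        · rw [h0, inner_zero_right, hzc, zero_mul]
      · exact ⟨0, by simp [hq], by simp, by simp [hzc]⟩
    · have hrn : 0 < ‖r‖ := norm_pos_iff.2 h0
      have hrc : ((‖r‖ : ℝ) : ℂ) ≠ 0 := by exact_mod_cast hrn.ne'
      refine ⟨(conj ((z - c) * q) / ((‖r‖ : ℝ) : ℂ) ^ 2) • r, ?_, ?_, ?_⟩
      · rw [norm_smul, norm_div, norm_pow, Complex.norm_real, norm_norm, RCLike.norm_conj,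
          norm_mul, hz]
        have : √(1 - ‖q‖ ^ 2) / ‖q‖ * ‖r‖ * ‖q‖ / ‖r‖ ^ 2 * ‖r‖ = √(1 - ‖q‖ ^ 2) := by
          field_simp
        rw [this, Real.sq_sqrt h1q]
      · rw [inner_smul_left, ← inner_conj_symm, hur]; simp
      · rw [inner_smul_left, inner_self_eq_norm_sq_to_K, map_div₀, conj_conj, map_pow,
          conj_ofReal]
        exact div_mul_cancel₀ _ (pow_ne_zero 2 hrc)
  obtain ⟨e, he, heu, her⟩ := key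
  have hue : ⟪u, e⟫_ℂ = 0 := by rw [← inner_conj_symm, heu]; simp
  refine ⟨conj q • u + e, ?_, ?_, ?_⟩
  · have h2 : ‖conj q • u + e‖ ^ 2 = 1 := by
      rw [@norm_add_sq ℂ, inner_smul_left, hue, norm_smul, hu, RCLike.norm_conj, he]; simp
    nlinarith [norm_nonneg (conj q • u + e)]
  · rw [inner_add_left, inner_smul_left, huu, heu]; simp
  · rw [hAu, inner_add_left, inner_smul_left, inner_add_right, inner_add_right, inner_smul_right,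
      inner_smul_right, huu, hur, heu, her, conj_conj]
    field_simp
    ring

/-- (s1): a bound on the scaled `q`-numerical range for an entire function passes to every value
`⟪v, A u⟫` with `⟪v, u⟫ = 1` and `‖u‖ ‖v‖ ≤ 1 / ‖q‖`. -/
theorem pair_bound {X : Type*} [NormedAddCommGroup X] [NormedSpace ℂ X] (A : E →L[ℂ] E) {q : ℂ}
    (hq0 : q ≠ 0) (hq1 : ‖q‖ ≤ 1)
    (hn : (∀ u : E, ∃ e : E, ‖e‖ = 1 ∧ ⟪e, u⟫_ℂ = 0) ∨ ‖q‖ = 1)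
    (f : ℂ → X) (hf : Differentiable ℂ f) {M : ℝ}
    (hM : ∀ x y : E, ‖x‖ = 1 → ‖y‖ = 1 → ⟪y, x⟫_ℂ = q → ‖f (⟪y, A x⟫_ℂ / q)‖ ≤ M)
    (u v : E) (huv : ⟪v, u⟫_ℂ = 1) (hle : ‖u‖ * ‖v‖ ≤ 1 / ‖q‖) : ‖f ⟪v, A u⟫_ℂ‖ ≤ M := by
  have hqn : 0 < ‖q‖ := norm_pos_iff.2 hq0
  have h1q : 0 ≤ 1 - ‖q‖ ^ 2 := by nlinarith
  have hu0 : u ≠ 0 := by rintro rfl; simp at huv
  have hun : 0 < ‖u‖ := norm_pos_iff.2 hu0
  have huc : ((‖u‖ : ℝ) : ℂ) ≠ 0 := by exact_mod_cast hun.ne'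
  set u0 : E := ((‖u‖ : ℝ) : ℂ)⁻¹ • u with hu0d
  set v0 : E := ((‖u‖ : ℝ) : ℂ) • v with hv0d
  have hu0n : ‖u0‖ = 1 := by
    rw [hu0d, norm_smul, norm_inv, Complex.norm_real, norm_norm, inv_mul_cancel₀ hun.ne']
  have hv0n : ‖v0‖ ≤ 1 / ‖q‖ := by
    rw [hv0d, norm_smul, Complex.norm_real, norm_norm]; exact hle
  have h0 : ⟪v0, u0⟫_ℂ = 1 := by
    rw [hu0d, hv0d, inner_smul_left, inner_smul_right, huv, conj_ofReal]; field_simp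
  have h1 : ⟪v, A u⟫_ℂ = ⟪v0, A u0⟫_ℂ := by
    rw [hu0d, hv0d, map_smul, inner_smul_left, inner_smul_right, conj_ofReal]; field_simp
  have huu : ⟪u0, u0⟫_ℂ = 1 := by rw [inner_self_eq_norm_sq_to_K, hu0n]; simp
  set c : ℂ := ⟪u0, A u0⟫_ℂ with hc
  set r : E := A u0 - c • u0 with hr
  set ρ : ℝ := √(1 - ‖q‖ ^ 2) / ‖q‖ * ‖r‖ with hρ
  have hρ0 : 0 ≤ ρ := by positivity
  have hcirc : ∀ z : ℂ, ‖z - c‖ = ρ → ‖f z‖ ≤ M := by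
    intro z hz
    obtain ⟨y, hy, hyu, hyz⟩ := circle_mem A hq0 hq1 u0 hu0n (hn.imp (fun h => h u0) id) z hz
    rw [← hyz]; exact hM u0 y hu0n hy hyu
  have hw : ‖v0 - u0‖ ≤ √(1 - ‖q‖ ^ 2) / ‖q‖ := by
    have h2 : ‖v0 - u0‖ ^ 2 = ‖v0‖ ^ 2 - 1 := by
      rw [@norm_sub_sq ℂ, h0, hu0n]; simp; ring
    have h3 : ‖v0‖ ^ 2 ≤ (1 / ‖q‖) ^ 2 := by gcongr
    have h4 : (√(1 - ‖q‖ ^ 2) / ‖q‖) ^ 2 = (1 / ‖q‖) ^ 2 - 1 := by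
      rw [div_pow, Real.sq_sqrt h1q]; field_simp
    exact (pow_le_pow_iff_left₀ (norm_nonneg _) (by positivity) two_ne_zero).1 (by linarith)
  have hin : ‖⟪v0, A u0⟫_ℂ - c‖ ≤ ρ := by
    have h5 : ⟪v0, A u0⟫_ℂ - c = ⟪v0 - u0, r⟫_ℂ := by
      rw [hr, inner_sub_left, inner_sub_right, inner_sub_right, inner_smul_right v0 u0 c,
        inner_smul_right u0 u0 c, h0, huu, ← hc]; ring
    rw [h5, hρ]
    exact (norm_inner_le_norm _ _).trans (by gcongr)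
  rw [h1]
  rcases hρ0.eq_or_lt with hz | hpos
  · exact hcirc _ (le_antisymm hin (hz ▸ norm_nonneg _))
  · refine Complex.norm_le_of_forall_mem_frontier_norm_le (U := ball c ρ) isBounded_ball
      hf.diffContOnCl (fun z hz => hcirc z ?_) ?_
    · rw [frontier_ball c hpos.ne', mem_sphere, dist_eq_norm] at hz; exact hz
    · rw [closure_ball c hpos.ne', mem_closedBall, dist_eq_norm]; exact hin

/-- In dimension at least two every vector has a unit vector orthogonal to it. -/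
theorem exists_orth [FiniteDimensional ℂ E] (h : 2 ≤ Module.finrank ℂ E) (u : E) :
    ∃ e : E, ‖e‖ = 1 ∧ ⟪e, u⟫_ℂ = 0 := by
  have h1 : Module.finrank ℂ (ℂ ∙ u) ≤ 1 := by
    simpa using finrank_span_le_card ({u} : Set E)
  have h2 := Submodule.finrank_add_finrank_orthogonal (ℂ ∙ u)
  have h3 : (ℂ ∙ u)ᗮ ≠ ⊥ := by
    intro h0; rw [h0, finrank_bot] at h2; omega
  obtain ⟨e, he, he0⟩ := Submodule.exists_mem_ne_zero_of_ne_bot h3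
  have hn : 0 < ‖e‖ := norm_pos_iff.2 he0
  refine ⟨((‖e‖ : ℝ) : ℂ)⁻¹ • e, ?_, ?_⟩
  · rw [norm_smul, norm_inv, Complex.norm_real, norm_norm, inv_mul_cancel₀ hn.ne']
  · rw [inner_smul_left, Submodule.mem_orthogonal_singleton_iff_inner_left.1 he, mul_zero]

/-- (s2): the vectors `S w` and `S⁻¹ w` for an orthogonal projection `P`. -/
theorem proj_pair (P : E →L[ℂ] E) (hPP : ∀ a, P (P a) = P a)
    (hPs : ∀ a b, ⟪P a, b⟫_ℂ = ⟪a, P b⟫_ℂ) {g t : ℝ} (hg : 0 < g) (ht : g + g⁻¹ = 2 * t)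
    (w : E) (hw : ‖w‖ = 1) :
    ⟪w + ((g - 1 : ℝ) : ℂ) • P w, w + ((g⁻¹ - 1 : ℝ) : ℂ) • P w⟫_ℂ = 1 ∧
      ‖w + ((g⁻¹ - 1 : ℝ) : ℂ) • P w‖ * ‖w + ((g - 1 : ℝ) : ℂ) • P w‖ ≤ t := by
  have hww : ⟪w, w⟫_ℂ = 1 := by rw [inner_self_eq_norm_sq_to_K, hw]; simp
  have h1 : ⟪P w, P w⟫_ℂ = ((‖P w‖ ^ 2 : ℝ) : ℂ) := by
    rw [inner_self_eq_norm_sq_to_K]; simp
  have h2 : ⟪w, P w⟫_ℂ = ((‖P w‖ ^ 2 : ℝ) : ℂ) := by rw [← h1, hPs, hPP]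
  have h3 : ⟪P w, w⟫_ℂ = ((‖P w‖ ^ 2 : ℝ) : ℂ) := by rw [hPs, h2]
  have hgc : (g : ℂ) ≠ 0 := by exact_mod_cast hg.ne'
  have hn : ∀ s : ℝ, ‖w + (s : ℂ) • P w‖ ^ 2 = 1 + (2 * s + s ^ 2) * ‖P w‖ ^ 2 := by
    intro s
    rw [@norm_add_sq ℂ, inner_smul_right, h2, hw, norm_smul, Complex.norm_real, Real.norm_eq_abs,
      mul_pow, sq_abs, ← ofReal_mul]
    simp only [RCLike.re_to_complex, ofReal_re]
    ring
  refine ⟨?_, ?_⟩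
  · rw [inner_add_left, inner_add_right, inner_add_right, inner_smul_left, inner_smul_left,
      inner_smul_right, inner_smul_right, hww, h1, h2, h3, conj_ofReal]
    push_cast
    field_simp
    ring
  · have ht0 : 0 ≤ t := by
      have : 0 < g + g⁻¹ := by positivity
      linarith
    refine (pow_le_pow_iff_left₀ (by positivity) ht0 two_ne_zero).1 ?_
    rw [mul_pow, hn, hn]
    set a : ℝ := ‖P w‖ ^ 2
    set h : ℝ := g⁻¹ with hh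
    have hgh : g * h = 1 := mul_inv_cancel₀ hg.ne'
    have ht' : t = (g + h) / 2 := by linarith
    have e1 : (1 + (2 * (h - 1) + (h - 1) ^ 2) * a) * (1 + (2 * (g - 1) + (g - 1) ^ 2) * a)
        = 1 + a * (1 - a) * (g - h) ^ 2 := by
      have : (g * h) ^ 2 = 1 := by rw [hgh]; norm_num
      linear_combination (a ^ 2 * (g * h + 1) + 2 * a * (1 - a)) * hgh
    have e2 : t ^ 2 = 1 + (g - h) ^ 2 / 4 := by
      rw [ht']; linear_combination hgh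
    rw [e1, e2]
    nlinarith [mul_nonneg (sq_nonneg (2 * a - 1)) (sq_nonneg (g - h))]

/-- (s): a bound for an entire function on the scaled `q`-numerical range of `A` holds on the
numerical range of `S⁻¹ A S`, `S⁻¹ = 1 + (g - 1) P`, `S = 1 + (g⁻¹ - 1) P`. -/
theorem sim_bound {X : Type*} [NormedAddCommGroup X] [NormedSpace ℂ X] (A : E →L[ℂ] E) {q : ℂ}
    (hq0 : q ≠ 0) (hq1 : ‖q‖ ≤ 1)
    (hn : (∀ u : E, ∃ e : E, ‖e‖ = 1 ∧ ⟪e, u⟫_ℂ = 0) ∨ ‖q‖ = 1)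
    (f : ℂ → X) (hf : Differentiable ℂ f) {M : ℝ}
    (hM : ∀ x y : E, ‖x‖ = 1 → ‖y‖ = 1 → ⟪y, x⟫_ℂ = q → ‖f (⟪y, A x⟫_ℂ / q)‖ ≤ M)
    (P : E →L[ℂ] E) (hPP : ∀ a, P (P a) = P a) (hPs : ∀ a b, ⟪P a, b⟫_ℂ = ⟪a, P b⟫_ℂ)
    {g : ℝ} (hg : 0 < g) (hgq : g + g⁻¹ = 2 / ‖q‖) (w : E) (hw : ‖w‖ = 1) :
    ‖f ⟪w, ((1 + ((g - 1 : ℝ) : ℂ) • P) * A * (1 + ((g⁻¹ - 1 : ℝ) : ℂ) • P)) w⟫_ℂ‖ ≤ M := by
  obtain ⟨h1, h2⟩ := proj_pair P hPP hPs hg (t := 1 / ‖q‖) (by rw [hgq]; ring) w hw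
  have h3 := pair_bound A hq0 hq1 hn f hf hM _ _ h1 h2
  have h4 : ⟪w, ((1 + ((g - 1 : ℝ) : ℂ) • P) * A * (1 + ((g⁻¹ - 1 : ℝ) : ℂ) • P)) w⟫_ℂ
      = ⟪w + ((g - 1 : ℝ) : ℂ) • P w, A (w + ((g⁻¹ - 1 : ℝ) : ℂ) • P w)⟫_ℂ := by
    simp only [mul_apply_eq_comp, add_apply, one_apply_eq_self, smul_apply]
    rw [inner_add_right, inner_add_left, inner_smul_right, inner_smul_left, conj_ofReal, hPs]
  rw [h4]; exact h3

/-- The number `g = (1 + √(1-t²))/t`. -/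
theorem g_spec {t : ℝ} (h0 : 0 < t) (h1 : t ≤ 1) :
    0 < (1 + √(1 - t ^ 2)) / t ∧ (1 + √(1 - t ^ 2)) / t + ((1 + √(1 - t ^ 2)) / t)⁻¹ = 2 / t ∧
      2 / ((1 + √(1 - t ^ 2)) / t) = 2 * t / (1 + √(1 - t ^ 2)) := by
  have h : 0 ≤ 1 - t ^ 2 := by nlinarith
  have hs := Real.sq_sqrt h
  have hp : 0 < 1 + √(1 - t ^ 2) := by positivity
  refine ⟨by positivity, ?_, ?_⟩
  · field_simp
    nlinarith
  · field_simp

end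

end Pool.Agent.Lib.MP_16d611_an.B12
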