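import Pool.Agent.Lib.MP_16d611_an.Defs
import Pool.Agent.Lib.MP_1e9af3_an.Cx

/-! Basic facts on univalent functions fixing `0`, mean value property, minimum principle. -/

set_option autoImplicit false

namespace Pool.Agent.Lib.MP_16d611_an

open Set Metric Polynomial
open scoped InnerProductSpace ComplexConjugate

noncomputable section

variable {h : ℂ → ℂ} {R : ℝ}

lemma basic_zero_mem {u : ℂ} (hu : u ∈ ball (0 : ℂ) R) : (0 : ℂ) ∈ ball (0 : ℂ) R :=
  mem_ball_self (pos_of_mem_ball hu)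

lemma Uni.h_ne (U : Uni h R) {u : ℂ} (hu : u ∈ ball (0 : ℂ) R) (h0 : u ≠ 0) : h u ≠ 0 :=
  fun e => h0 (U.inj hu (basic_zero_mem hu) (e.trans U.zero.symm))

lemma Uni.deriv_ne (U : Uni h R) {u : ℂ} (hu : u ∈ ball (0 : ℂ) R) : deriv h u ≠ 0 :=
  Pool.Agent.Lib.MP_1e9af3_an.deriv_ne_zero_of_injOn isOpen_ball U.diff U.inj hu

lemma Uni.dslope_ne (U : Uni h R) {u v : ℂ} (hu : u ∈ ball (0 : ℂ) R) (hv : v ∈ ball (0 : ℂ) R) :
    dslope h v u ≠ 0 := by
  by_cases e : u = v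
  · subst e; rw [dslope_same]; exact U.deriv_ne hu
  · rw [dslope_of_ne _ e, slope_def_field]
    exact div_ne_zero (sub_ne_zero.2 fun e' => e (U.inj hu hv e')) (sub_ne_zero.2 e)

lemma Uni.dslope_diff (U : Uni h R) {v : ℂ} (hv : v ∈ ball (0 : ℂ) R) :
    DifferentiableOn ℂ (dslope h v) (ball 0 R) :=
  (Complex.differentiableOn_dslope (isOpen_ball.mem_nhds hv)).2 U.diff

lemma Uni.gam_diff (U : Uni h R) (hR : 0 < R) : DifferentiableOn ℂ (gam h) (ball 0 R) :=
  (U.diff.deriv isOpen_ball).div (U.dslope_diff (mem_ball_self hR))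
    fun _ hu => U.dslope_ne hu (mem_ball_self hR)

lemma Uni.gam_zero (U : Uni h R) (hR : 0 < R) : gam h 0 = 1 := by
  rw [gam, dslope_same]; exact div_self (U.deriv_ne (mem_ball_self hR))

lemma Uni.gam_ne (U : Uni h R) {u : ℂ} (hu : u ∈ ball (0 : ℂ) R) : gam h u ≠ 0 :=
  div_ne_zero (U.deriv_ne hu) (U.dslope_ne hu (basic_zero_mem hu))

lemma Uni.h_eq (U : Uni h R) (u : ℂ) : h u = u * dslope h 0 u := by
  have := sub_smul_dslope h 0 u
  rw [U.zero, sub_zero, sub_zero, smul_eq_mul] at this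
  exact this.symm

lemma Uni.gam_mul (U : Uni h R) {u : ℂ} (hu : u ∈ ball (0 : ℂ) R) :
    gam h u * h u = u * deriv h u := by
  have h1 := U.dslope_ne hu (basic_zero_mem hu)
  rw [gam]
  conv_lhs => rw [U.h_eq u]
  field_simp

/-- mean value property -/
lemma av_hol {f : ℂ → ℂ} (hR : 1 < R) (hf : DifferentiableOn ℂ f (ball 0 R)) : av f = f 0 := by
  apply DiffContOnCl.circleAverage
  rw [abs_one]
  exact (hf.mono (closedBall_subset_ball hR)).diffContOnCl_ball Subset.rfl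

/-- minimum principle -/
lemma re_ge_of_sphere {f : ℂ → ℂ} {s c : ℝ} (hf : DiffContOnCl ℂ f (ball 0 s))
    (hc : ∀ u : ℂ, ‖u‖ = s → c ≤ (f u).re) {u : ℂ} (hu : ‖u‖ ≤ s) : c ≤ (f u).re := by
  rcases hu.eq_or_lt with e | hlt
  · exact hc u e
  have hs : s ≠ 0 := ((norm_nonneg u).trans_lt hlt).ne'
  have hd : DiffContOnCl ℂ (fun z => Complex.exp (-f z)) (ball 0 s) :=
    ⟨hf.differentiableOn.neg.cexp, hf.continuousOn.neg.cexp⟩
  have key := Complex.norm_le_of_forall_mem_frontier_norm_le (C := Real.exp (-c)) isBounded_ball hd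
    (fun z hz => by
      rw [frontier_ball _ hs, mem_sphere_zero_iff_norm] at hz
      rw [Complex.norm_exp, Complex.neg_re]
      exact Real.exp_le_exp.2 (neg_le_neg (hc z hz)))
    (subset_closure (mem_ball_zero_iff.2 hlt))
  rw [Complex.norm_exp, Complex.neg_re, Real.exp_le_exp] at key
  exact neg_le_neg_iff.1 key

end

end Pool.Agent.Lib.MP_16d611_an
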