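import Pool.Agent.Lib.MP_16d611_an.Basic

/-! Cauchy type formulas for means over the unit circle. -/

set_option autoImplicit false

namespace Pool.Agent.Lib.MP_16d611_an

open Set Metric Polynomial
open scoped InnerProductSpace ComplexConjugate

noncomputable section

section
variable {R : ℝ} {h : ℂ → ℂ}

lemma cauchy_mem (hR : 1 < R) {u : ℂ} (hu : ‖u‖ ≤ 1) : u ∈ ball (0 : ℂ) R := by
  rw [mem_ball_zero_iff]; linarith

lemma cauchy_congr {f g : ℂ → ℂ} (hfg : ∀ u : ℂ, ‖u‖ = 1 → f u = g u) : av f = av g :=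
  Real.circleAverage_congr_sphere fun u hu => hfg u (by simpa using hu)

lemma cauchy_int {f : ℂ → ℂ} (hf : ∀ u : ℂ, ‖u‖ = 1 → ContinuousAt f u) :
    CircleIntegrable f 0 1 :=
  ContinuousOn.circleIntegrable zero_le_one fun u hu =>
    (hf u (by simpa using hu)).continuousWithinAt

lemma cauchy_at (hR : 1 < R) {φ : ℂ → ℂ} (hφ : DifferentiableOn ℂ φ (ball 0 R)) {u : ℂ}
    (hu : ‖u‖ ≤ 1) : DifferentiableAt ℂ φ u :=
  hφ.differentiableAt (isOpen_ball.mem_nhds (cauchy_mem hR hu))

lemma cauchy_ne {u v : ℂ} (hu : ‖u‖ = 1) (hv : ‖v‖ < 1) : u - v ≠ 0 := by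
  intro h0
  rw [sub_eq_zero.1 h0] at hu
  linarith

lemma cauchy_ne0 {u : ℂ} (hu : ‖u‖ = 1) : u ≠ 0 := by
  intro h0
  rw [h0] at hu
  simp at hu

lemma cauchy_mul (a : ℂ) (f : ℂ → ℂ) : av (fun u => a * f u) = a * av f :=
  Real.circleAverage_fun_smul (a := a) (f := f)

/-- Cauchy formula as a mean -/
lemma cauchy_av (hR : 1 < R) {φ : ℂ → ℂ} (hφ : DifferentiableOn ℂ φ (ball 0 R)) {v : ℂ}
    (hv : ‖v‖ < 1) : av (fun u => u / (u - v) * φ u) = φ v := by
  have h1 : DiffContOnCl ℂ φ (ball (0 : ℂ) |(1 : ℝ)|) := by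
    apply DifferentiableOn.diffContOnCl
    rw [abs_one, closure_ball _ one_ne_zero]
    exact hφ.mono fun u hu => cauchy_mem hR (by simpa using hu)
  have h2 := h1.circleAverage_smul_div (w := v) (by simpa using hv)
  simpa using h2

theorem av_schwarz (hR : 1 < R) {φ : ℂ → ℂ} (hφ : DifferentiableOn ℂ φ (ball 0 R)) {v : ℂ}
    (hv : ‖v‖ < 1) : av (fun u => (u + v) / (u - v) * φ u) = 2 * φ v - φ 0 := by
  have h1 : av (fun u => (u + v) / (u - v) * φ u) =
      av (fun u => 2 * (u / (u - v) * φ u) - φ u) := by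
    apply cauchy_congr
    intro u hu
    have := cauchy_ne hu hv
    field_simp
    ring
  rw [h1, av, Real.circleAverage_fun_sub]
  · have h2 := cauchy_mul 2 (fun u => u / (u - v) * φ u)
    rw [cauchy_av hR hφ hv] at h2
    have h3 := av_hol hR hφ
    rw [av] at h2 h3
    rw [h2, h3]
  · apply cauchy_int
    intro u hu
    have h2 := (cauchy_at hR hφ hu.le).continuousAt
    have h3 := cauchy_ne hu hv
    exact continuousAt_const.mul
      ((continuousAt_id.div (continuousAt_id.sub continuousAt_const) h3).mul h2)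
  · exact cauchy_int fun u hu => (cauchy_at hR hφ hu.le).continuousAt

theorem av_schwarz_conj (hR : 1 < R) {g : ℂ → ℂ} (hg : DifferentiableOn ℂ g (ball 0 R)) {v : ℂ}
    (hv : ‖v‖ < 1) : av (fun u => (u + v) / (u - v) * conj (g u)) = conj (g 0) := by
  have hden : ∀ u : ℂ, ‖u‖ ≤ 1 → 1 - conj v * u ≠ 0 := by
    intro u hu h0
    have h1 : conj v * u = 1 := by linear_combination -h0
    have h2 : ‖conj v * u‖ < 1 := by
      rw [norm_mul, Complex.norm_conj]
      nlinarith [norm_nonneg v, norm_nonneg u]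
    rw [h1] at h2
    simp at h2
  have hd : ∀ u : ℂ, ‖u‖ ≤ 1 →
      DifferentiableAt ℂ (fun u => (1 + conj v * u) / (1 - conj v * u) * g u) u := by
    intro u hu
    have h2 := cauchy_at hR hg hu
    have h3 := hden u hu
    fun_prop (disch := assumption)
  have h1 : DiffContOnCl ℂ (fun u => (1 + conj v * u) / (1 - conj v * u) * g u)
      (ball (0 : ℂ) |(1 : ℝ)|) := by
    apply DifferentiableOn.diffContOnCl
    rw [abs_one, closure_ball _ one_ne_zero]
    exact fun u hu => (hd u (by simpa using hu)).differentiableWithinAt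
  have h2 := h1.circleAverage
  have h3 := (Complex.conjCLE : ℂ →L[ℝ] ℂ).circleAverage_comp_comm
    (cauchy_int fun u hu => (hd u hu.le).continuousAt)
  rw [h2] at h3
  have h4 : av (fun u => (u + v) / (u - v) * conj (g u)) =
      av ((Complex.conjCLE : ℂ →L[ℝ] ℂ) ∘
        fun u => (1 + conj v * u) / (1 - conj v * u) * g u) := by
    apply cauchy_congr
    intro u hu
    have h5 : conj u = u⁻¹ := (Complex.inv_eq_conj hu).symm
    have h6 := cauchy_ne hu hv
    have h7 := cauchy_ne0 hu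
    simp only [Function.comp, ContinuousLinearEquiv.coe_coe, Complex.conjCLE_apply, map_mul,
      map_div₀, map_add, map_sub, map_one, Complex.conj_conj, h5]
    field_simp
  rw [h4, av, h3]
  simp

lemma cauchy_sub (h : ℂ → ℂ) (u v : ℂ) : h u - h v = (u - v) * dslope h v u := by
  have := sub_smul_dslope h v u
  rw [smul_eq_mul] at this
  exact this.symm

theorem Uni.av_hol (U : Uni h R) (hR : 1 < R) {φ : ℂ → ℂ} (hφ : DifferentiableOn ℂ φ (ball 0 R))
    {v : ℂ} (hv : ‖v‖ < 1) : av (fun u => Pk h v u * φ u) = φ v := by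
  have hv' := cauchy_mem hR hv.le
  have h0 : (0 : ℂ) ∈ ball (0 : ℂ) R := cauchy_mem hR (by simp)
  have hd : DifferentiableOn ℂ (fun u => gam h v * dslope h 0 u / dslope h v u * φ u)
      (ball 0 R) :=
    (((U.dslope_diff h0).const_mul _).div (U.dslope_diff hv')
      fun u hu => U.dslope_ne hu hv').mul hφ
  have h1 := cauchy_av hR hd hv
  have h2 : av (fun u => Pk h v u * φ u) =
      av (fun u => u / (u - v) * (gam h v * dslope h 0 u / dslope h v u * φ u)) := by
    apply cauchy_congr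
    intro u hu
    have h3 := cauchy_ne hu hv
    have h4 := U.dslope_ne (cauchy_mem hR hu.le) hv'
    rw [Pk, cauchy_sub h u v]
    conv_lhs => rw [U.h_eq u]
    field_simp
  rw [h2, h1, dslope_same, gam]
  have h5 := U.dslope_ne hv' h0
  have h6 := U.deriv_ne hv'
  field_simp

/-- the mean of an exact logarithmic derivative vanishes -/
lemma Uni.cauchy_exact (U : Uni h R) (hR : 1 < R) (l : ℕ) :
    av (fun u => (h u)⁻¹ ^ (l + 1) * gam h u) = 0 := by
  have h1 : (∮ z in C(0, 1), (-((l : ℂ) + 1)) * ((h z)⁻¹ ^ (l + 2) * deriv h z)) = 0 := by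
    apply circleIntegral.integral_eq_zero_of_hasDerivWithinAt (f := fun z => (h z)⁻¹ ^ (l + 1))
      zero_le_one
    intro z hz
    have hz1 : ‖z‖ = 1 := by simpa using hz
    have h2 := (cauchy_at hR U.diff hz1.le).hasDerivAt
    have h3 := U.h_ne (cauchy_mem hR hz1.le) (cauchy_ne0 hz1)
    have h4 := (h2.inv h3).pow (l + 1)
    refine (h4.congr_deriv ?_).hasDerivWithinAt
    simp only [Pi.inv_apply, Nat.add_sub_cancel]
    rw [div_eq_mul_inv, ← inv_pow (h z) 2]
    push_cast
    ring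
  rw [circleIntegral.integral_const_mul] at h1
  have h5 : (-((l : ℂ) + 1)) ≠ 0 := by
    rw [neg_ne_zero]; exact_mod_cast Nat.succ_ne_zero l
  have h6 := (mul_eq_zero.1 h1).resolve_left h5
  rw [av, Real.circleAverage_eq_circleIntegral one_ne_zero]
  have h7 : (∮ z in C(0, 1), (z - 0)⁻¹ • ((h z)⁻¹ ^ (l + 1) * gam h z)) =
      ∮ z in C(0, 1), (h z)⁻¹ ^ (l + 2) * deriv h z := by
    apply circleIntegral.integral_congr zero_le_one
    intro z hz
    have hz1 : ‖z‖ = 1 := by simpa using hz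
    have h3 := U.h_ne (cauchy_mem hR hz1.le) (cauchy_ne0 hz1)
    have h4 := cauchy_ne0 hz1
    have h8 : gam h z = z * deriv h z / h z := by
      rw [← U.gam_mul (cauchy_mem hR hz1.le)]; field_simp
    simp only [sub_zero, smul_eq_mul, h8]
    rw [div_eq_mul_inv]
    have h9 : z⁻¹ * z = 1 := inv_mul_cancel₀ h4
    linear_combination ((h z)⁻¹ ^ (l + 2) * deriv h z) * h9
  rw [h7, h6, smul_zero]

theorem Uni.av_pow (U : Uni h R) (hR : 1 < R) (l : ℕ) {v : ℂ} (hv : ‖v‖ < 1) :
    av (fun u => Pk h v u * ((h u)⁻¹ ^ (l + 1) * gam h u)) = 0 := by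
  have hR0 : 0 < R := by linarith
  have hv' := cauchy_mem hR hv.le
  have hne : ∀ u : ℂ, ‖u‖ = 1 → h u ≠ 0 := fun u hu =>
    U.h_ne (cauchy_mem hR hu.le) (cauchy_ne0 hu)
  have hsub : ∀ u : ℂ, ‖u‖ = 1 → h u - h v ≠ 0 := fun u hu => by
    rw [cauchy_sub]
    exact mul_ne_zero (cauchy_ne hu hv) (U.dslope_ne (cauchy_mem hR hu.le) hv')
  have hc : ∀ (n : ℕ) (u : ℂ), ‖u‖ = 1 →
      ContinuousAt (fun u => (h u)⁻¹ ^ n * gam h u) u := fun n u hu =>
    (((cauchy_at hR U.diff hu.le).continuousAt.inv₀ (hne u hu)).pow n).mul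
      (cauchy_at hR (U.gam_diff hR0) hu.le).continuousAt
  have hcP : ∀ u : ℂ, ‖u‖ = 1 → ContinuousAt (fun u => Pk h v u) u := fun u hu => by
    have h1 := (cauchy_at hR U.diff hu.le).continuousAt
    exact (continuousAt_const.mul h1).div (h1.sub continuousAt_const) (hsub u hu)
  have hrec : ∀ n : ℕ, h v * av (fun u => Pk h v u * ((h u)⁻¹ ^ (n + 1) * gam h u)) =
      av (fun u => Pk h v u * ((h u)⁻¹ ^ n * gam h u)) -
        gam h v * av (fun u => (h u)⁻¹ ^ n * gam h u) := by
    intro n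
    rw [← cauchy_mul, ← cauchy_mul, av, av, av, ← Real.circleAverage_fun_sub]
    · apply cauchy_congr
      intro u hu
      have h1 := hne u hu
      have h2 := hsub u hu
      rw [Pk, pow_succ]
      field_simp
      ring
    · exact cauchy_int fun u hu => (hcP u hu).mul (hc n u hu)
    · exact cauchy_int fun u hu => continuousAt_const.mul (hc n u hu)
  by_cases h0 : v = 0
  · rw [← U.cauchy_exact hR l]
    apply cauchy_congr
    intro u hu
    have h1 := hne u hu
    rw [Pk, h0, U.zero, U.gam_zero hR0]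
    field_simp
    ring
  have hv0 := U.h_ne hv' h0
  induction l with
  | zero =>
    have h1 := hrec 0
    simp only [pow_zero, one_mul] at h1
    rw [U.av_hol hR (U.gam_diff hR0) hv, Pool.Agent.Lib.MP_16d611_an.av_hol hR (U.gam_diff hR0),
      U.gam_zero hR0, mul_one, sub_self] at h1
    exact (mul_eq_zero.1 h1).resolve_left hv0
  | succ n ih =>
    have h1 := hrec (n + 1)
    rw [ih, U.cauchy_exact hR n, mul_zero, sub_zero] at h1
    exact (mul_eq_zero.1 h1).resolve_left hv0

end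

end

end Pool.Agent.Lib.MP_16d611_an
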