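import Pool.Agent.Lib.MP_069d55_gt.RMT

/-! Exterior Riemann map of a compact convex set and convexity of its level curves. -/

set_option autoImplicit false

namespace Pool.Agent.Lib.MP_16d611_an.Cf

open Set Filter Topology Complex Metric Bornology
open Pool.Agent.Lib.MP_1e9af3_an

noncomputable section

/-- `ψ` is the exterior conformal map of `W`, `Φ` its inverse. -/
structure Ext (W : Set ℂ) (ψ Φ : ℂ → ℂ) (c : ℂ) : Prop where
  dψ : DifferentiableOn ℂ ψ {ζ | 1 < ‖ζ‖}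
  dΦ : DifferentiableOn ℂ Φ Wᶜ
  mψ : ∀ ζ, 1 < ‖ζ‖ → ψ ζ ∉ W
  mΦ : ∀ z, z ∉ W → 1 < ‖Φ z‖
  lft : ∀ ζ, 1 < ‖ζ‖ → Φ (ψ ζ) = ζ
  rgt : ∀ z, z ∉ W → ψ (Φ z) = z
  c0 : c ≠ 0
  asy : Tendsto (fun ζ => ψ ζ / ζ) (cobounded ℂ) (𝓝 c)
  nψ : ∀ ε > 0, ∃ δ > 0, ∀ ζ, 1 < ‖ζ‖ → ‖ζ‖ < 1 + δ → ψ ζ ∈ thickening ε W
  nΦ : ∀ δ > 0, ∃ ε > 0, ∀ z ∈ thickening ε W, z ∉ W → ‖Φ z‖ < 1 + δ

lemma isOpen_ext : IsOpen {ζ : ℂ | 1 < ‖ζ‖} := isOpen_lt continuous_const continuous_norm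

namespace Ext

variable {W : Set ℂ} {ψ Φ : ℂ → ℂ} {c : ℂ}

lemma growth (h : Ext W ψ Φ c) {ε : ℝ} (hε : 0 < ε) :
    ∃ M : ℝ, 0 ≤ M ∧ ∀ z, z ∉ W → ‖Φ z‖ ≤ (1 + ε) * ‖z‖ / ‖c‖ + M := by
  have hc : 0 < ‖c‖ := norm_pos_iff.2 h.c0
  have h1 : ‖c‖ / (1 + ε) < ‖c‖ := div_lt_self hc (by linarith)
  have h2 : ∀ᶠ ζ in cobounded ℂ, ‖c‖ / (1 + ε) < ‖ψ ζ / ζ‖ :=
    (h.asy.norm).eventually (lt_mem_nhds h1)
  obtain ⟨R, -, hR⟩ := (hasBasis_cobounded_norm (E := ℂ)).eventually_iff.1 h2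
  refine ⟨max R 0, le_max_right _ _, fun z hz => ?_⟩
  by_cases hb : R ≤ ‖Φ z‖
  · have h3 := hR hb
    have h4 : 0 < ‖Φ z‖ := by linarith [h.mΦ z hz]
    simp only [h.rgt z hz, norm_div] at h3
    rw [div_lt_div_iff₀ (by linarith) h4] at h3
    have h5 : ‖Φ z‖ ≤ (1 + ε) * ‖z‖ / ‖c‖ := by
      rw [le_div_iff₀ hc]; nlinarith
    linarith [le_max_right R 0]
  · have : 0 ≤ (1 + ε) * ‖z‖ / ‖c‖ := by positivity
    linarith [le_max_left R 0, not_le.1 hb]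

lemma closed_lvl (h : Ext W ψ Φ c) (hW : IsClosed W) {ε : ℝ} (hε : 0 < ε) :
    IsClosed {z | z ∉ W ∧ 1 + ε ≤ ‖Φ z‖} := by
  rw [← isOpen_compl_iff, isOpen_iff_mem_nhds]
  intro z hz
  obtain ⟨e, he, hn⟩ := h.nΦ ε hε
  by_cases hzW : z ∈ W
  · filter_upwards [isOpen_thickening.mem_nhds (self_subset_thickening he W hzW)] with w hw
    rintro ⟨h1, h2⟩
    linarith [hn w hw h1]
  · have h1 : ‖Φ z‖ < 1 + ε := by
      by_contra h2
      exact hz ⟨hzW, not_lt.1 h2⟩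
    have hc : ContinuousAt Φ z :=
      (h.dΦ.differentiableAt (hW.isOpen_compl.mem_nhds hzW)).continuousAt
    filter_upwards [hc.norm.eventually (gt_mem_nhds h1)] with w hw
    rintro ⟨-, h2⟩
    linarith

/-- Maximum principle for `Φ (H η) / η`. -/
lemma key (h : Ext W ψ Φ c) (hW : IsClosed W) {H : ℂ → ℂ} {l : ℂ}
    (hd : DifferentiableOn ℂ H {ζ | 1 < ‖ζ‖})
    (hn : ∀ ε > 0, ∃ δ > 0, ∀ ζ, 1 < ‖ζ‖ → ‖ζ‖ < 1 + δ → H ζ ∈ thickening ε W)
    (ha : Tendsto (fun ζ => H ζ / ζ) (cobounded ℂ) (𝓝 (c * l))) (hl : ‖l‖ ≤ 1)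
    {η : ℂ} (hη : 1 < ‖η‖) (hH : H η ∉ W) : ‖Φ (H η)‖ ≤ ‖η‖ := by
  have hc : 0 < ‖c‖ := norm_pos_iff.2 h.c0
  have main : ∀ ε > 0, ‖Φ (H η) / η‖ ≤ 1 + 2 * ε := by
    intro ε hε
    have hη0 : 0 < ‖η‖ := by linarith
    by_cases hsm : ‖Φ (H η)‖ ≤ 1 + ε
    · rw [norm_div, div_le_iff₀ hη0]; nlinarith
    obtain ⟨e, he, hnΦ⟩ := h.nΦ ε hε
    obtain ⟨δ, hδ, hδH⟩ := hn e he
    obtain ⟨M, hM0, hM⟩ := h.growth hε
    -- the outer radius
    have t1 : Tendsto (fun ζ : ℂ => (1 + ε) * ‖H ζ / ζ‖ / ‖c‖ + M * ‖ζ‖⁻¹) (cobounded ℂ)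
        (𝓝 ((1 + ε) * ‖c * l‖ / ‖c‖ + M * 0)) :=
      ((ha.norm.const_mul _).div_const _).add
        ((tendsto_inv_atTop_zero.comp (tendsto_norm_cobounded_atTop (E := ℂ))).const_mul M)
    have t2 : (1 + ε) * ‖c * l‖ / ‖c‖ + M * 0 < 1 + 2 * ε := by
      rw [norm_mul, mul_zero, add_zero, div_lt_iff₀ hc]
      have : ‖c‖ * ‖l‖ ≤ ‖c‖ := mul_le_of_le_one_right hc.le hl
      nlinarith
    obtain ⟨R0, -, hR0⟩ := (hasBasis_cobounded_norm (E := ℂ)).eventually_iff.1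
      (t1.eventually (gt_mem_nhds t2))
    set R := max R0 (‖η‖ + 1) with hR
    set d := min (δ / 2) ((‖η‖ - 1) / 2) with hdd
    have hd0 : 0 < d := lt_min (by linarith) (by linarith)
    have hd1 : d < δ := (min_le_left _ _).trans_lt (by linarith)
    have hd2 : 1 + d < ‖η‖ := by linarith [min_le_right (δ / 2) ((‖η‖ - 1) / 2)]
    set T : Set ℂ := {ζ | 1 < ‖ζ‖ ∧ H ζ ∉ W} with hT
    have hTo : IsOpen T :=
      hd.continuousOn.isOpen_inter_preimage isOpen_ext hW.isOpen_compl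
    have hG : DifferentiableOn ℂ (fun ζ => Φ (H ζ)) T :=
      h.dΦ.comp (hd.mono fun ζ hζ => hζ.1) fun ζ hζ => hζ.2
    have hG' : DifferentiableOn ℂ (fun ζ => Φ (H ζ) / ζ) T :=
      hG.div differentiableOn_id fun ζ hζ h0 => by
        have := hζ.1
        rw [h0, norm_zero] at this; linarith
    set S : Set ℂ := (T ∩ (fun ζ => ‖Φ (H ζ)‖) ⁻¹' Ioi (1 + ε)) ∩ {ζ | 1 + d < ‖ζ‖ ∧ ‖ζ‖ < R}
      with hS
    have hSo : IsOpen S :=
      (hG.continuousOn.norm.isOpen_inter_preimage hTo isOpen_Ioi).inter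
        ((isOpen_lt continuous_const continuous_norm).inter
          (isOpen_lt continuous_norm continuous_const))
    set C : Set ℂ := {ζ | 1 + d ≤ ‖ζ‖ ∧ ‖ζ‖ ≤ R} ∩ H ⁻¹' {z | z ∉ W ∧ 1 + ε ≤ ‖Φ z‖} with hC
    have hCc : IsClosed C :=
      (hd.continuousOn.mono fun ζ hζ => by
        have := hζ.1
        show 1 < ‖ζ‖
        linarith).preimage_isClosed_of_isClosed
        ((isClosed_le continuous_const continuous_norm).inter
          (isClosed_le continuous_norm continuous_const)) (h.closed_lvl hW hε)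
    have hSC : closure S ⊆ C := closure_minimal
      (fun ζ hζ => ⟨⟨hζ.2.1.le, hζ.2.2.le⟩, hζ.1.1.2, le_of_lt hζ.1.2⟩) hCc
    have hCT : C ⊆ T := fun ζ hζ => ⟨by linarith [hζ.1.1], hζ.2.1⟩
    have hb : IsBounded S := (isBounded_closedBall (x := (0 : ℂ)) (r := R)).subset fun ζ hζ => by
      simpa using hζ.2.2.le
    refine Complex.norm_le_of_forall_mem_frontier_norm_le hb
      ((hG'.mono (hSC.trans hCT)).diffContOnCl) (fun ζ hζ => ?_)
      (subset_closure ⟨⟨⟨hη, hH⟩, not_le.1 hsm⟩, hd2,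
        by linarith [le_max_right R0 (‖η‖ + 1)]⟩)
    rw [hSo.frontier_eq] at hζ
    obtain ⟨⟨a1, a2⟩, a3, a4⟩ := hSC hζ.1
    have hζ1 : 1 < ‖ζ‖ := by linarith
    have hζ0 : 0 < ‖ζ‖ := by linarith
    by_cases b1 : ‖Φ (H ζ)‖ ≤ 1 + ε
    · rw [norm_div, div_le_iff₀ hζ0]; nlinarith
    by_cases b2 : ‖ζ‖ < 1 + δ
    · exact absurd (hnΦ _ (hδH ζ hζ1 b2) a3).le b1
    by_cases b3 : ‖ζ‖ < R
    · exact absurd ⟨⟨⟨hζ1, a3⟩, not_le.1 b1⟩, by linarith [not_lt.1 b2], b3⟩ hζ.2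
    have b4 : R0 ≤ ‖ζ‖ := (le_max_left _ _).trans (not_lt.1 b3)
    have b5 := hR0 b4
    have b6 := hM _ a3
    refine le_trans ?_ (le_of_lt b5)
    rw [norm_div, norm_div, div_le_iff₀ hζ0]
    refine b6.trans (le_of_eq ?_)
    field_simp
  have h1 : ‖Φ (H η) / η‖ ≤ 1 := le_of_forall_pos_le_add fun ε hε => by
    have := main (ε / 2) (by linarith)
    linarith
  rwa [norm_div, div_le_one (by linarith)] at h1

lemma hasDerivAt_ψ (h : Ext W ψ Φ c) {ζ : ℂ} (hζ : 1 < ‖ζ‖) : HasDerivAt ψ (deriv ψ ζ) ζ :=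
  (h.dψ.differentiableAt (isOpen_ext.mem_nhds hζ)).hasDerivAt

lemma deriv_mul (h : Ext W ψ Φ c) (hW : IsClosed W) {ζ : ℂ} (hζ : 1 < ‖ζ‖) :
    deriv Φ (ψ ζ) * deriv ψ ζ = 1 := by
  have h1 : HasDerivAt Φ (deriv Φ (ψ ζ)) (ψ ζ) :=
    (h.dΦ.differentiableAt (hW.isOpen_compl.mem_nhds (h.mψ ζ hζ))).hasDerivAt
  have h2 := h1.comp ζ (h.hasDerivAt_ψ hζ)
  have h3 : HasDerivAt (Φ ∘ ψ) 1 ζ :=
    (hasDerivAt_id ζ).congr_of_eventuallyEq (by
      filter_upwards [isOpen_ext.mem_nhds hζ] with w hw using h.lft w hw)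
  exact h2.unique h3

lemma deriv_ne (h : Ext W ψ Φ c) (hW : IsClosed W) {ζ : ℂ} (hζ : 1 < ‖ζ‖) : deriv ψ ζ ≠ 0 :=
  fun h0 => by
    have := h.deriv_mul hW hζ
    rw [h0, mul_zero] at this
    exact zero_ne_one this

lemma inj (h : Ext W ψ Φ c) : InjOn ψ {ζ | 1 < ‖ζ‖} := fun a ha b hb hab => by
  rw [← h.lft a ha, ← h.lft b hb, hab]

/-- One sided derivative at a point of a level curve. -/
lemma tangent (h : Ext W ψ Φ c) (hW : IsClosed W) {ζ v : ℂ} (hζ : 1 < ‖ζ‖)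
    (hv : ∀ s : ℝ, 0 < s → s < 1 → ψ ζ - s * v ∉ W → ‖Φ (ψ ζ - s * v)‖ ≤ ‖ζ‖) :
    0 ≤ ((starRingEnd ℂ) (ζ * deriv ψ ζ) * v).re := by
  have h1 : HasDerivAt Φ (deriv Φ (ψ ζ)) (ψ ζ) :=
    (h.dΦ.differentiableAt (hW.isOpen_compl.mem_nhds (h.mψ ζ hζ))).hasDerivAt
  have h2 : HasDerivAt (fun s : ℂ => ψ ζ - s * v) (-v) 0 := by
    simpa using ((hasDerivAt_id (0 : ℂ)).mul_const v).const_sub (ψ ζ)
  have h3 : HasDerivAt (fun s : ℂ => (starRingEnd ℂ) ζ * Φ (ψ ζ - s * v))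
      ((starRingEnd ℂ) ζ * (deriv Φ (ψ ζ) * (-v))) 0 := by
    refine HasDerivAt.const_mul _ ?_
    exact HasDerivAt.comp (0 : ℂ) (h₂ := Φ) (by simpa using h1) h2
  have h4 : HasDerivAt (fun s : ℝ => ((starRingEnd ℂ) ζ * Φ (ψ ζ - s * v)).re)
      ((starRingEnd ℂ) ζ * (deriv Φ (ψ ζ) * (-v))).re 0 := by
    simpa using h3.real_of_complex
  have h5 : ∀ᶠ s : ℝ in 𝓝 0, ψ ζ - s * v ∉ W := by
    have : ContinuousAt (fun s : ℝ => ψ ζ - s * v) 0 := by fun_prop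
    exact this.eventually (hW.isOpen_compl.mem_nhds (by simpa using h.mψ ζ hζ))
  have h6 : ((starRingEnd ℂ) ζ * (deriv Φ (ψ ζ) * (-v))).re ≤ 0 := by
    have t := (hasDerivAt_iff_tendsto_slope_left_right.1 h4).2
    refine le_of_tendsto t ?_
    filter_upwards [nhdsWithin_le_nhds h5, self_mem_nhdsWithin,
      nhdsWithin_le_nhds (gt_mem_nhds (show (0 : ℝ) < 1 by norm_num))] with s hs hs0 hs1
    have hs0' : 0 < s := hs0
    rw [slope_def_field, sub_zero]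
    refine div_nonpos_of_nonpos_of_nonneg ?_ hs0'.le
    have a1 := hv s hs0' hs1 hs
    have a2 : ((starRingEnd ℂ) ζ * Φ (ψ ζ - s * v)).re ≤ ‖ζ‖ * ‖ζ‖ := by
      refine (re_le_norm _).trans ?_
      rw [norm_mul, RCLike.norm_conj]
      exact mul_le_mul_of_nonneg_left a1 (norm_nonneg _)
    have a3 : ((starRingEnd ℂ) ζ * Φ (ψ ζ - ((0 : ℝ) : ℂ) * v)).re = ‖ζ‖ * ‖ζ‖ := by
      simp only [ofReal_zero, zero_mul, sub_zero, h.lft ζ hζ]
      rw [conj_mul', ← ofReal_pow, ofReal_re, sq]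
    linarith
  have h7 := h.deriv_mul hW hζ
  set a := deriv Φ (ψ ζ)
  set b := deriv ψ ζ
  have h8 : (starRingEnd ℂ) (ζ * b) * v
      = -(((‖b‖ ^ 2 : ℝ) : ℂ) * ((starRingEnd ℂ) ζ * (a * (-v)))) := by
    rw [ofReal_pow, ← conj_mul', map_mul]
    linear_combination (-(starRingEnd ℂ) ζ * (starRingEnd ℂ) b * v) * h7
  rw [h8, neg_re, re_ofReal_mul]
  exact neg_nonneg.2 (mul_nonpos_of_nonneg_of_nonpos (by positivity) h6)

/-- (b): `W` lies in the tangent half planes of the level curves. -/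
theorem supp (h : Ext W ψ Φ c) (hW : IsClosed W) (hc : Convex ℝ W) {ζ z : ℂ} (hζ : 1 < ‖ζ‖)
    (hz : z ∈ W) : 0 ≤ ((starRingEnd ℂ) (ζ * deriv ψ ζ) * (ψ ζ - z)).re := by
  refine h.tangent hW hζ fun s hs0 hs1 hs => ?_
  refine h.key hW (H := fun η => ψ η - s * (ψ η - z)) (l := 1 - s) ?_ ?_ ?_ ?_ hζ hs
  · exact h.dψ.sub ((h.dψ.sub_const z).const_mul _)
  · intro ε hε
    obtain ⟨δ, hδ, hn⟩ := h.nψ ε hε
    refine ⟨δ, hδ, fun η h1 h2 => ?_⟩
    have := (hc.thickening ε) (hn η h1 h2) (self_subset_thickening hε W hz)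
      (show 0 ≤ 1 - s by linarith) hs0.le (by ring)
    convert this using 1
    simp only [real_smul]; push_cast; ring
  · have t0 : Tendsto (fun η : ℂ => η⁻¹) (cobounded ℂ) (𝓝 0) := tendsto_inv₀_cobounded
    have t1 := (h.asy.const_mul (1 - (s : ℂ))).add (t0.const_mul (s * z))
    convert t1 using 2
    · rw [div_eq_mul_inv, div_eq_mul_inv]; ring
    · ring
  · rw [show (1 - (s : ℂ)) = ((1 - s : ℝ) : ℂ) by push_cast; ring, norm_real,
      Real.norm_of_nonneg (by linarith)]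
    linarith

/-- (c): the level curves are convex. -/
theorem lvl (h : Ext W ψ Φ c) (hW : IsClosed W) (hc : Convex ℝ W) {ζ w : ℂ} (hζ : 1 < ‖ζ‖)
    (hw : ‖w‖ = ‖ζ‖) : 0 ≤ ((starRingEnd ℂ) (ζ * deriv ψ ζ) * (ψ ζ - ψ w)).re := by
  have hζ0 : ζ ≠ 0 := norm_pos_iff.1 (by linarith)
  obtain ⟨m, hm, rfl⟩ : ∃ m : ℂ, ‖m‖ = 1 ∧ w = m * ζ :=
    ⟨w / ζ, by rw [norm_div, hw, div_self (by linarith)], by field_simp⟩
  have hm0 : m ≠ 0 := norm_pos_iff.1 (by linarith)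
  have hmn : ∀ η : ℂ, ‖m * η‖ = ‖η‖ := fun η => by rw [norm_mul, hm, one_mul]
  refine h.tangent hW hζ fun s hs0 hs1 hs => ?_
  refine h.key hW (H := fun η => ψ η - s * (ψ η - ψ (m * η))) (l := 1 - s + s * m)
    ?_ ?_ ?_ ?_ hζ hs
  · refine h.dψ.sub ((h.dψ.sub ?_).const_mul _)
    exact h.dψ.comp (by fun_prop) fun η hη => by
      show 1 < ‖m * η‖
      rw [hmn]; exact hη
  · intro ε hε
    obtain ⟨δ, hδ, hn⟩ := h.nψ ε hε
    refine ⟨δ, hδ, fun η h1 h2 => ?_⟩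
    have := (hc.thickening ε) (hn η h1 h2) (hn (m * η) (by rwa [hmn]) (by rwa [hmn]))
      (show 0 ≤ 1 - s by linarith) hs0.le (by ring)
    convert this using 1
    simp only [real_smul]; push_cast; ring
  · have t0 : Tendsto (fun η : ℂ => m * η) (cobounded ℂ) (cobounded ℂ) := by
      rw [← tendsto_norm_atTop_iff_cobounded]
      simpa only [hmn] using tendsto_norm_cobounded_atTop (E := ℂ)
    have t1 := (h.asy.const_mul (1 - (s : ℂ))).add ((h.asy.comp t0).const_mul (s * m))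
    convert t1 using 2
    · rename_i η
      by_cases h0 : η = 0
      · simp [h0]
      · simp only [Function.comp]; field_simp; ring
    · ring
  · refine (norm_add_le _ _).trans ?_
    rw [show (1 - (s : ℂ)) = ((1 - s : ℝ) : ℂ) by push_cast; ring, norm_real,
      Real.norm_of_nonneg (by linarith), norm_mul, hm, norm_real, Real.norm_of_nonneg hs0.le]
    linarith

end Ext

/-- The inverted complement of `W`. -/
def invC (W : Set ℂ) (z₀ : ℂ) : Set ℂ := {u | u = 0 ∨ z₀ + u⁻¹ ∉ W}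

lemma invC_open {W : Set ℂ} (hW : IsCompact W) (z₀ : ℂ) : IsOpen (invC W z₀) := by
  rw [isOpen_iff_mem_nhds]
  intro u hu
  by_cases h0 : u = 0
  · obtain ⟨R, hR0, hR⟩ := hW.isBounded.subset_ball_lt 0 z₀
    subst h0
    filter_upwards [ball_mem_nhds (0 : ℂ) (inv_pos.2 hR0)] with v hv
    by_cases hv0 : v = 0
    · exact Or.inl hv0
    · refine Or.inr fun hm => ?_
      have h1 := hR hm
      rw [mem_ball, dist_eq_norm, add_sub_cancel_left, norm_inv] at h1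
      rw [mem_ball, dist_zero_right] at hv
      have h2 : 0 < ‖v‖ := norm_pos_iff.2 hv0
      rw [inv_lt_comm₀ h2 hR0] at h1
      linarith
  · have hu' : z₀ + u⁻¹ ∉ W := hu.resolve_left h0
    have hc : ContinuousAt (fun v : ℂ => z₀ + v⁻¹) u :=
      continuousAt_const.add (continuousAt_inv₀ h0)
    filter_upwards [hc.eventually (hW.isClosed.isOpen_compl.mem_nhds hu')] with v hv
    exact Or.inr hv

lemma invC_bdd {W : Set ℂ} {z₀ : ℂ} (hz : z₀ ∈ interior W) : IsBounded (invC W z₀) := by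
  obtain ⟨r, hr0, hr⟩ := Metric.mem_nhds_iff.1 (mem_interior_iff_mem_nhds.1 hz)
  refine (isBounded_closedBall (x := (0 : ℂ)) (r := r⁻¹)).subset fun u hu => ?_
  rw [mem_closedBall, dist_zero_right]
  by_cases h0 : u = 0
  · rw [h0, norm_zero]; positivity
  · have hu' : z₀ + u⁻¹ ∉ W := hu.resolve_left h0
    have h1 : r ≤ ‖u‖⁻¹ := by
      by_contra h2
      exact hu' (hr (by rw [mem_ball, dist_eq_norm, add_sub_cancel_left, norm_inv]; linarith))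
    rwa [le_inv_comm₀ hr0 (norm_pos_iff.2 h0)] at h1

lemma invC_sc {W : Set ℂ} (hc : Convex ℝ W) {z₀ : ℂ} (hz : z₀ ∈ W) :
    IsSimplyConnected (invC W z₀) := by
  have hs : StarConvex ℝ 0 (invC W z₀) := by
    intro u hu a b ha hb hab
    rw [smul_zero, zero_add]
    by_cases h0 : b • u = 0
    · exact Or.inl h0
    · have hb0 : b ≠ 0 := fun h => h0 (by rw [h, zero_smul])
      have hu0 : u ≠ 0 := fun h => h0 (by rw [h, smul_zero])
      refine Or.inr fun hm => hu.resolve_left hu0 ?_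
      have hb' : (b : ℂ) ≠ 0 := by exact_mod_cast hb0
      have hab' : (a : ℂ) = 1 - b := by
        rw [show a = 1 - b by linarith]; push_cast; ring
      convert hc hz hm ha hb hab using 1
      simp only [real_smul, hab']
      field_simp
      ring
  have := hs.contractibleSpace ⟨0, Or.inl rfl⟩
  exact SimplyConnectedSpace.ofContractible _

/-- The exterior Riemann map exists, and `u ψ(1/u)` is holomorphic on the unit disc. -/
theorem exists_ext {W : Set ℂ} (hW : IsCompact W) (hc : Convex ℝ W) {z₀ : ℂ}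
    (hz : z₀ ∈ interior W) :
    ∃ (ψ Φ χ : ℂ → ℂ), Ext W ψ Φ (χ 0) ∧ DifferentiableOn ℂ χ (ball 0 1) ∧
      ∀ ζ, 1 < ‖ζ‖ → ψ ζ = ζ * χ ζ⁻¹ := by
  have hzW : z₀ ∈ W := interior_subset hz
  have hU := invC_open hW z₀
  have h0U : (0 : ℂ) ∈ invC W z₀ := Or.inl rfl
  obtain ⟨g, gd, gi, gim, g0⟩ :=
    MP_069d55_gt.riemann hU (invC_sc hc hzW) (invC_bdd hz) h0U
  set U := invC W z₀ with hUdef
  set f := Function.invFunOn g U with hf
  have fg : ∀ w ∈ U, f (g w) = w := fun w hw => gi.leftInvOn_invFunOn hw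
  have hex : ∀ v ∈ ball (0 : ℂ) 1, ∃ w ∈ U, g w = v := fun v hv => by
    rw [← gim] at hv; exact hv
  have fU : ∀ v ∈ ball (0 : ℂ) 1, f v ∈ U := fun v hv => Function.invFunOn_mem (hex v hv)
  have gf : ∀ v ∈ ball (0 : ℂ) 1, g (f v) = v := fun v hv => Function.invFunOn_eq (hex v hv)
  have gb : ∀ w ∈ U, ‖g w‖ < 1 := fun w hw => by
    have : g w ∈ ball (0 : ℂ) 1 := gim ▸ ⟨w, hw, rfl⟩
    simpa using this
  have fd : DifferentiableOn ℂ f (ball 0 1) := fun v hv => by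
    obtain ⟨w, hw, rfl⟩ := hex v hv
    exact (inv_analyticAt hU gd gi fg hw).differentiableAt.differentiableWithinAt
  have f0 : f 0 = 0 := by simpa [g0] using fg 0 h0U
  have fi : InjOn f (ball 0 1) := fun a ha b hb hab => by rw [← gf a ha, ← gf b hb, hab]
  have b0 : (0 : ℂ) ∈ ball (0 : ℂ) 1 := mem_ball_self one_pos
  have fne : ∀ v ∈ ball (0 : ℂ) 1, v ≠ 0 → f v ≠ 0 := fun v hv h0 h1 =>
    h0 (fi hv b0 (h1.trans f0.symm))
  have gne : ∀ w ∈ U, w ≠ 0 → g w ≠ 0 := fun w hw h0 h1 => h0 (gi hw h0U (h1.trans g0.symm))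
  have sd : DifferentiableOn ℂ (dslope f 0) (ball 0 1) :=
    (differentiableOn_dslope (ball_mem_nhds _ one_pos)).2 fd
  have sv : ∀ v : ℂ, v ≠ 0 → dslope f 0 v = f v / v := fun v hv => by
    rw [dslope_of_ne _ hv, slope_def_field, f0, sub_zero, sub_zero]
  have sne : ∀ v ∈ ball (0 : ℂ) 1, dslope f 0 v ≠ 0 := fun v hv => by
    by_cases h0 : v = 0
    · rw [h0, dslope_same]; exact deriv_ne_zero_of_injOn isOpen_ball fd fi b0
    · rw [sv v h0]; exact div_ne_zero (fne v hv h0) h0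
  have ib : ∀ ζ : ℂ, 1 < ‖ζ‖ → ζ⁻¹ ∈ ball (0 : ℂ) 1 := fun ζ hζ => by
    rw [mem_ball, dist_zero_right, norm_inv]; exact inv_lt_one_of_one_lt₀ hζ
  have n0 : ∀ ζ : ℂ, 1 < ‖ζ‖ → ζ ≠ 0 := fun ζ hζ => norm_pos_iff.1 (by linarith)
  have zn : ∀ z, z ∉ W → z - z₀ ≠ 0 := fun z hz h => hz (sub_eq_zero.1 h ▸ hzW)
  have zU : ∀ z, z ∉ W → (z - z₀)⁻¹ ∈ U := fun z hz => Or.inr (by simpa using hz)
  set χ : ℂ → ℂ := fun u => u * z₀ + (dslope f 0 u)⁻¹ with hχ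
  have χd : DifferentiableOn ℂ χ (ball 0 1) :=
    (differentiableOn_id.mul_const z₀).add (sd.inv sne)
  have hψχ : ∀ ζ : ℂ, 1 < ‖ζ‖ → z₀ + (f ζ⁻¹)⁻¹ = ζ * χ ζ⁻¹ := fun ζ hζ => by
    have h1 := n0 ζ hζ
    have h2 := fne _ (ib ζ hζ) (inv_ne_zero h1)
    simp only [hχ, sv _ (inv_ne_zero h1)]
    field_simp
  refine ⟨fun ζ => z₀ + (f ζ⁻¹)⁻¹, fun z => (g (z - z₀)⁻¹)⁻¹, χ, ⟨?_, ?_, ?_, ?_, ?_, ?_, ?_, ?_,
    ?_, ?_⟩, χd, hψχ⟩
  · refine DifferentiableOn.const_add _ (DifferentiableOn.inv ?_ fun ζ hζ =>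
      fne _ (ib ζ hζ) (inv_ne_zero (n0 ζ hζ)))
    exact fd.comp (differentiableOn_id.inv n0) ib
  · refine DifferentiableOn.inv ?_ fun z hz => gne _ (zU z hz) (inv_ne_zero (zn z hz))
    exact gd.comp ((differentiableOn_id.sub_const z₀).inv zn) zU
  · exact fun ζ hζ => (fU _ (ib ζ hζ)).resolve_left (fne _ (ib ζ hζ) (inv_ne_zero (n0 ζ hζ)))
  · intro z hz
    rw [norm_inv]
    exact (one_lt_inv₀ (norm_pos_iff.2 (gne _ (zU z hz) (inv_ne_zero (zn z hz))))).2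
      (gb _ (zU z hz))
  · intro ζ hζ
    simp only [add_sub_cancel_left, inv_inv, gf _ (ib ζ hζ)]
  · intro z hz
    simp only [inv_inv, fg _ (zU z hz), add_sub_cancel]
  · simpa [hχ] using sne 0 b0
  · have t0 : Tendsto (fun η : ℂ => η⁻¹) (cobounded ℂ) (𝓝 0) := tendsto_inv₀_cobounded
    have t1 := ((χd.differentiableAt (ball_mem_nhds _ one_pos)).continuousAt.tendsto).comp t0
    refine t1.congr' ?_
    filter_upwards [(tendsto_norm_cobounded_atTop (E := ℂ)).eventually (eventually_gt_atTop 1)]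
      with ζ hζ
    have := n0 ζ hζ
    simp only [Function.comp, hψχ ζ hζ]
    field_simp
  · intro ε hε
    have hWe : W ⊆ thickening ε W := self_subset_thickening hε W
    set K : Set ℂ := {u | u = 0 ∨ z₀ + u⁻¹ ∉ thickening ε W} with hK
    have hKU : K ⊆ U := fun u hu => hu.imp id fun h1 h2 => h1 (hWe h2)
    have hKc : IsClosed K := by
      rw [← isOpen_compl_iff, isOpen_iff_mem_nhds]
      intro u hu
      have h1 : u ≠ 0 := fun h => hu (Or.inl h)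
      have h2 : z₀ + u⁻¹ ∈ thickening ε W := by
        by_contra h; exact hu (Or.inr h)
      have hc : ContinuousAt (fun v : ℂ => z₀ + v⁻¹) u :=
        continuousAt_const.add (continuousAt_inv₀ h1)
      filter_upwards [hc.eventually (isOpen_thickening.mem_nhds h2),
        isOpen_ne.mem_nhds h1] with v hv hv0
      rintro (h | h)
      · exact hv0 h
      · exact h hv
    have hKk : IsCompact K := isCompact_of_isClosed_isBounded hKc ((invC_bdd hz).subset hKU)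
    obtain ⟨u₀, hu₀, hmax⟩ := hKk.exists_isMaxOn ⟨0, Or.inl rfl⟩
      (gd.continuousOn.mono hKU).norm
    have hm := gb u₀ (hKU hu₀)
    refine ⟨1 - ‖g u₀‖, by linarith, fun ζ h1 h2 => ?_⟩
    by_contra h3
    have h4 : ‖g (f ζ⁻¹)‖ ≤ ‖g u₀‖ := hmax (Or.inr h3)
    rw [gf _ (ib ζ h1), norm_inv, inv_le_iff_one_le_mul₀ (by linarith)] at h4
    nlinarith [norm_nonneg (g u₀), sq_nonneg (1 - ‖g u₀‖)]
  · intro δ hδ
    have hρ : (1 + δ)⁻¹ < 1 := inv_lt_one_of_one_lt₀ (by linarith)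
    have hsub : closedBall (0 : ℂ) (1 + δ)⁻¹ ⊆ ball 0 1 := closedBall_subset_ball hρ
    set L := f '' closedBall (0 : ℂ) (1 + δ)⁻¹ with hL
    have hLc : IsClosed L :=
      ((isCompact_closedBall _ _).image_of_continuousOn (fd.continuousOn.mono hsub)).isClosed
    have hLU : L ⊆ U := by
      rintro _ ⟨v, hv, rfl⟩
      exact fU v (hsub hv)
    have hO : W ⊆ interior (W ∪ {z | (z - z₀)⁻¹ ∉ L}) := by
      intro z hzz
      rw [mem_interior_iff_mem_nhds]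
      by_cases h0 : z = z₀
      · exact mem_of_superset (h0 ▸ mem_interior_iff_mem_nhds.1 hz) subset_union_left
      · have h1 : z - z₀ ≠ 0 := sub_ne_zero.2 h0
        have h2 : (z - z₀)⁻¹ ∉ L := fun h => by
          rcases hLU h with h3 | h3
          · exact h1 (inv_eq_zero.1 h3)
          · exact h3 (by simpa using hzz)
        have hc : ContinuousAt (fun v : ℂ => (v - z₀)⁻¹) z :=
          (continuousAt_id.sub continuousAt_const).inv₀ h1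
        filter_upwards [hc.eventually (hLc.isOpen_compl.mem_nhds h2)] with v hv
        exact Or.inr hv
    obtain ⟨ε, hε, hth⟩ := hW.exists_thickening_subset_open isOpen_interior hO
    refine ⟨ε, hε, fun z h1 h2 => ?_⟩
    have h3 : (z - z₀)⁻¹ ∉ L := (interior_subset (hth h1)).resolve_left h2
    have h4 : (1 + δ)⁻¹ < ‖g (z - z₀)⁻¹‖ := by
      by_contra h5
      exact h3 ⟨_, by simpa using not_lt.1 h5, fg _ (zU z h2)⟩
    rw [norm_inv]
    exact inv_lt_of_inv_lt₀ (by linarith) h4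

end

end Pool.Agent.Lib.MP_16d611_an.Cf
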