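import Pool.Agent.Lib.MP_16d611_an.Cf65

/-! A convex analytic curve round a compact convex set, parametrised by its exterior map. -/

set_option autoImplicit false

namespace Pool.Agent.Lib.MP_16d611_an.Cf

open Set Filter Topology Complex Metric

noncomputable section

/-- `ψ` maps `{ρ⁻¹ < |ζ|}` conformally into the complement of `W`, with convex level curves. -/
structure Curve (W : Set ℂ) (ε ρ : ℝ) (ψ χ : ℂ → ℂ) : Prop where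
  one_lt : 1 < ρ
  dχ : DifferentiableOn ℂ χ (ball 0 ρ)
  χ0 : χ 0 ≠ 0
  eq : ∀ ζ, ρ⁻¹ < ‖ζ‖ → ψ ζ = ζ * χ ζ⁻¹
  dψ : DifferentiableOn ℂ ψ {ζ | ρ⁻¹ < ‖ζ‖}
  inj : InjOn ψ {ζ | ρ⁻¹ < ‖ζ‖}
  dne : ∀ ζ, ρ⁻¹ < ‖ζ‖ → deriv ψ ζ ≠ 0
  out : ∀ ζ, ρ⁻¹ < ‖ζ‖ → ψ ζ ∉ W
  near : ∀ ζ, ‖ζ‖ = 1 → ψ ζ ∈ thickening ε W
  supp : ∀ ζ, ρ⁻¹ < ‖ζ‖ → ∀ z ∈ W, 0 ≤ ((starRingEnd ℂ) (ζ * deriv ψ ζ) * (ψ ζ - z)).re
  lvl : ∀ ζ w, ρ⁻¹ < ‖ζ‖ → ‖w‖ = ‖ζ‖ →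
    0 ≤ ((starRingEnd ℂ) (ζ * deriv ψ ζ) * (ψ ζ - ψ w)).re

theorem exists_curve {W : Set ℂ} (hW : IsCompact W) (hc : Convex ℝ W) (hne : W.Nonempty)
    {ε : ℝ} (hε : 0 < ε) : ∃ (ρ : ℝ) (ψ χ : ℂ → ℂ), Curve W ε ρ ψ χ := by
  obtain ⟨z₀, hz₀⟩ := hne
  have he : 0 < ε / 2 := by linarith
  have hW' : IsCompact (cthickening (ε / 2) W) := hW.cthickening
  have hc' : Convex ℝ (cthickening (ε / 2) W) := hc.cthickening _
  have hsub : W ⊆ cthickening (ε / 2) W := self_subset_cthickening W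
  have hz : z₀ ∈ interior (cthickening (ε / 2) W) :=
    thickening_subset_interior_cthickening _ _ (self_subset_thickening he W hz₀)
  obtain ⟨ψ, Φ, χ, h, χd, hψ⟩ := exists_ext hW' hc' hz
  obtain ⟨δ, hδ, hn⟩ := h.nψ _ he
  set r : ℝ := 1 + δ / 2 with hr
  have hr1 : 1 < r := by linarith
  have hr0 : 0 < r := by linarith
  have hrc : (r : ℂ) ≠ 0 := by exact_mod_cast hr0.ne'
  have nr : ∀ ζ : ℂ, ‖(r : ℂ) * ζ‖ = r * ‖ζ‖ := fun ζ => by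
    rw [norm_mul, norm_real, Real.norm_of_nonneg hr0.le]
  have big : ∀ ζ : ℂ, r⁻¹ < ‖ζ‖ → 1 < ‖(r : ℂ) * ζ‖ := fun ζ hζ => by
    rw [nr]; exact (inv_lt_iff_one_lt_mul₀' hr0).1 hζ
  have dr : ∀ ζ : ℂ, r⁻¹ < ‖ζ‖ → deriv (fun ζ => ψ (r * ζ)) ζ = deriv ψ (r * ζ) * r :=
    fun ζ hζ => by
      have h1 : HasDerivAt (fun ζ : ℂ => (r : ℂ) * ζ) r ζ := by
        simpa using (hasDerivAt_id ζ).const_mul (r : ℂ)
      exact ((h.hasDerivAt_ψ (big ζ hζ)).comp ζ h1).deriv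
  have jr : ∀ ζ : ℂ, r⁻¹ < ‖ζ‖ →
      ζ * deriv (fun ζ => ψ (r * ζ)) ζ = r * ζ * deriv ψ (r * ζ) := fun ζ hζ => by
    rw [dr ζ hζ]; ring
  refine ⟨r, fun ζ => ψ (r * ζ), fun u => r * χ (u / r), hr1, ?_, ?_, ?_, ?_, ?_, ?_, ?_, ?_,
    ?_, ?_⟩
  · refine DifferentiableOn.const_mul (χd.comp (by fun_prop) fun u hu => ?_) _
    rw [mem_ball, dist_zero_right] at hu ⊢
    rw [norm_div, norm_real, Real.norm_of_nonneg hr0.le, div_lt_one hr0]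
    exact hu
  · simpa using ⟨hr0.ne', h.c0⟩
  · intro ζ hζ
    simp only [hψ _ (big ζ hζ), mul_inv]
    rw [show (r : ℂ)⁻¹ * ζ⁻¹ = ζ⁻¹ / r by ring]
    ring
  · exact h.dψ.comp (by fun_prop) fun ζ hζ => big ζ hζ
  · exact fun a ha b hb hab => mul_left_cancel₀ hrc (h.inj (big a ha) (big b hb) hab)
  · intro ζ hζ
    rw [dr ζ hζ]
    exact mul_ne_zero (h.deriv_ne hW'.isClosed (big ζ hζ)) hrc
  · exact fun ζ hζ hm => h.mψ _ (big ζ hζ) (hsub hm)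
  · intro ζ hζ
    have h1 := hn (r * ζ) (by rw [nr, hζ]; linarith) (by rw [nr, hζ]; linarith)
    have h2 := thickening_cthickening_subset (ε / 2) he.le W h1
    rwa [add_halves] at h2
  · intro ζ hζ z hz
    rw [jr ζ hζ]
    exact h.supp hW'.isClosed hc' (big ζ hζ) (hsub hz)
  · intro ζ w hζ hw
    rw [jr ζ hζ]
    exact h.lvl hW'.isClosed hc' (big ζ hζ) (by rw [nr, nr, hw])

/-- Sign of `Re (j / v)` from the sign of `Re (conj j * v)`. -/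
lemma re_div_nonneg {j v : ℂ} (h : 0 ≤ ((starRingEnd ℂ) j * v).re) : 0 ≤ (j / v).re := by
  rw [div_re, ← add_div]
  refine div_nonneg ?_ (normSq_nonneg _)
  simpa using h

end

end Pool.Agent.Lib.MP_16d611_an.Cf
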