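import Pool.Agent.Lib.MP_16d611_an.Basic

/-! Convexity of the level curves: the two point inequality from the one point inequality. -/

set_option autoImplicit false

namespace Pool.Agent.Lib.MP_16d611_an

open Set Metric Polynomial
open scoped InnerProductSpace ComplexConjugate

noncomputable section

lemma conv_re_div (x y : ℂ) : (x / y).re * ‖y‖ ^ 2 = (x * conj y).re := by
  by_cases hy : y = 0
  · simp [hy]
  have h1 : Complex.normSq y ≠ 0 := by simpa using hy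
  rw [Complex.sq_norm, Complex.div_re]
  simp only [Complex.mul_re, Complex.conj_re, Complex.conj_im]
  field_simp
  ring

lemma conv_near {W : Set ℂ} {h : ℂ → ℂ} (hc : IsCompact W) (U : Uni h 1)
    (hne : ∀ a ∈ W, ∀ u ∈ ball (0 : ℂ) 1, h u * a ≠ 1)
    (hp : ∀ a ∈ W, ∀ v ∈ ball (0 : ℂ) 1, 0 ≤ (gam h v * conj (1 - h v * a)).re)
    {t ε : ℝ} (ht : t < 1) (hε : 0 < ε) :
    ∃ δ > 0, ∀ v : ℂ, ‖v‖ ≤ t → ∀ a ∈ thickening δ W, -ε ≤ (gam h v / (1 - h v * a)).re := by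
  set Ψ : ℂ × ℂ → ℝ := fun p =>
    (gam h p.1 * conj (1 - h p.1 * p.2)).re + ε * ‖1 - h p.1 * p.2‖ ^ 2 with hΨ
  have c1 : ContinuousOn (fun p : ℂ × ℂ => h p.1) (ball (0 : ℂ) 1 ×ˢ univ) :=
    U.diff.continuousOn.comp continuousOn_fst (fun _ hp => hp.1)
  have c2 : ContinuousOn (fun p : ℂ × ℂ => gam h p.1) (ball (0 : ℂ) 1 ×ˢ univ) :=
    (U.gam_diff one_pos).continuousOn.comp continuousOn_fst (fun _ hp => hp.1)
  have c3 : ContinuousOn (fun p : ℂ × ℂ => 1 - h p.1 * p.2) (ball (0 : ℂ) 1 ×ˢ univ) :=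
    continuousOn_const.sub (c1.mul continuousOn_snd)
  have c4 : ContinuousOn Ψ (ball (0 : ℂ) 1 ×ˢ univ) :=
    (Complex.continuous_re.comp_continuousOn
      (c2.mul (Complex.continuous_conj.comp_continuousOn c3))).add
      (continuousOn_const.mul (c3.norm.pow 2))
  have hO : IsOpen ((ball (0 : ℂ) 1 ×ˢ univ) ∩ Ψ ⁻¹' Ioi 0) :=
    c4.isOpen_inter_preimage (isOpen_ball.prod isOpen_univ) isOpen_Ioi
  have hsub : closedBall (0 : ℂ) t ×ˢ W ⊆ (ball (0 : ℂ) 1 ×ˢ univ) ∩ Ψ ⁻¹' Ioi 0 := by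
    rintro ⟨v, a⟩ ⟨hv, ha⟩
    have hv1 : v ∈ ball (0 : ℂ) 1 := closedBall_subset_ball ht hv
    refine ⟨⟨hv1, mem_univ _⟩, ?_⟩
    have h1 := hp a ha v hv1
    have h2 : 0 < ‖1 - h v * a‖ := norm_pos_iff.2 (sub_ne_zero.2 (hne a ha v hv1).symm)
    show 0 < (gam h v * conj (1 - h v * a)).re + ε * ‖1 - h v * a‖ ^ 2
    positivity
  obtain ⟨A, B, -, hB, hA, hWB, hAB⟩ :=
    generalized_tube_lemma (isCompact_closedBall (0 : ℂ) t) hc hO hsub
  obtain ⟨δ, hδ, hth⟩ := hc.exists_thickening_subset_open hB hWB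
  refine ⟨δ, hδ, fun v hv a ha => ?_⟩
  have h1 : 0 < (gam h v * conj (1 - h v * a)).re + ε * ‖1 - h v * a‖ ^ 2 :=
    (hAB (mk_mem_prod (hA (mem_closedBall_zero_iff.2 hv)) (hth ha))).2
  rw [← conv_re_div] at h1
  by_contra hlt
  have := not_le.1 hlt
  nlinarith [sq_nonneg ‖1 - h v * a‖]

lemma conv_lt {W : Set ℂ} {h : ℂ → ℂ} (hc : IsCompact W) (U : Uni h 1)
    (hne : ∀ a ∈ W, ∀ u ∈ ball (0 : ℂ) 1, h u * a ≠ 1)
    (hp : ∀ a ∈ W, ∀ v ∈ ball (0 : ℂ) 1, 0 ≤ (gam h v * conj (1 - h v * a)).re)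
    (hpr : ∀ δ > 0, ∃ s < 1, ∀ u : ℂ, s ≤ ‖u‖ → ‖u‖ < 1 → (h u)⁻¹ ∈ thickening δ W)
    {u v : ℂ} (hu : ‖u‖ < 1) (hv : ‖v‖ < ‖u‖) :
    0 ≤ (gam h v * h u * conj (h u - h v)).re := by
  have hup : 0 < ‖u‖ := (norm_nonneg v).trans_lt hv
  have hu0 : u ≠ 0 := norm_pos_iff.1 hup
  obtain ⟨τ, rfl⟩ : ∃ τ, v = τ * u := ⟨v / u, by field_simp⟩
  have hτ : ‖τ‖ < 1 := by
    rw [norm_mul] at hv
    by_contra h1
    nlinarith [not_lt.1 h1]
  have hτ1 : τ ≠ 1 := by rintro rfl; simp at hτ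
  have hle : ∀ w : ℂ, ‖w‖ < 1 → ‖τ * w‖ ≤ ‖τ‖ := fun w hw => by
    rw [norm_mul]; exact mul_le_of_le_one_right (norm_nonneg _) hw.le
  have hm : MapsTo (fun w : ℂ => τ * w) (ball 0 1) (ball 0 1) := fun w hw =>
    mem_ball_zero_iff.2 ((hle w (mem_ball_zero_iff.1 hw)).trans_lt hτ)
  have h01 : (0 : ℂ) ∈ ball (0 : ℂ) 1 := mem_ball_self one_pos
  have hsub : ∀ w : ℂ, h w - h (τ * w) = w * (dslope h 0 w - τ * dslope h 0 (τ * w)) := fun w => by
    rw [U.h_eq w, U.h_eq (τ * w)]; ring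
  have hne1 : ∀ w ∈ ball (0 : ℂ) 1, w ≠ 0 → h w - h (τ * w) ≠ 0 := fun w hw hw0 =>
    sub_ne_zero.2 fun e => hτ1 (mul_right_cancel₀ hw0 ((U.inj hw (hm hw) e).symm.trans
      (one_mul w).symm))
  have hden : ∀ w ∈ ball (0 : ℂ) 1, dslope h 0 w - τ * dslope h 0 (τ * w) ≠ 0 := by
    intro w hw
    by_cases hw0 : w = 0
    · subst hw0
      rw [mul_zero, ← one_sub_mul]
      exact mul_ne_zero (sub_ne_zero.2 hτ1.symm) (U.dslope_ne h01 h01)
    · have := hne1 w hw hw0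
      rw [hsub] at this
      exact right_ne_zero_of_mul this
  have hlin : DifferentiableOn ℂ (fun w : ℂ => τ * w) (ball 0 1) := by fun_prop
  have hf : DifferentiableOn ℂ
      (fun w => gam h (τ * w) * dslope h 0 w / (dslope h 0 w - τ * dslope h 0 (τ * w)))
      (ball 0 1) :=
    (((U.gam_diff one_pos).comp hlin hm).mul (U.dslope_diff h01)).div
      ((U.dslope_diff h01).sub ((differentiableOn_const τ).mul
        ((U.dslope_diff h01).comp hlin hm))) hden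
  have hval : ∀ w ∈ ball (0 : ℂ) 1, w ≠ 0 →
      gam h (τ * w) * dslope h 0 w / (dslope h 0 w - τ * dslope h 0 (τ * w))
        = gam h (τ * w) * h w / (h w - h (τ * w)) := fun w hw hw0 => by
    rw [hsub w]
    conv_rhs => rw [U.h_eq w]
    have := hden w hw
    field_simp
  have key : 0 ≤ (gam h (τ * u) * h u / (h u - h (τ * u))).re := by
    rw [← hval u (mem_ball_zero_iff.2 hu) hu0]
    apply le_of_forall_pos_le_add
    intro ε hε
    obtain ⟨δ, hδ, hn⟩ := conv_near hc U hne hp hτ hε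
    obtain ⟨s, hs, hs'⟩ := hpr δ hδ
    have hs1 : max s ‖u‖ < 1 := max_lt hs hu
    have := re_ge_of_sphere (c := -ε) (s := max s ‖u‖)
      (hf.diffContOnCl_ball (closedBall_subset_ball hs1)) (fun w hw => by
        have hw1 : ‖w‖ < 1 := hw ▸ hs1
        have hw0 : w ≠ 0 := norm_pos_iff.1 (hw ▸ hup.trans_le (le_max_right _ _))
        have hwb : w ∈ ball (0 : ℂ) 1 := mem_ball_zero_iff.2 hw1
        have h1 := hn (τ * w) (hle w hw1) _ (hs' w (hw ▸ le_max_left _ _) hw1)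
        have h2 := U.h_ne hwb hw0
        have h3 := hne1 w hwb hw0
        rw [hval w hwb hw0]
        have h4 : gam h (τ * w) * h w / (h w - h (τ * w))
            = gam h (τ * w) / (1 - h (τ * w) * (h w)⁻¹) := by
          field_simp
        rw [h4]; exact h1) (le_max_right s ‖u‖)
    linarith
  rw [← conv_re_div]
  positivity

theorem pos2_of_pos1 {W : Set ℂ} {h : ℂ → ℂ} (hc : IsCompact W) (U : Uni h 1)
    (hne : ∀ a ∈ W, ∀ u ∈ ball (0 : ℂ) 1, h u * a ≠ 1)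
    (hp : ∀ a ∈ W, ∀ v ∈ ball (0 : ℂ) 1, 0 ≤ (gam h v * conj (1 - h v * a)).re)
    (hpr : ∀ δ > 0, ∃ s < 1, ∀ u : ℂ, s ≤ ‖u‖ → ‖u‖ < 1 → (h u)⁻¹ ∈ thickening δ W) :
    ∀ u v : ℂ, ‖u‖ < 1 → ‖v‖ ≤ ‖u‖ → 0 ≤ (gam h v * h u * conj (h u - h v)).re := by
  intro u v hu hv
  by_cases hu0 : u = 0
  · subst hu0; simp [U.zero]
  have hup : ‖u‖ ≠ 0 := norm_ne_zero_iff.2 hu0
  have hvb : v ∈ ball (0 : ℂ) 1 := mem_ball_zero_iff.2 (hv.trans_lt hu)
  have hcont : ContinuousOn (fun v => (gam h v * h u * conj (h u - h v)).re) (ball 0 1) :=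
    Complex.continuous_re.comp_continuousOn
      (((U.gam_diff one_pos).continuousOn.mul continuousOn_const).mul
        (Complex.continuous_conj.comp_continuousOn (continuousOn_const.sub U.diff.continuousOn)))
  have hcl : v ∈ closure (ball (0 : ℂ) ‖u‖) := by
    rw [closure_ball _ hup]; exact mem_closedBall_zero_iff.2 hv
  exact ContinuousWithinAt.closure_le (f := fun _ => (0 : ℝ))
    (g := fun v => (gam h v * h u * conj (h u - h v)).re) hcl continuousWithinAt_const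
    ((hcont v hvb).mono (ball_subset_ball hu.le))
    (fun w hw => conv_lt hc U hne hp hpr hu (mem_ball_zero_iff.1 hw))

end

end Pool.Agent.Lib.MP_16d611_an
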