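import Pool.Agent.Lib.MP_16d611_an.Defs

/-! Gram inequality for the positive form `K + K*`. -/

set_option autoImplicit false

namespace Pool.Agent.Lib.MP_16d611_an

open Set Metric Polynomial
open scoped InnerProductSpace ComplexConjugate

noncomputable section

lemma gram_expand {ι n : Type} [Fintype ι] [Fintype n] (u v : ι → n → ℂ) :
    ∑ a, ∑ b, ‖∑ i, conj (v b i) * u a i‖ ^ 2 =
      ∑ i, ∑ j, ((∑ a, u a i * conj (u a j)) * conj (∑ b, v b i * conj (v b j))).re := by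
  have h1 : ∀ a b, ((‖∑ i, conj (v b i) * u a i‖ ^ 2 : ℝ) : ℂ) =
      ∑ i, ∑ j, (u a i * conj (u a j)) * conj (v b i * conj (v b j)) := by
    intro a b
    rw [← Complex.normSq_eq_norm_sq, ← Complex.mul_conj, map_sum, Finset.sum_mul_sum]
    refine Finset.sum_congr rfl fun i _ => Finset.sum_congr rfl fun j _ => ?_
    simp only [map_mul, Complex.conj_conj]
    ring
  have h2 : ((∑ a, ∑ b, ‖∑ i, conj (v b i) * u a i‖ ^ 2 : ℝ) : ℂ) =
      ∑ i, ∑ j, (∑ a, u a i * conj (u a j)) * conj (∑ b, v b i * conj (v b j)) := by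
    rw [Complex.ofReal_sum]
    simp only [Complex.ofReal_sum, h1]
    have h3 : ∀ i j, (∑ a, u a i * conj (u a j)) * conj (∑ b, v b i * conj (v b j)) =
        ∑ a, ∑ b, (u a i * conj (u a j)) * conj (v b i * conj (v b j)) := by
      intro i j
      rw [map_sum, Finset.sum_mul_sum]
    simp only [h3]
    calc ∑ a, ∑ b, ∑ i, ∑ j, (u a i * conj (u a j)) * conj (v b i * conj (v b j))
        = ∑ a, ∑ i, ∑ j, ∑ b, (u a i * conj (u a j)) * conj (v b i * conj (v b j)) := by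
          refine Finset.sum_congr rfl fun a _ => ?_
          rw [Finset.sum_comm]
          refine Finset.sum_congr rfl fun i _ => ?_
          rw [Finset.sum_comm]
      _ = ∑ i, ∑ j, ∑ a, ∑ b, (u a i * conj (u a j)) * conj (v b i * conj (v b j)) := by
          rw [Finset.sum_comm]
          refine Finset.sum_congr rfl fun i _ => ?_
          rw [Finset.sum_comm]
  have h4 := congrArg Complex.re h2
  rw [Complex.ofReal_re, Complex.re_sum] at h4
  rw [h4]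
  refine Finset.sum_congr rfl fun i _ => ?_
  rw [Complex.re_sum]

lemma gram_coord {ι n : Type} [Fintype ι] [Fintype n] (u v : ι → n → ℂ) :
    2 * ∑ a, ∑ b, ‖∑ i, conj (v b i) * u a i‖ ^ 2 ≤
      ∑ a, ∑ b, ‖∑ i, conj (u b i) * u a i‖ ^ 2 + ∑ a, ∑ b, ‖∑ i, conj (v b i) * v a i‖ ^ 2 := by
  rw [gram_expand u v, gram_expand u u, gram_expand v v, Finset.mul_sum, ← Finset.sum_add_distrib]
  refine Finset.sum_le_sum fun i _ => ?_
  rw [Finset.mul_sum, ← Finset.sum_add_distrib]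
  refine Finset.sum_le_sum fun j _ => ?_
  generalize (∑ a, u a i * conj (u a j)) = X
  generalize (∑ b, v b i * conj (v b j)) = Y
  simp only [Complex.mul_re, Complex.conj_re, Complex.conj_im]
  nlinarith [sq_nonneg (X.re - Y.re), sq_nonneg (X.im - Y.im)]

section
variable {ι : Type} [Fintype ι] [DecidableEq ι] {H : Type} [NormedAddCommGroup H]
  [InnerProductSpace ℂ H] [FiniteDimensional ℂ H]

lemma gram_diag (K : H →L[ℂ] H) (hK : ∀ w : H, 0 ≤ (⟪w, K w⟫_ℂ).re) :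
    ∃ c : H → Fin (Module.finrank ℂ H) → ℂ, ∀ x y : H,
      ⟪y, K x⟫_ℂ + conj ⟪x, K y⟫_ℂ = ∑ i, conj (c y i) * c x i := by
  set M : H →ₗ[ℂ] H := (K : H →ₗ[ℂ] H) + LinearMap.adjoint (K : H →ₗ[ℂ] H) with hM
  have hform : ∀ x y : H, ⟪y, M x⟫_ℂ = ⟪y, K x⟫_ℂ + conj ⟪x, K y⟫_ℂ := by
    intro x y
    rw [hM, LinearMap.add_apply, inner_add_right, LinearMap.adjoint_inner_right, inner_conj_symm]
    rfl
  have hs : M.IsSymmetric := by
    intro x y
    rw [← inner_conj_symm, hform, hform, map_add, Complex.conj_conj, add_comm]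
  set e := hs.eigenvectorBasis (n := Module.finrank ℂ H) rfl with he
  set l := hs.eigenvalues (n := Module.finrank ℂ H) rfl with hl
  have hev : ∀ i, M (e i) = (l i : ℂ) • e i := fun i => hs.apply_eigenvectorBasis rfl i
  have hl0 : ∀ i, 0 ≤ l i := by
    intro i
    have h1 := hform (e i) (e i)
    rw [hev, inner_smul_right, inner_self_eq_norm_sq_to_K, e.orthonormal.1 i] at h1
    have h2 := congrArg Complex.re h1
    simp only [Complex.add_re, Complex.conj_re] at h2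
    have h3 := hK (e i)
    simp at h2
    linarith
  refine ⟨fun x i => (Real.sqrt (l i) : ℂ) * ⟪e i, x⟫_ℂ, fun x y => ?_⟩
  rw [← hform, ← e.sum_inner_mul_inner y (M x)]
  refine Finset.sum_congr rfl fun i _ => ?_
  rw [← hs (e i) x, hev, inner_smul_left, map_mul, inner_conj_symm, Complex.conj_ofReal,
    Complex.conj_ofReal]
  have h4 : ((l i : ℝ) : ℂ) = (Real.sqrt (l i) : ℂ) * (Real.sqrt (l i) : ℂ) := by
    rw [← Complex.ofReal_mul, Real.mul_self_sqrt (hl0 i)]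
  calc ⟪y, e i⟫_ℂ * (((l i : ℝ) : ℂ) * ⟪e i, x⟫_ℂ)
      = ⟪y, e i⟫_ℂ * ((Real.sqrt (l i) : ℂ) * (Real.sqrt (l i) : ℂ) * ⟪e i, x⟫_ℂ) := by
        rw [← h4]
    _ = _ := by ring

omit [DecidableEq ι] in
theorem gram_ineq (K : H →L[ℂ] H) (hK : ∀ w : H, 0 ≤ (⟪w, K w⟫_ℂ).re) (x y : ι → H) :
    2 * ∑ a, ∑ b, ‖⟪y b, K (x a)⟫_ℂ + conj ⟪x a, K (y b)⟫_ℂ‖ ^ 2 ≤
      ∑ a, ∑ b, ‖⟪x b, K (x a)⟫_ℂ + conj ⟪x a, K (x b)⟫_ℂ‖ ^ 2 +
      ∑ a, ∑ b, ‖⟪y b, K (y a)⟫_ℂ + conj ⟪y a, K (y b)⟫_ℂ‖ ^ 2 := by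
  obtain ⟨c, hc⟩ := gram_diag K hK
  simp only [hc]
  exact gram_coord (fun a => c (x a)) (fun b => c (y b))

end

end

end Pool.Agent.Lib.MP_16d611_an
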