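import Pool.Agent.Lib.MP_16d611_an.Rep

/-! The operator kernel: holomorphy, value at the origin, positivity, commutation. -/

set_option autoImplicit false

namespace Pool.Agent.Lib.MP_16d611_an

open Set Metric Polynomial
open scoped InnerProductSpace ComplexConjugate

noncomputable section

variable {H : Type} [NormedAddCommGroup H] [InnerProductSpace ℂ H] [FiniteDimensional ℂ H]
variable {W : Set ℂ} {δ R : ℝ} {h : ℂ → ℂ}

theorem Model.kop_diff (M : Model W δ h R) {A : H →L[ℂ] H} (hA : numR A ⊆ W) (x y : H) :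
    DifferentiableOn ℂ (fun u => ⟪y, Kop h A u x⟫_ℂ) (ball 0 R) := rep_diff M hA x y

omit [FiniteDimensional ℂ H] in
theorem Model.kop_zero (M : Model W δ h R) (A : H →L[ℂ] H) : Kop h A 0 = 1 := by
  have hR0 : 0 < R := zero_lt_one.trans M.hR
  simp [Kop, M.uni.zero, M.uni.gam_zero hR0]

theorem Model.kop_pos (M : Model W δ h R) {A : H →L[ℂ] H} (hA : numR A ⊆ W) {u : ℂ}
    (hu : ‖u‖ = 1) (w : H) : 0 ≤ (⟪w, Kop h A u w⟫_ℂ).re := by
  have hu' : u ∈ ball (0 : ℂ) R := cauchy_mem M.hR hu.le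
  set z : H := Ring.inverse (1 - h u • A) w with hz
  have h1 := Ring.mul_inverse_cancel _ (rep_unit M hA hu')
  have h2 : z - h u • A z = w := by
    have := congrArg (fun T : H →L[ℂ] H => T w) h1
    simpa using this
  have h3 : Kop h A u w = gam h u • z := by simp [Kop, hz]
  by_cases h0 : z = 0
  · rw [h3, h0]; simp
  have hn : (‖z‖ : ℂ) ≠ 0 := by exact_mod_cast norm_ne_zero_iff.2 h0
  set e : H := (‖z‖ : ℂ)⁻¹ • z with he
  have hne : ‖e‖ = 1 := by
    rw [he, norm_smul, norm_inv, Complex.norm_real, norm_norm,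
      inv_mul_cancel₀ (norm_ne_zero_iff.2 h0)]
  have hze : z = (‖z‖ : ℂ) • e := by
    rw [he, smul_smul, mul_inv_cancel₀ hn, one_smul]
  have h4 := M.pos1 _ (hA ⟨e, hne, rfl⟩) u hu
  have hee : ⟪e, e⟫_ℂ = 1 := by
    rw [inner_self_eq_norm_sq_to_K, hne]; simp
  have h5 : ⟪w, Kop h A u w⟫_ℂ =
      ((‖z‖ ^ 2 : ℝ) : ℂ) * (gam h u * conj (1 - h u * ⟪e, A e⟫_ℂ)) := by
    rw [h3]
    conv_lhs => rw [← h2]
    generalize ‖z‖ = r at hze
    rw [hze]
    simp only [map_smul, inner_sub_left, inner_smul_left, inner_smul_right, hee, map_sub, map_mul,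
      map_one, inner_conj_symm, Complex.conj_ofReal]
    push_cast
    ring
  rw [h5, Complex.re_ofReal_mul]
  exact mul_nonneg (sq_nonneg _) h4

theorem Model.kop_comm (M : Model W δ h R) {A : H →L[ℂ] H} (hA : numR A ⊆ W) {u : ℂ}
    (hu : u ∈ ball (0 : ℂ) R) (p : ℂ[X]) (x : H) :
    Kop h A u (aeval A p x) = aeval A p (Kop h A u x) := by
  have hc : Commute A (Kop h A u) := by
    ext z
    simpa using (rep_comm M hA hu z).symm
  have h2 : Commute (aeval A p) (Kop h A u) := by
    induction p using Polynomial.induction_on' with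
    | add p q hp hq => rw [map_add]; exact hp.add_left hq
    | monomial n a =>
      rw [aeval_monomial]
      exact Commute.mul_left (Algebra.commutes a _) (hc.pow_left n)
  have := congrArg (fun T : H →L[ℂ] H => T x) h2.eq
  simpa using this.symm

end

end Pool.Agent.Lib.MP_16d611_an
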