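import Pool.Agent.Lib.MP_16d611_an.Defs

/-! Row form of the norm bound, and existence of a singular pair. -/

set_option autoImplicit false

namespace Pool.Agent.Lib.MP_16d611_an

open Set Metric Polynomial
open scoped InnerProductSpace ComplexConjugate

noncomputable section

/-- a top singular pair of an operator on a finite dimensional space -/
theorem sing_pair {E : Type*} [NormedAddCommGroup E] [InnerProductSpace ℂ E]
    [FiniteDimensional ℂ E] (T : E →L[ℂ] E) (hT : ‖T‖ ≠ 0) :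
    ∃ x y : E, ‖x‖ = 1 ∧ ‖y‖ = 1 ∧ T x = ((‖T‖ : ℝ) : ℂ) • y ∧
      ∀ w : E, ⟪y, T w⟫_ℂ = ((‖T‖ : ℝ) : ℂ) * ⟪x, w⟫_ℂ := by
  have : CompleteSpace E := FiniteDimensional.complete ℂ E
  have : ProperSpace E := FiniteDimensional.proper ℂ E
  have hk : 0 < ‖T‖ := lt_of_le_of_ne (norm_nonneg _) (Ne.symm hT)
  have hkc : ((‖T‖ : ℝ) : ℂ) ≠ 0 := by exact_mod_cast hT
  have hne : (sphere (0 : E) 1).Nonempty := by
    by_contra h0
    refine hT (le_antisymm ?_ (norm_nonneg _))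
    refine ContinuousLinearMap.opNorm_le_of_unit_norm le_rfl fun a ha => ?_
    exact absurd ⟨a, by simpa using ha⟩ h0
  obtain ⟨x, hx, hmax⟩ := (isCompact_sphere (0 : E) 1).exists_isMaxOn hne
    (f := fun a => ‖T a‖) (by fun_prop)
  have hx1 : ‖x‖ = 1 := by simpa using hx
  have hTx : ‖T x‖ = ‖T‖ := by
    refine le_antisymm (by simpa [hx1] using T.le_opNorm x) ?_
    exact ContinuousLinearMap.opNorm_le_of_unit_norm (norm_nonneg _) fun a ha =>
      hmax (by simpa using ha)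
  set y : E := ((‖T‖ : ℝ) : ℂ)⁻¹ • T x with hy
  have hy1 : ‖y‖ = 1 := by
    rw [hy, norm_smul, norm_inv, Complex.norm_real, norm_norm, hTx, inv_mul_cancel₀ hT]
  have hfw : T x = ((‖T‖ : ℝ) : ℂ) • y := by rw [hy, smul_smul, mul_inv_cancel₀ hkc, one_smul]
  have hyy : ⟪y, y⟫_ℂ = 1 := by rw [inner_self_eq_norm_sq_to_K, hy1]; simp
  have h1 : ‖ContinuousLinearMap.adjoint T y‖ ≤ ‖T‖ := by
    have := (ContinuousLinearMap.adjoint T).le_opNorm y
    rwa [hy1, mul_one, LinearIsometryEquiv.norm_map] at this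
  have h2 : ⟪ContinuousLinearMap.adjoint T y, ((‖T‖ : ℝ) : ℂ) • x⟫_ℂ
      = ((‖T‖ ^ 2 : ℝ) : ℂ) := by
    rw [inner_smul_right, ContinuousLinearMap.adjoint_inner_left, hfw, inner_smul_right, hyy]
    push_cast; ring
  have h3 : ‖ContinuousLinearMap.adjoint T y - ((‖T‖ : ℝ) : ℂ) • x‖ ^ 2 ≤ 0 := by
    rw [@norm_sub_sq ℂ, h2, norm_smul, hx1, Complex.norm_real, norm_norm]
    simp only [RCLike.re_to_complex, Complex.ofReal_re]
    nlinarith [norm_nonneg (ContinuousLinearMap.adjoint T y)]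
  have h4 : ContinuousLinearMap.adjoint T y = ((‖T‖ : ℝ) : ℂ) • x := by
    rw [← sub_eq_zero, ← norm_eq_zero]
    exact pow_eq_zero_iff two_ne_zero |>.1 (le_antisymm h3 (sq_nonneg _))
  refine ⟨x, y, hx1, hy1, hfw, fun w => ?_⟩
  rw [← ContinuousLinearMap.adjoint_inner_left, h4, inner_smul_left, Complex.conj_ofReal]

section
variable {ι : Type} [Fintype ι] [DecidableEq ι] {H : Type} [NormedAddCommGroup H]
  [InnerProductSpace ℂ H] [FiniteDimensional ℂ H]

omit [DecidableEq ι] in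
theorem Bd.row {F : Matrix ι ι ℂ} {M : ℝ} (hF : Bd F M) (ξ : ι → ℂ) :
    ∑ b, ‖∑ c, ξ c * F c b‖ ^ 2 ≤ M ^ 2 * ∑ c, ‖ξ c‖ ^ 2 := by
  set η : ι → ℂ := fun b => ∑ c, ξ c * F c b with hη
  set S : ℝ := ∑ b, ‖η b‖ ^ 2 with hS
  have hS0 : 0 ≤ S := Finset.sum_nonneg fun _ _ => sq_nonneg _
  have hX0 : 0 ≤ ∑ c, ‖ξ c‖ ^ 2 := Finset.sum_nonneg fun _ _ => sq_nonneg _
  have h1 : (S : ℂ) = ∑ c, ξ c * ∑ b, F c b * conj (η b) := by
    rw [hS]
    push_cast
    simp_rw [Finset.mul_sum]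
    rw [Finset.sum_comm]
    refine Finset.sum_congr rfl fun b _ => ?_
    rw [← Complex.mul_conj']
    conv_lhs => rw [show η b * conj (η b) = (∑ c, ξ c * F c b) * conj (η b) from rfl]
    rw [Finset.sum_mul]
    exact Finset.sum_congr rfl fun c _ => by ring
  have h2 : S ≤ ∑ c, ‖ξ c‖ * ‖∑ b, F c b * conj (η b)‖ := by
    calc S = ‖(S : ℂ)‖ := by rw [Complex.norm_real, Real.norm_of_nonneg hS0]
      _ ≤ ∑ c, ‖ξ c * ∑ b, F c b * conj (η b)‖ := by rw [h1]; exact norm_sum_le _ _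
      _ = _ := by simp_rw [norm_mul]
  have h3 := Finset.sum_mul_sq_le_sq_mul_sq Finset.univ (fun c => ‖ξ c‖)
    (fun c => ‖∑ b, F c b * conj (η b)‖)
  have h4 := hF fun b => conj (η b)
  simp only [RCLike.norm_conj] at h4
  rw [← hS] at h4
  have h5 : S ^ 2 ≤ (∑ c, ‖ξ c‖ ^ 2) * (M ^ 2 * S) :=
    ((pow_le_pow_left₀ hS0 h2 2).trans h3).trans (mul_le_mul_of_nonneg_left h4 hX0)
  change S ≤ _
  rcases hS0.eq_or_lt with h0 | h0
  · rw [← h0]; positivity
  · exact le_of_mul_le_mul_right (by nlinarith) h0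

/-- `P(A)` as an operator on the Hilbert sum -/
def singOp (P : Matrix ι ι ℂ[X]) (A : H →L[ℂ] H) :
    PiLp 2 (fun _ : ι => H) →L[ℂ] PiLp 2 (fun _ : ι => H) :=
  LinearMap.toContinuousLinearMap
    { toFun := fun x => WithLp.toLp 2 (act P A x.ofLp)
      map_add' := fun x y => by
        ext a
        simp [act, Finset.sum_add_distrib]
      map_smul' := fun c x => by
        ext a
        simp [act, Finset.smul_sum] }

omit [DecidableEq ι] in
lemma singOp_apply (P : Matrix ι ι ℂ[X]) (A : H →L[ℂ] H) (x : PiLp 2 (fun _ : ι => H)) (a : ι) :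
    singOp P A x a = act P A x.ofLp a := rfl

omit [DecidableEq ι] in
theorem exists_pair (P : Matrix ι ι ℂ[X]) (A : H →L[ℂ] H) :
    ∃ k : ℝ, 0 ≤ k ∧ BdOp P A k ∧ (k = 0 ∨ ∃ x y : ι → H, SPair P A k x y) := by
  refine ⟨‖singOp P A‖, norm_nonneg _, fun x => ?_, ?_⟩
  · have h := (singOp P A).le_opNorm (WithLp.toLp 2 x)
    have h2 := pow_le_pow_left₀ (norm_nonneg _) h 2
    rw [mul_pow, PiLp.norm_sq_eq_of_L2, PiLp.norm_sq_eq_of_L2] at h2
    exact h2
  · by_cases h0 : ‖singOp P A‖ = 0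
    · exact Or.inl h0
    obtain ⟨x, y, hx, hy, hf, hb⟩ := sing_pair (singOp P A) h0
    refine Or.inr ⟨x.ofLp, y.ofLp, ?_, ?_, fun a => ?_, fun w => ?_⟩
    · rw [← PiLp.norm_sq_eq_of_L2, hx, one_pow]
    · rw [← PiLp.norm_sq_eq_of_L2, hy, one_pow]
    · rw [← singOp_apply, hf]; rfl
    · have := hb (WithLp.toLp 2 w)
      rw [PiLp.inner_apply, PiLp.inner_apply] at this
      exact this

end

end

end Pool.Agent.Lib.MP_16d611_an
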