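import Pool.Agent.Lib.MP_16d611_an.LemL
import Pool.Agent.Lib.MP_16d611_an.Resolv
import Pool.Agent.Lib.MP_16d611_an.Gram
import Pool.Agent.Lib.MP_16d611_an.Sing

/-! The core estimate: a singular value of `P(A)` is at most twice the bound on the curve. -/

set_option autoImplicit false

namespace Pool.Agent.Lib.MP_16d611_an

open Set Metric Polynomial
open scoped InnerProductSpace ComplexConjugate

noncomputable section

variable {W : Set ℂ} {δ R : ℝ} {h : ℂ → ℂ}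

lemma core_cont (hR : 1 < R) {Y : ℂ → ℂ} (hY : Split R Y) : ContinuousOn Y (sphere 0 1) := by
  obtain ⟨f, g, hf, hg, -, e⟩ := hY
  refine ((orth_cont hR hf).add (Complex.continuous_conj.comp_continuousOn (orth_cont hR hg))).congr
    fun u hu => e u (by simpa using hu)

lemma core_sum {κ E : Type} [Fintype κ] [NormedAddCommGroup E] [NormedSpace ℝ E] {f : κ → ℂ → E}
    (hf : ∀ a, ContinuousOn (f a) (sphere 0 1)) : av (fun u => ∑ a, f a u) = ∑ a, av (f a) :=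
  Real.circleAverage_fun_sum fun a _ => leml_int (hf a)

lemma core_sum2 {κ : Type} [Fintype κ] {f : κ → κ → ℂ → ℂ}
    (hf : ∀ a b, ContinuousOn (f a b) (sphere 0 1)) :
    av (fun u => ∑ a, ∑ b, ‖f a b u‖ ^ 2) = ∑ a, ∑ b, av (fun u => ‖f a b u‖ ^ 2) := by
  rw [core_sum (f := fun a u => ∑ b, ‖f a b u‖ ^ 2) fun a =>
    continuousOn_finsetSum _ fun b _ => (hf a b).norm.pow 2]
  exact Finset.sum_congr rfl fun a _ =>
    core_sum (f := fun b u => ‖f a b u‖ ^ 2) fun b => (hf a b).norm.pow 2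

lemma core_cont2 {κ : Type} [Fintype κ] {f : κ → κ → ℂ → ℂ}
    (hf : ∀ a b, ContinuousOn (f a b) (sphere 0 1)) :
    ContinuousOn (fun u => ∑ a, ∑ b, ‖f a b u‖ ^ 2) (sphere 0 1) :=
  continuousOn_finsetSum _ fun a _ => continuousOn_finsetSum _ fun b _ => (hf a b).norm.pow 2

lemma core_mul (c : ℝ) (f : ℂ → ℝ) : av (fun u => c * f u) = c * av f :=
  Real.circleAverage_fun_smul (a := c) (f := f)

lemma core_pk (U : Uni h R) (hR : 1 < R) {v : ℂ} (hv : ‖v‖ < 1) :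
    ContinuousOn (fun u => Pk h v u) (sphere 0 1) := by
  have hc : ContinuousOn h (sphere 0 1) := U.diff.continuousOn.mono (leml_sub hR)
  unfold Pk
  refine (continuousOn_const.mul hc).div (hc.sub continuousOn_const) fun u hu => ?_
  exact sub_ne_zero.2 fun e => leml_ne (by simpa using hu) hv
    (U.inj (leml_sub hR hu) (mem_ball_zero_iff.2 (hv.trans hR)) e)

/-- one diagonal block -/
lemma core_side (M : Model W δ h R) {κ : Type} [Fintype κ] {S Y D : κ → κ → ℂ → ℂ} {k C : ℝ}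
    (hS : ∀ a b, DifferentiableOn ℂ (S a b) (ball 0 R)) (hY : ∀ a b, Split R (Y a b))
    (hD : ∀ a b, ContinuousOn (D a b) (sphere 0 1))
    (hrep : ∀ a b, ∀ v : ℂ, ‖v‖ < 1 → (k : ℂ) * S a b v = av (fun u => Pk h v u * Y a b u))
    (hb : ∀ u : ℂ, ‖u‖ = 1 → ∑ a, ∑ b, ‖Y a b u‖ ^ 2 ≤ C ^ 2 * ∑ a, ∑ b, ‖D a b u‖ ^ 2) :
    k ^ 2 * (∑ a, ∑ b, av (fun u => ‖S a b u‖ ^ 2) + ∑ a, ∑ b, ‖S a b 0‖ ^ 2) ≤
      2 * C ^ 2 * ∑ a, ∑ b, av (fun u => ‖D a b u‖ ^ 2) := by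
  have hR := M.hR
  have Yc : ∀ a b, ContinuousOn (Y a b) (sphere 0 1) := fun a b => core_cont hR (hY a b)
  have h1 : ∀ a b, k ^ 2 * (av (fun u => ‖S a b u‖ ^ 2) + ‖S a b 0‖ ^ 2) ≤
      2 * av (fun u => ‖Y a b u‖ ^ 2) := fun a b => by
    have := M.lemL (S := fun v => (k : ℂ) * S a b v) (hY a b) ((hS a b).const_mul _) (hrep a b)
    simp only [norm_mul, mul_pow, Complex.norm_real, Real.norm_eq_abs, sq_abs] at this
    rw [core_mul] at this
    linarith
  have h2 : ∑ a, ∑ b, av (fun u => ‖Y a b u‖ ^ 2) ≤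
      C ^ 2 * ∑ a, ∑ b, av (fun u => ‖D a b u‖ ^ 2) := by
    rw [← core_sum2 Yc, ← core_sum2 hD, ← core_mul]
    exact Real.circleAverage_mono (leml_int (core_cont2 Yc))
      (leml_int (continuousOn_const.mul (core_cont2 hD))) fun u hu => hb u (by simpa using hu)
  have h3 := Finset.sum_le_sum fun a (_ : a ∈ Finset.univ) =>
    Finset.sum_le_sum fun b (_ : b ∈ Finset.univ) => h1 a b
  simp only [← Finset.mul_sum, Finset.sum_add_distrib] at h3
  linarith

lemma core_herm (hR : 1 < R) {κ : Type} [Fintype κ] {S : κ → κ → ℂ → ℂ}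
    (hS : ∀ a b, DifferentiableOn ℂ (S a b) (ball 0 R)) :
    ∑ a, ∑ b, av (fun u => ‖S a b u + conj (S b a u)‖ ^ 2) ≤
      2 * (∑ a, ∑ b, av (fun u => ‖S a b u‖ ^ 2) + ∑ a, ∑ b, ‖S a b 0‖ ^ 2) := by
  have h1 : ∀ a b, av (fun u => ‖S a b u + conj (S b a u)‖ ^ 2) ≤
      (av (fun u => ‖S a b u‖ ^ 2) + ‖S a b 0‖ ^ 2) +
        (av (fun u => ‖S b a u‖ ^ 2) + ‖S b a 0‖ ^ 2) := fun a b => by
    rw [av_orth hR (hS a b) (hS b a)]
    have e1 := Complex.re_le_norm (S a b 0 * S b a 0)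
    rw [norm_mul] at e1
    nlinarith [sq_nonneg (‖S a b 0‖ - ‖S b a 0‖)]
  have h3 := Finset.sum_le_sum fun a (_ : a ∈ Finset.univ) =>
    Finset.sum_le_sum fun b (_ : b ∈ Finset.univ) => h1 a b
  simp only [Finset.sum_add_distrib] at h3
  rw [Finset.sum_comm (f := fun a b => av (fun u => ‖S b a u‖ ^ 2)),
    Finset.sum_comm (f := fun a b => ‖S b a 0‖ ^ 2)] at h3
  linarith

variable {ι : Type} [Fintype ι] [DecidableEq ι] {H : Type} [NormedAddCommGroup H]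
  [InnerProductSpace ℂ H] [FiniteDimensional ℂ H]

theorem Model.core (M : Model W δ h R) {A : H →L[ℂ] H} (hA : numR A ⊆ W) {P : Matrix ι ι ℂ[X]}
    {C : ℝ} (hC : 0 ≤ C) (hP : ∀ u : ℂ, ‖u‖ = 1 → Bd (evP P (h u)⁻¹) C) {k : ℝ} {x y : ι → H}
    (hp : SPair P A k x y) : k ≤ 2 * C := by
  have hR := M.hR
  have U := M.uni
  have kd := M.kop_diff hA
  have kc : ∀ x y : H, ContinuousOn (fun u => ⟪y, Kop h A u x⟫_ℂ) (sphere 0 1) :=
    fun x y => orth_cont hR (kd x y)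
  have sp : ∀ (p : ℂ[X]) (x y : H), Split R (fun u => p.eval (h u)⁻¹ * ⟪y, Kop h A u x⟫_ℂ) :=
    fun p x y => U.split hR (kd x y) p
  have rep : ∀ (p : ι → ℂ[X]) (x y : ι → H) (v : ℂ), ‖v‖ < 1 →
      av (fun u => Pk h v u * ∑ c, (p c).eval (h u)⁻¹ * ⟪y c, Kop h A u (x c)⟫_ℂ) =
        ∑ c, ⟪y c, aeval A (p c) (Kop h A v (x c))⟫_ℂ := fun p x y v hv => by
    simp only [Finset.mul_sum]
    rw [core_sum (f := fun c u => Pk h v u * ((p c).eval (h u)⁻¹ * ⟪y c, Kop h A u (x c)⟫_ℂ))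
      fun c => (core_pk U hR hv).mul (core_cont hR (sp _ _ _))]
    exact Finset.sum_congr rfl fun c _ => M.kop_rep hA _ _ _ hv
  have hx := core_side M (k := k) (C := C) (S := fun a b u => ⟪x b, Kop h A u (x a)⟫_ℂ)
    (Y := fun a b u => ∑ c, (P c b).eval (h u)⁻¹ * ⟪y c, Kop h A u (x a)⟫_ℂ)
    (D := fun a b u => ⟪y b, Kop h A u (x a)⟫_ℂ) (fun a b => kd _ _)
    (fun a b => Split.sum _ fun c _ => sp _ _ _) (fun a b => kc _ _)
    (fun a b v hv => by
      rw [rep (fun c => P c b) (fun _ => x a) y v hv]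
      have e := hp.bwd (Pi.single b (Kop h A v (x a)))
      rw [Finset.sum_eq_single b (f := fun c => ⟪x c, (Pi.single b (Kop h A v (x a)) : ι → H) c⟫_ℂ)
        (fun c _ hc => by simp [hc]) (by simp), Pi.single_eq_same] at e
      rw [← e]
      refine Finset.sum_congr rfl fun c _ => ?_
      rw [act, Finset.sum_eq_single b (fun d _ hd => by simp [hd]) (by simp), Pi.single_eq_same])
    (fun u hu => by
      rw [Finset.mul_sum]
      refine Finset.sum_le_sum fun a _ => ?_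
      have := (hP u hu).row fun c => ⟪y c, Kop h A u (x a)⟫_ℂ
      simpa only [evP, Matrix.map_apply, mul_comm] using this)
  have hy := core_side M (k := k) (C := C) (S := fun a b u => ⟪y b, Kop h A u (y a)⟫_ℂ)
    (Y := fun a b u => ∑ c, (P a c).eval (h u)⁻¹ * ⟪y b, Kop h A u (x c)⟫_ℂ)
    (D := fun a b u => ⟪y b, Kop h A u (x a)⟫_ℂ) (fun a b => kd _ _)
    (fun a b => Split.sum _ fun c _ => sp _ _ _) (fun a b => kc _ _)
    (fun a b v hv => by
      rw [rep (fun c => P a c) x (fun _ => y b) v hv, ← inner_smul_right, ← map_smul, ← hp.fwd a,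
        act, map_sum, inner_sum]
      exact Finset.sum_congr rfl fun c _ => by
        rw [M.kop_comm hA (mem_ball_zero_iff.2 (hv.trans hR))])
    (fun u hu => by
      rw [Finset.sum_comm, Finset.sum_comm (f := fun a b => ‖⟪y b, Kop h A u (x a)⟫_ℂ‖ ^ 2),
        Finset.mul_sum]
      refine Finset.sum_le_sum fun b _ => ?_
      have := hP u hu fun c => ⟪y b, Kop h A u (x c)⟫_ℂ
      simpa only [evP, Matrix.map_apply] using this)
  have gx := core_herm hR (S := fun a b u => ⟪x b, Kop h A u (x a)⟫_ℂ) fun a b => kd _ _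
  have gy := core_herm hR (S := fun a b u => ⟪y b, Kop h A u (y a)⟫_ℂ) fun a b => kd _ _
  have cc : ∀ a b c d : H, ContinuousOn
      (fun u => ⟪a, Kop h A u b⟫_ℂ + conj ⟪c, Kop h A u d⟫_ℂ) (sphere 0 1) := fun a b c d =>
    (kc _ _).add (Complex.continuous_conj.comp_continuousOn (kc _ _))
  have g1 : 2 * ∑ a, ∑ b, av (fun u => ‖⟪y b, Kop h A u (x a)⟫_ℂ + conj ⟪x a, Kop h A u (y b)⟫_ℂ‖ ^ 2)
      ≤ ∑ a, ∑ b, av (fun u => ‖⟪x b, Kop h A u (x a)⟫_ℂ + conj ⟪x a, Kop h A u (x b)⟫_ℂ‖ ^ 2) +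
        ∑ a, ∑ b, av (fun u => ‖⟪y b, Kop h A u (y a)⟫_ℂ + conj ⟪y a, Kop h A u (y b)⟫_ℂ‖ ^ 2) := by
    have c1 := fun a b => cc (y b) (x a) (x a) (y b)
    have c2 := fun a b => cc (x b) (x a) (x a) (x b)
    have c3 := fun a b => cc (y b) (y a) (y a) (y b)
    rw [← core_sum2 c1, ← core_sum2 c2, ← core_sum2 c3, ← core_mul,
      ← Real.circleAverage_fun_add (leml_int (core_cont2 c2)) (leml_int (core_cont2 c3))]
    exact Real.circleAverage_mono (leml_int (continuousOn_const.mul (core_cont2 c1)))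
      (leml_int ((core_cont2 c2).add (core_cont2 c3))) fun u hu =>
        gram_ineq _ (M.kop_pos hA (by simpa using hu)) x y
  have g2 : ∑ a, ∑ b, av (fun u => ‖⟪y b, Kop h A u (x a)⟫_ℂ‖ ^ 2) ≤
      ∑ a, ∑ b, av (fun u => ‖⟪y b, Kop h A u (x a)⟫_ℂ + conj ⟪x a, Kop h A u (y b)⟫_ℂ‖ ^ 2) := by
    refine Finset.sum_le_sum fun a _ => Finset.sum_le_sum fun b _ => ?_
    rw [av_orth hR (kd (x a) (y b)) (kd (y b) (x a)), M.kop_zero, ContinuousLinearMap.one_apply,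
      ContinuousLinearMap.one_apply, ← inner_conj_symm (x a) (y b), Complex.mul_conj,
      Complex.ofReal_re]
    have p : 0 ≤ av (fun u => ‖⟪x a, Kop h A u (y b)⟫_ℂ‖ ^ 2) :=
      Real.circleAverage_nonneg_of_nonneg fun _ _ => by positivity
    linarith [Complex.normSq_nonneg ⟪y b, x a⟫_ℂ]
  have p0 : 0 < ∑ a, ∑ b, ‖⟪x b, Kop h A 0 (x a)⟫_ℂ‖ ^ 2 := by
    obtain ⟨a, ha⟩ : ∃ a, x a ≠ 0 := by
      by_contra hn
      push Not at hn
      have := hp.nx
      simp [hn] at this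
    refine Finset.sum_pos' (fun a _ => by positivity) ⟨a, Finset.mem_univ _, ?_⟩
    refine Finset.sum_pos' (fun a _ => by positivity) ⟨a, Finset.mem_univ _, ?_⟩
    rw [M.kop_zero, ContinuousLinearMap.one_apply]
    exact pow_pos (norm_pos_iff.2 (inner_self_ne_zero.2 ha)) 2
  have p1 : 0 ≤ ∑ a, ∑ b, av (fun u => ‖⟪x b, Kop h A u (x a)⟫_ℂ‖ ^ 2) :=
    Finset.sum_nonneg fun a _ => Finset.sum_nonneg fun b _ =>
      Real.circleAverage_nonneg_of_nonneg fun _ _ => by positivity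
  have p2 : 0 ≤ ∑ a, ∑ b, av (fun u => ‖⟪y b, Kop h A u (x a)⟫_ℂ‖ ^ 2) :=
    Finset.sum_nonneg fun a _ => Finset.sum_nonneg fun b _ =>
      Real.circleAverage_nonneg_of_nonneg fun _ _ => by positivity
  beta_reduce at hx hy gx gy
  generalize ∑ a, ∑ b, av (fun u => ‖⟪y b, Kop h A u (x a)⟫_ℂ‖ ^ 2) = d at *
  refine le_of_sq_le_sq ?_ (by positivity) |>.trans le_rfl
  rcases p2.eq_or_lt with e | hd
  · rw [← e, mul_zero] at hx
    have : k ^ 2 ≤ 0 := by
      by_contra hk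
      exact absurd hx (not_le.2 (mul_pos (not_le.1 hk) (by linarith)))
    nlinarith [sq_nonneg (2 * C)]
  · have k0 := sq_nonneg k
    have e1 := mul_le_mul_of_nonneg_left gx k0
    have e2 := mul_le_mul_of_nonneg_left gy k0
    have e3 := mul_le_mul_of_nonneg_left g1 k0
    have e4 := mul_le_mul_of_nonneg_left g2 k0
    refine le_of_mul_le_mul_right ?_ hd
    nlinarith

end

end Pool.Agent.Lib.MP_16d611_an
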