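import Pool.Agent.Lib.MP_16d611_an.Mob

/-! Near extremal singular pairs are nearly orthogonal. -/

set_option autoImplicit false

namespace Pool.Agent.Lib.MP_16d611_an

open Set Metric Polynomial
open scoped InnerProductSpace ComplexConjugate

noncomputable section
variable {ι : Type} [Fintype ι] [DecidableEq ι] {H : Type} [NormedAddCommGroup H]
  [InnerProductSpace ℂ H] [FiniteDimensional ℂ H]

omit [DecidableEq ι] in
lemma cross_hs {L : Matrix ι ι ℂ} {t : ℝ} (hL : ∑ a, ∑ b, ‖L a b‖ ^ 2 ≤ t ^ 2) : Bd L t := by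
  intro ξ
  have h1 : ∀ a, ‖∑ c, L a c * ξ c‖ ^ 2 ≤ (∑ c, ‖L a c‖ ^ 2) * ∑ c, ‖ξ c‖ ^ 2 := fun a => by
    refine le_trans ?_ (Finset.sum_mul_sq_le_sq_mul_sq Finset.univ (fun c => ‖L a c‖)
      fun c => ‖ξ c‖)
    refine pow_le_pow_left₀ (norm_nonneg _) ((norm_sum_le _ _).trans_eq ?_) 2
    simp only [norm_mul]
  refine (Finset.sum_le_sum fun a _ => h1 a).trans ?_
  rw [← Finset.sum_mul]
  exact mul_le_mul_of_nonneg_right hL (Finset.sum_nonneg fun _ _ => sq_nonneg _)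

omit [DecidableEq ι] [FiniteDimensional ℂ H] in
lemma cross_cs {y w : ι → H} {M : ℝ} (hM : 0 ≤ M) (hy : ∑ a, ‖y a‖ ^ 2 = 1)
    (hw : ∑ a, ‖w a‖ ^ 2 ≤ M ^ 2) : (∑ a, ⟪y a, w a⟫_ℂ).re ≤ M := by
  have h1 : (∑ a, ⟪y a, w a⟫_ℂ).re ≤ ∑ a, ‖y a‖ * ‖w a‖ :=
    (Complex.re_le_norm _).trans ((norm_sum_le _ _).trans
      (Finset.sum_le_sum fun a _ => norm_inner_le_norm _ _))
  have h2 := Finset.sum_mul_sq_le_sq_mul_sq Finset.univ (fun a => ‖y a‖) fun a => ‖w a‖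
  rw [hy, one_mul] at h2
  exact h1.trans (le_of_sq_le_sq (h2.trans hw) hM)

/-- near extremal pairs are nearly orthogonal -/
theorem SPair.cross {P : Matrix ι ι ℂ[X]} {A : H →L[ℂ] H} {k K : ℝ} {x y : ι → H} {Ω : Set ℂ}
    (hp : SPair P A k x y) (hP : ∀ z ∈ Ω, Bd (evP P z) 1) (hK0 : 0 ≤ K)
    (hK : ∀ P' : Matrix ι ι ℂ[X], (∀ z ∈ Ω, Bd (evP P' z) 1) → BdOp P' A K) {t : ℝ} (ht : 0 < t) :
    (k ^ 2 - 1) * t * Real.sqrt (∑ a, ∑ b, ‖⟪y a, x b⟫_ℂ‖ ^ 2) ≤ K - k + 2 * K * t ^ 2 := by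
  set S : ℝ := ∑ a, ∑ b, ‖⟪y a, x b⟫_ℂ‖ ^ 2 with hS
  have S0 : 0 ≤ S := Finset.sum_nonneg fun _ _ => Finset.sum_nonneg fun _ _ => sq_nonneg _
  set Γ : ℝ := Real.sqrt S with hΓ
  have ΓS : Γ ^ 2 = S := Real.sq_sqrt S0
  set L : Matrix ι ι ℂ := Matrix.of fun a b => ((t / Γ : ℝ) : ℂ) * conj ⟪y a, x b⟫_ℂ with hL
  have hLs : ∑ a, ∑ b, ‖L a b‖ ^ 2 ≤ t ^ 2 := by
    have : ∑ a, ∑ b, ‖L a b‖ ^ 2 = (t / Γ) ^ 2 * S := by
      rw [hS, Finset.mul_sum]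
      refine Finset.sum_congr rfl fun a _ => ?_
      rw [Finset.mul_sum]
      refine Finset.sum_congr rfl fun b _ => ?_
      rw [hL, Matrix.of_apply, norm_mul, Complex.norm_conj, Complex.norm_real, mul_pow,
        Real.norm_eq_abs, sq_abs]
    rw [this, ← ΓS]
    by_cases e : Γ = 0
    · rw [e]; simpa using sq_nonneg t
    · exact le_of_eq (by field_simp)
  have hl : ∑ a, ∑ b, L a b * ⟪y a, x b⟫_ℂ = ((t * Γ : ℝ) : ℂ) := by
    have : ∑ a, ∑ b, L a b * ⟪y a, x b⟫_ℂ = (((t / Γ) * S : ℝ) : ℂ) := by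
      rw [hS, Finset.mul_sum, Complex.ofReal_sum]
      refine Finset.sum_congr rfl fun a _ => ?_
      rw [Finset.mul_sum, Complex.ofReal_sum]
      refine Finset.sum_congr rfl fun b _ => ?_
      rw [hL, Matrix.of_apply, mul_assoc, Complex.conj_mul']
      push_cast
      ring
    rw [this, ← ΓS]
    congr 1
    by_cases e : Γ = 0
    · rw [e]; simp
    · field_simp
  set G : Matrix ι ι ℂ[X] :=
    P - L.map Polynomial.C + P * L.conjTranspose.map Polynomial.C * P with hG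
  set s : ℝ := 1 + 2 * t ^ 2 with hs
  have s0 : 0 < s := by positivity
  have hGb : ∀ z ∈ Ω, Bd (evP G z) s := fun z hz => by
    rw [hG, evP_mob]; exact Bd.mob (hP z hz) ht.le (cross_hs hLs)
  have hsc : ‖((s⁻¹ : ℝ) : ℂ)‖ ^ 2 = s⁻¹ ^ 2 := by
    rw [Complex.norm_real, Real.norm_eq_abs, sq_abs]
  have hb := hK (Matrix.of fun a b => Polynomial.C ((s⁻¹ : ℝ) : ℂ) * G a b) (fun z hz ξ => by
    have h1 := hGb z hz ξ
    have h2 : ∀ a, ‖∑ c, evP (Matrix.of fun a b => Polynomial.C ((s⁻¹ : ℝ) : ℂ) * G a b) z a c *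
        ξ c‖ ^ 2 = s⁻¹ ^ 2 * ‖∑ c, evP G z a c * ξ c‖ ^ 2 := fun a => by
      rw [← hsc, ← mul_pow, ← norm_mul, Finset.mul_sum]
      congr 2
      refine Finset.sum_congr rfl fun c _ => ?_
      simp only [evP, Matrix.map_apply, Matrix.of_apply, eval_mul, eval_C, mul_assoc]
    simp only [h2]
    rw [← Finset.mul_sum]
    refine (mul_le_mul_of_nonneg_left h1 (sq_nonneg _)).trans_eq ?_
    field_simp) x
  have h3 : ∀ a, ‖act (Matrix.of fun a b => Polynomial.C ((s⁻¹ : ℝ) : ℂ) * G a b) A x a‖ ^ 2 =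
      s⁻¹ ^ 2 * ‖act G A x a‖ ^ 2 := fun a => by
    rw [← hsc, ← mul_pow, ← norm_smul]
    congr 2
    simp only [act, Matrix.of_apply, Finset.smul_sum, ← smul_eq_C_mul, map_smul,
      smul_apply]
  simp only [h3] at hb
  rw [← Finset.mul_sum, hp.nx, mul_one] at hb
  have h4 : ∑ a, ‖act G A x a‖ ^ 2 ≤ (K * s) ^ 2 := by
    have := mul_le_mul_of_nonneg_left hb (sq_nonneg s)
    rw [← mul_assoc, ← mul_pow, mul_inv_cancel₀ s0.ne', one_pow, one_mul] at this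
    exact this.trans_eq (by ring)
  have h5 := cross_cs (mul_nonneg hK0 s0.le) hp.ny h4
  rw [hG, hp.mob L, hl, Complex.conj_ofReal, ← Complex.ofReal_pow, ← Complex.ofReal_mul,
    ← Complex.ofReal_sub, ← Complex.ofReal_add, Complex.ofReal_re, hs] at h5
  linarith

end

end Pool.Agent.Lib.MP_16d611_an
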