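import Mathlib

/-! Complete Crouzeix bound and scaled q-numerical ranges: definitions. -/

set_option autoImplicit false

namespace Pool.Agent.Lib.MP_16d611_an

open Set Metric Polynomial
open scoped InnerProductSpace ComplexConjugate

noncomputable section

/-- `gam h u = u h'(u) / h(u)`, with the value `1` at `u = 0` when `h 0 = 0`. -/
def gam (h : ℂ → ℂ) (u : ℂ) : ℂ := deriv h u / dslope h 0 u

/-- Cauchy type kernel `j(v) / (z(v) - z(u))`, where `z = 1 / h`. -/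
def Pk (h : ℂ → ℂ) (v u : ℂ) : ℂ := gam h v * h u / (h u - h v)

/-- regular part of the kernel -/
def Th (h : ℂ → ℂ) (v u : ℂ) : ℂ := 2 * Pk h v u - (u + v) / (u - v)

/-- mean over the unit circle -/
abbrev av {E : Type*} [NormedAddCommGroup E] [NormedSpace ℝ E] (f : ℂ → E) : E :=
  Real.circleAverage f 0 1

/-- univalent on the disc of radius `R`, fixing `0` -/
structure Uni (h : ℂ → ℂ) (R : ℝ) : Prop where
  diff : DifferentiableOn ℂ h (ball 0 R)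
  inj : InjOn h (ball 0 R)
  zero : h 0 = 0

/-- the inverted exterior of `W` -/
def Uset (W : Set ℂ) : Set ℂ := {w | w = 0 ∨ w⁻¹ ∉ W}

/-- `1 / h (1 / ζ)` is the exterior conformal map of `W`, `g` is the inverse of `h` -/
structure Ext (W : Set ℂ) (h g : ℂ → ℂ) : Prop where
  uni : Uni h 1
  maps : MapsTo h (ball 0 1) (Uset W)
  opn : IsOpen (Uset W)
  gdiff : DifferentiableOn ℂ g (Uset W)
  gmaps : MapsTo g (Uset W) (ball 0 1)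
  left : ∀ u ∈ ball (0 : ℂ) 1, g (h u) = u
  proper : ∀ δ > 0, ∃ s < 1, ∀ u : ℂ, s ≤ ‖u‖ → ‖u‖ < 1 → (h u)⁻¹ ∈ thickening δ W

/-- a convex analytic curve `u ↦ 1 / h u`, `‖u‖ = 1`, around `W` and within `δ` of `W` -/
structure Model (W : Set ℂ) (δ : ℝ) (h : ℂ → ℂ) (R : ℝ) : Prop where
  hR : 1 < R
  uni : Uni h R
  ne : ∀ a ∈ W, ∀ u ∈ ball (0 : ℂ) R, h u * a ≠ 1
  pos1 : ∀ a ∈ W, ∀ u : ℂ, ‖u‖ = 1 → 0 ≤ (gam h u * conj (1 - h u * a)).re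
  pos2 : ∀ u v : ℂ, ‖u‖ = 1 → ‖v‖ = 1 → 0 ≤ (gam h v * h u * conj (h u - h v)).re
  near : ∀ u : ℂ, ‖u‖ = 1 → (h u)⁻¹ ∈ thickening δ W

/-- on the unit circle `Y` is a holomorphic plus an antiholomorphic function -/
def Split (R : ℝ) (Y : ℂ → ℂ) : Prop :=
  ∃ f g : ℂ → ℂ, DifferentiableOn ℂ f (ball 0 R) ∧ DifferentiableOn ℂ g (ball 0 R) ∧ g 0 = 0 ∧
    ∀ u : ℂ, ‖u‖ = 1 → Y u = f u + conj (g u)

section
variable {ι : Type} [Fintype ι] {H : Type} [NormedAddCommGroup H] [InnerProductSpace ℂ H]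

/-- the Euclidean operator norm of `F` is at most `M` -/
def Bd (F : Matrix ι ι ℂ) (M : ℝ) : Prop :=
  ∀ ξ : ι → ℂ, ∑ a, ‖∑ c, F a c * ξ c‖ ^ 2 ≤ M ^ 2 * ∑ c, ‖ξ c‖ ^ 2

/-- value of a matrix polynomial at a point -/
def evP (P : Matrix ι ι ℂ[X]) (z : ℂ) : Matrix ι ι ℂ := P.map (Polynomial.eval z)

/-- action of `P(A)` on families of vectors -/
def act (P : Matrix ι ι ℂ[X]) (A : H →L[ℂ] H) (x : ι → H) : ι → H :=
  fun a => ∑ b, Polynomial.aeval A (P a b) (x b)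

/-- the norm of `P(A)` is at most `k` -/
def BdOp (P : Matrix ι ι ℂ[X]) (A : H →L[ℂ] H) (k : ℝ) : Prop :=
  ∀ x : ι → H, ∑ a, ‖act P A x a‖ ^ 2 ≤ k ^ 2 * ∑ a, ‖x a‖ ^ 2

/-- singular pair: `P(A) x = k y`, `P(A)* y = k x`, unit vectors -/
structure SPair (P : Matrix ι ι ℂ[X]) (A : H →L[ℂ] H) (k : ℝ) (x y : ι → H) : Prop where
  nx : ∑ a, ‖x a‖ ^ 2 = 1
  ny : ∑ a, ‖y a‖ ^ 2 = 1
  fwd : ∀ a, act P A x a = (k : ℂ) • y a
  bwd : ∀ w : ι → H, ∑ a, ⟪y a, act P A w a⟫_ℂ = (k : ℂ) * ∑ a, ⟪x a, w a⟫_ℂ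

/-- numerical range -/
def numR (A : H →L[ℂ] H) : Set ℂ := {w | ∃ x : H, ‖x‖ = 1 ∧ w = ⟪x, A x⟫_ℂ}

/-- scaled `q`-numerical range -/
def omegaH (q : ℂ) (A : H →L[ℂ] H) : Set ℂ :=
  {w | ∃ x y : H, ‖x‖ = 1 ∧ ‖y‖ = 1 ∧ ⟪y, x⟫_ℂ = q ∧ w = ⟪y, A x⟫_ℂ / q}

/-- the operator kernel `j (z - A)⁻¹` -/
def Kop (h : ℂ → ℂ) (A : H →L[ℂ] H) (u : ℂ) : H →L[ℂ] H :=
  gam h u • Ring.inverse (1 - h u • A)

end

/-- the constant `c(q)` -/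
def cq (q : ℂ) : ℝ := max 1 (2 * ‖q‖ / (1 + Real.sqrt (1 - ‖q‖ ^ 2)))

end

end Pool.Agent.Lib.MP_16d611_an
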