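import Pool.Agent.Lib.MP_16d611_an.Defs
import Pool.Agent.Lib.MP_069d55_gt.RMT

/-! The exterior Riemann map of a compact convex set. -/

set_option autoImplicit false

namespace Pool.Agent.Lib.MP_16d611_an

open Set Filter Topology Metric Bornology
open Pool.Agent.Lib.MP_1e9af3_an

noncomputable section

lemma ext_open {W : Set ℂ} (hW : IsCompact W) : IsOpen (Uset W) := by
  rw [isOpen_iff_mem_nhds]
  intro u hu
  by_cases h0 : u = 0
  · obtain ⟨R, hR0, hR⟩ := hW.isBounded.subset_ball_lt 0 0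
    subst h0
    filter_upwards [ball_mem_nhds (0 : ℂ) (inv_pos.2 hR0)] with v hv
    by_cases hv0 : v = 0
    · exact Or.inl hv0
    · refine Or.inr fun hm => ?_
      have h1 := hR hm
      rw [mem_ball, dist_zero_right, norm_inv] at h1
      rw [mem_ball, dist_zero_right] at hv
      have h2 : 0 < ‖v‖ := norm_pos_iff.2 hv0
      rw [inv_lt_comm₀ h2 hR0] at h1
      linarith
  · have hu' : u⁻¹ ∉ W := hu.resolve_left h0
    filter_upwards [(continuousAt_inv₀ h0).eventually
      (hW.isClosed.isOpen_compl.mem_nhds hu')] with v hv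
    exact Or.inr hv

lemma ext_bdd {W : Set ℂ} (hz : (0 : ℂ) ∈ interior W) : IsBounded (Uset W) := by
  obtain ⟨r, hr0, hr⟩ := Metric.mem_nhds_iff.1 (mem_interior_iff_mem_nhds.1 hz)
  refine (isBounded_closedBall (x := (0 : ℂ)) (r := r⁻¹)).subset fun u hu => ?_
  rw [mem_closedBall, dist_zero_right]
  by_cases h0 : u = 0
  · rw [h0, norm_zero]; positivity
  · have hu' : u⁻¹ ∉ W := hu.resolve_left h0
    have h1 : r ≤ ‖u‖⁻¹ := by
      by_contra h2
      exact hu' (hr (by rw [mem_ball, dist_zero_right, norm_inv]; linarith))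
    rwa [le_inv_comm₀ hr0 (norm_pos_iff.2 h0)] at h1

lemma ext_sc {W : Set ℂ} (hc : Convex ℝ W) (hz : (0 : ℂ) ∈ W) : IsSimplyConnected (Uset W) := by
  have hs : StarConvex ℝ 0 (Uset W) := by
    intro u hu a b ha hb hab
    rw [smul_zero, zero_add]
    by_cases h0 : b • u = 0
    · exact Or.inl h0
    · have hb0 : b ≠ 0 := fun h => h0 (by rw [h, zero_smul])
      have hu0 : u ≠ 0 := fun h => h0 (by rw [h, smul_zero])
      refine Or.inr fun hm => hu.resolve_left hu0 ?_
      have hb' : (b : ℂ) ≠ 0 := by exact_mod_cast hb0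
      convert hc hz hm ha hb hab using 1
      simp only [Complex.real_smul]
      field_simp
      ring
  have := hs.contractibleSpace ⟨0, Or.inl rfl⟩
  exact SimplyConnectedSpace.ofContractible _

theorem exists_ext {W : Set ℂ} (hc : IsCompact W) (hv : Convex ℝ W) (h0 : (0 : ℂ) ∈ interior W) :
    ∃ h g : ℂ → ℂ, Ext W h g := by
  have hU := ext_open hc
  have h0U : (0 : ℂ) ∈ Uset W := Or.inl rfl
  obtain ⟨g, gd, gi, gim, g0⟩ :=
    MP_069d55_gt.riemann hU (ext_sc hv (interior_subset h0)) (ext_bdd h0) h0U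
  set U := Uset W with hUdef
  set f := Function.invFunOn g U with hf
  have fg : ∀ w ∈ U, f (g w) = w := fun w hw => gi.leftInvOn_invFunOn hw
  have hex : ∀ v ∈ ball (0 : ℂ) 1, ∃ w ∈ U, g w = v := fun v hv => by
    rw [← gim] at hv; exact hv
  have fU : ∀ v ∈ ball (0 : ℂ) 1, f v ∈ U := fun v hv => Function.invFunOn_mem (hex v hv)
  have gf : ∀ v ∈ ball (0 : ℂ) 1, g (f v) = v := fun v hv => Function.invFunOn_eq (hex v hv)
  have gb : ∀ w ∈ U, g w ∈ ball (0 : ℂ) 1 := fun w hw => gim ▸ ⟨w, hw, rfl⟩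
  have fd : DifferentiableOn ℂ f (ball 0 1) := fun v hv => by
    obtain ⟨w, hw, rfl⟩ := hex v hv
    exact (inv_analyticAt hU gd gi fg hw).differentiableAt.differentiableWithinAt
  have f0 : f 0 = 0 := by simpa [g0] using fg 0 h0U
  have fi : InjOn f (ball 0 1) := fun a ha b hb hab => by rw [← gf a ha, ← gf b hb, hab]
  refine ⟨f, g, ⟨fd, fi, f0⟩, fU, hU, gd, gb, gf, fun ε hε => ?_⟩
  have hWe : W ⊆ thickening ε W := self_subset_thickening hε W
  have hKU : Uset (thickening ε W) ⊆ U := fun u hu => hu.imp id fun h1 h2 => h1 (hWe h2)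
  have hKc : IsClosed (Uset (thickening ε W)) := by
    rw [← isOpen_compl_iff, isOpen_iff_mem_nhds]
    intro u hu
    have h1 : u ≠ 0 := fun h => hu (Or.inl h)
    have h2 : u⁻¹ ∈ thickening ε W := by
      by_contra h; exact hu (Or.inr h)
    filter_upwards [(continuousAt_inv₀ h1).eventually (isOpen_thickening.mem_nhds h2),
      isOpen_ne.mem_nhds h1] with v hv hv0
    rintro (h | h)
    · exact hv0 h
    · exact h hv
  have hKk : IsCompact (Uset (thickening ε W)) :=
    isCompact_of_isClosed_isBounded hKc ((ext_bdd h0).subset hKU)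
  obtain ⟨u₀, hu₀, hmax⟩ := hKk.exists_isMaxOn ⟨0, Or.inl rfl⟩
    (gd.continuousOn.mono hKU).norm
  have hm : ‖g u₀‖ < 1 := by simpa using gb u₀ (hKU hu₀)
  refine ⟨(‖g u₀‖ + 1) / 2, by linarith, fun u h1 h2 => ?_⟩
  by_contra h3
  have h4 : ‖g (f u)‖ ≤ ‖g u₀‖ := hmax (Or.inr h3)
  rw [gf u (by simpa using h2)] at h4
  linarith

end

end Pool.Agent.Lib.MP_16d611_an
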