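import Pool.Agent.Lib.MP_16d611_an.Defs
import Pool.Agent.Lib.MP_16d611_an.B12

/-! Maximum principle on discs, and values `⟪v, A u⟫` for pairs with `⟪v, u⟫ = 1`. -/

set_option autoImplicit false

namespace Pool.Agent.Lib.MP_16d611_an

open Set Metric Polynomial
open scoped InnerProductSpace ComplexConjugate

noncomputable section

section
variable {ι : Type} [Fintype ι] [DecidableEq ι] {H : Type} [NormedAddCommGroup H]
  [InnerProductSpace ℂ H] [FiniteDimensional ℂ H]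

/-- the vector valued polynomial `z ↦ P(z) ξ` -/
def kantF (P : Matrix ι ι ℂ[X]) (ξ : ι → ℂ) (z : ℂ) : EuclideanSpace ℂ ι :=
  WithLp.toLp 2 fun a => ∑ c, evP P z a c * ξ c

omit [DecidableEq ι] in
lemma kantF_diff (P : Matrix ι ι ℂ[X]) (ξ : ι → ℂ) : Differentiable ℂ (kantF P ξ) := by
  refine differentiable_euclidean.2 fun a => ?_
  change Differentiable ℂ fun z => ∑ c, (P a c).eval z * ξ c
  exact Differentiable.fun_sum fun c _ => (P a c).differentiable.mul_const _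

omit [DecidableEq ι] in
lemma kantF_iff (P : Matrix ι ι ℂ[X]) (ξ : ι → ℂ) (z : ℂ) (C : ℝ) :
    ‖kantF P ξ z‖ ≤ √(C ^ 2 * ∑ c, ‖ξ c‖ ^ 2) ↔
      ∑ a, ‖∑ c, evP P z a c * ξ c‖ ^ 2 ≤ C ^ 2 * ∑ c, ‖ξ c‖ ^ 2 := by
  rw [Real.le_sqrt (norm_nonneg _) (by positivity), EuclideanSpace.norm_sq_eq]
  rfl

omit [DecidableEq ι] in
theorem Bd.disc {P : Matrix ι ι ℂ[X]} {C : ℝ} {c : ℂ} {r : ℝ}
    (hP : ∀ z ∈ sphere c r, Bd (evP P z) C) {z : ℂ} (hz : z ∈ closedBall c r) :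
    Bd (evP P z) C := by
  have hr : 0 ≤ r := dist_nonneg.trans (mem_closedBall.1 hz)
  rcases hr.eq_or_lt with h0 | h0
  · exact hP z (le_antisymm (mem_closedBall.1 hz) (h0 ▸ dist_nonneg))
  intro ξ
  rw [← kantF_iff]
  refine Complex.norm_le_of_forall_mem_frontier_norm_le (U := ball c r) isBounded_ball
    (kantF_diff P ξ).diffContOnCl (fun w hw => ?_) ?_
  · rw [frontier_ball c h0.ne'] at hw
    exact (kantF_iff P ξ w C).2 (hP w hw ξ)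
  · rwa [closure_ball c h0.ne']

omit [DecidableEq ι] in
/-- if `⟪v, u⟫ = 1` and `‖u‖ ‖v‖ ≤ 1 / ‖q‖` then `⟪v, A u⟫` lies in a disc bounded by a circle in
`omegaH q A` -/
theorem bd_of_pair {q : ℂ} (hq0 : q ≠ 0) (hq1 : ‖q‖ ≤ 1)
    (hn : 2 ≤ Module.finrank ℂ H ∨ ‖q‖ = 1) (A : H →L[ℂ] H) {P : Matrix ι ι ℂ[X]} {C : ℝ}
    (hP : ∀ z ∈ omegaH q A, Bd (evP P z) C) {u v : H} (huv : ⟪v, u⟫_ℂ = 1)
    (hle : ‖q‖ * (‖u‖ * ‖v‖) ≤ 1) : Bd (evP P ⟪v, A u⟫_ℂ) C := by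
  intro ξ
  rw [← kantF_iff]
  refine B12.pair_bound A hq0 hq1 (hn.imp (fun h => B12.exists_orth h) id) (kantF P ξ)
    (kantF_diff P ξ) (fun x y hx hy hxy => ?_) u v huv ?_
  · exact (kantF_iff P ξ _ C).2 (hP _ ⟨x, y, hx, hy, hxy, rfl⟩ ξ)
  · rw [le_div_iff₀ (norm_pos_iff.2 hq0), mul_comm]; exact hle

end

end

end Pool.Agent.Lib.MP_16d611_an
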