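import Pool.Agent.Lib.MP_16d611_an.Basic

/-! Orthogonality on the unit circle and splitting of meromorphic boundary functions. -/

set_option autoImplicit false

namespace Pool.Agent.Lib.MP_16d611_an

open Set Metric Polynomial
open scoped InnerProductSpace ComplexConjugate

noncomputable section

variable {R : ℝ} {h : ℂ → ℂ}

lemma orth_int {E : Type*} [NormedAddCommGroup E] {f : ℂ → E} (hf : ContinuousOn f (sphere 0 1)) :
    CircleIntegrable f 0 1 := by
  apply ContinuousOn.circleIntegrable zero_le_one hf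

lemma orth_cont (hR : 1 < R) {f : ℂ → ℂ} (hf : DifferentiableOn ℂ f (ball 0 R)) :
    ContinuousOn f (sphere 0 1) :=
  hf.continuousOn.mono (sphere_subset_closedBall.trans (closedBall_subset_ball hR))

theorem av_orth (hR : 1 < R) {f g : ℂ → ℂ} (hf : DifferentiableOn ℂ f (ball 0 R))
    (hg : DifferentiableOn ℂ g (ball 0 R)) :
    av (fun u => ‖f u + conj (g u)‖ ^ 2) =
      av (fun u => ‖f u‖ ^ 2) + av (fun u => ‖g u‖ ^ 2) + 2 * (f 0 * g 0).re := by
  have cf := orth_cont hR hf
  have cg := orth_cont hR hg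
  have i1 : CircleIntegrable (fun u => ‖f u‖ ^ 2) 0 1 := orth_int (cf.norm.pow 2)
  have i2 : CircleIntegrable (fun u => ‖g u‖ ^ 2) 0 1 := orth_int (cg.norm.pow 2)
  have i3 : CircleIntegrable (fun u => f u * g u) 0 1 := orth_int (cf.mul cg)
  have i4 : CircleIntegrable (fun u => 2 * (f u * g u).re) 0 1 :=
    orth_int (continuousOn_const.mul (Complex.continuous_re.comp_continuousOn (cf.mul cg)))
  have e1 : (fun u => ‖f u + conj (g u)‖ ^ 2) =
      fun u => (‖f u‖ ^ 2 + ‖g u‖ ^ 2) + 2 * (f u * g u).re := by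
    funext u
    simp only [Complex.sq_norm, Complex.normSq_apply, Complex.add_re, Complex.add_im,
      Complex.conj_re, Complex.conj_im, Complex.mul_re]
    ring
  have e2 : av (fun u => 2 * (f u * g u).re) = 2 * (f 0 * g 0).re := by
    have h1 := Complex.reCLM.circleAverage_comp_comm i3
    have h2 : av (fun u => f u * g u) = f 0 * g 0 := av_hol hR (hf.mul hg)
    have h3 : av (fun u => 2 * (f u * g u).re) = (2 : ℝ) • av (fun u => (f u * g u).re) :=
      Real.circleAverage_fun_smul (a := (2 : ℝ)) (f := fun u => (f u * g u).re)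
    rw [h3, smul_eq_mul]
    congr 1
    rw [← h2]
    exact h1
  rw [e1]
  unfold av at *
  have i5 : CircleIntegrable (fun u => ‖f u‖ ^ 2 + ‖g u‖ ^ 2) 0 1 := i1.add i2
  rw [Real.circleAverage_fun_add i5 i4, Real.circleAverage_fun_add i1 i2, e2]

lemma Split.add {Y Z : ℂ → ℂ} (hY : Split R Y) (hZ : Split R Z) : Split R (fun u => Y u + Z u) := by
  obtain ⟨f, g, hf, hg, g0, e⟩ := hY
  obtain ⟨f', g', hf', hg', g0', e'⟩ := hZ
  refine ⟨fun u => f u + f' u, fun u => g u + g' u, hf.add hf', hg.add hg', by simp [g0, g0'],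
    fun u hu => ?_⟩
  simp only [e u hu, e' u hu, map_add]; ring

lemma Split.congr {Y Z : ℂ → ℂ} (hY : Split R Y) (e : ∀ u : ℂ, ‖u‖ = 1 → Z u = Y u) :
    Split R Z := by
  obtain ⟨f, g, hf, hg, g0, e'⟩ := hY
  exact ⟨f, g, hf, hg, g0, fun u hu => (e u hu).trans (e' u hu)⟩

lemma Split.hol {f : ℂ → ℂ} (hf : DifferentiableOn ℂ f (ball 0 R)) : Split R f :=
  ⟨f, fun _ => 0, hf, differentiableOn_const _, rfl, fun u _ => by simp⟩

theorem Split.sum {κ : Type} (s : Finset κ) {Y : κ → ℂ → ℂ} (hY : ∀ c ∈ s, Split R (Y c)) :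
    Split R (fun u => ∑ c ∈ s, Y c u) := by
  classical
  induction s using Finset.induction_on with
  | empty => exact (Split.hol (differentiableOn_const 0)).congr fun u _ => by simp
  | insert a s ha ih =>
    exact ((hY a (Finset.mem_insert_self a s)).add
      (ih fun c hc => hY c (Finset.mem_insert_of_mem hc))).congr fun u _ => by
        rw [Finset.sum_insert ha]

lemma split_inv_pow (hR : 1 < R) (l : ℕ) : ∀ {φ : ℂ → ℂ}, DifferentiableOn ℂ φ (ball 0 R) →
    Split R (fun u => u⁻¹ ^ l * φ u) := by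
  induction l with
  | zero => intro φ hφ; exact (Split.hol hφ).congr fun u _ => by simp
  | succ l ih =>
    intro φ hφ
    have h0 : (0 : ℂ) ∈ ball (0 : ℂ) R := mem_ball_self (by linarith)
    have hd : DifferentiableOn ℂ (dslope φ 0) (ball 0 R) :=
      (Complex.differentiableOn_dslope (isOpen_ball.mem_nhds h0)).2 hφ
    have h1 : Split R (fun u => u⁻¹ ^ (l + 1) * φ 0) :=
      ⟨fun _ => 0, fun u => u ^ (l + 1) * conj (φ 0), differentiableOn_const _,
        by fun_prop, by simp, fun u hu => by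
          simp only [Complex.inv_eq_conj hu]; simp⟩
    refine (h1.add (ih hd)).congr fun u hu => ?_
    have hu0 : u ≠ 0 := by rintro rfl; simp at hu
    have := sub_smul_dslope φ 0 u
    rw [sub_zero, smul_eq_mul] at this
    have e : φ u = φ 0 + u * dslope φ 0 u := by rw [this]; ring
    have e1 : u⁻¹ * u = 1 := inv_mul_cancel₀ hu0
    rw [e]; linear_combination (u⁻¹ ^ l * dslope φ 0 u) * e1

theorem Uni.split (U : Uni h R) (hR : 1 < R) {φ : ℂ → ℂ} (hφ : DifferentiableOn ℂ φ (ball 0 R))
    (p : ℂ[X]) : Split R (fun u => p.eval (h u)⁻¹ * φ u) := by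
  have h0 : (0 : ℂ) ∈ ball (0 : ℂ) R := mem_ball_self (by linarith)
  induction p using Polynomial.induction_on' with
  | add p q hp hq => exact (hp.add hq).congr fun u _ => by rw [eval_add, add_mul]
  | monomial l a =>
    have hd : DifferentiableOn ℂ (fun u => a * (dslope h 0 u)⁻¹ ^ l * φ u) (ball 0 R) :=
      ((((U.dslope_diff h0).inv fun u hu => U.dslope_ne hu h0).pow l).const_mul a).mul hφ
    refine (split_inv_pow hR l hd).congr fun u _ => ?_
    rw [eval_monomial]
    conv_lhs => rw [U.h_eq u]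
    rw [mul_inv, mul_pow]; ring

end

end Pool.Agent.Lib.MP_16d611_an
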