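import Pool.Agent.Lib.MP_16d611_an.Defs

/-! Schur test on the unit circle: a doubly stochastic kernel contracts the mean square. -/

set_option autoImplicit false

namespace Pool.Agent.Lib.MP_16d611_an

open Set Metric Polynomial
open scoped InnerProductSpace ComplexConjugate

noncomputable section

/-- weighted Cauchy-Schwarz inequality on an interval -/
lemma schur_cs {L : ℝ} (hL : 0 < L) {P : ℝ → ℝ} {Y : ℝ → ℂ} (hP : Continuous P)
    (hY : Continuous Y) (h0 : ∀ t, 0 ≤ P t) (h1 : ∫ t in (0 : ℝ)..L, P t = L) :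
    ‖∫ t in (0 : ℝ)..L, (P t : ℂ) * Y t‖ ^ 2 ≤ L * ∫ t in (0 : ℝ)..L, P t * ‖Y t‖ ^ 2 := by
  set m : ℝ := ∫ t in (0 : ℝ)..L, P t * ‖Y t‖ with hm
  have hle : ‖∫ t in (0 : ℝ)..L, (P t : ℂ) * Y t‖ ≤ m := by
    refine (intervalIntegral.norm_integral_le_integral_norm hL.le).trans (le_of_eq ?_)
    refine intervalIntegral.integral_congr fun t _ => ?_
    simp only [norm_mul, Complex.norm_real, Real.norm_eq_abs, abs_of_nonneg (h0 t)]
  have c1 : Continuous fun t => P t * ‖Y t‖ := hP.mul hY.norm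
  have c2 : Continuous fun t => P t * ‖Y t‖ ^ 2 := hP.mul (hY.norm.pow 2)
  have hq : 0 ≤ ∫ t in (0 : ℝ)..L, P t * (L * ‖Y t‖ - m) ^ 2 :=
    intervalIntegral.integral_nonneg hL.le fun t _ => mul_nonneg (h0 t) (sq_nonneg _)
  have he : ∫ t in (0 : ℝ)..L, P t * (L * ‖Y t‖ - m) ^ 2 =
      L ^ 2 * (∫ t in (0 : ℝ)..L, P t * ‖Y t‖ ^ 2) - 2 * L * m * m + m ^ 2 * L := by
    have e : ∀ t, P t * (L * ‖Y t‖ - m) ^ 2 =
        L ^ 2 * (P t * ‖Y t‖ ^ 2) - 2 * L * m * (P t * ‖Y t‖) + m ^ 2 * P t := fun t => by ring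
    simp_rw [e]
    rw [intervalIntegral.integral_add, intervalIntegral.integral_sub,
      intervalIntegral.integral_const_mul, intervalIntegral.integral_const_mul,
      intervalIntegral.integral_const_mul, h1]
    · exact (continuous_const.mul c2).intervalIntegrable _ _
    · exact (continuous_const.mul c1).intervalIntegrable _ _
    · exact ((continuous_const.mul c2).sub (continuous_const.mul c1)).intervalIntegrable _ _
    · exact (continuous_const.mul hP).intervalIntegrable _ _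
  have hm2 : m ^ 2 ≤ L * ∫ t in (0 : ℝ)..L, P t * ‖Y t‖ ^ 2 := by
    rw [he] at hq
    refine le_of_mul_le_mul_left ?_ hL
    nlinarith
  exact (pow_le_pow_left₀ (norm_nonneg _) hle 2).trans hm2

/-- Schur test on an interval -/
lemma schur_line {L : ℝ} (hL : 0 < L) {P : ℝ → ℝ → ℝ} {Y : ℝ → ℂ}
    (hP : Continuous (Function.uncurry P)) (hY : Continuous Y) (h0 : ∀ s t, 0 ≤ P s t)
    (h1 : ∀ s, ∫ t in (0 : ℝ)..L, P s t = L) (h2 : ∀ t, ∫ s in (0 : ℝ)..L, P s t = L) :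
    ∫ s in (0 : ℝ)..L, ‖∫ t in (0 : ℝ)..L, (P s t : ℂ) * Y t‖ ^ 2 ≤
      L ^ 2 * ∫ t in (0 : ℝ)..L, ‖Y t‖ ^ 2 := by
  have cA : Continuous (Function.uncurry fun s t => (P s t : ℂ) * Y t) :=
    (Complex.continuous_ofReal.comp hP).mul (hY.comp continuous_snd)
  have cB : Continuous (Function.uncurry fun s t => P s t * ‖Y t‖ ^ 2) :=
    hP.mul ((hY.comp continuous_snd).norm.pow 2)
  have iA := intervalIntegral.continuous_parametric_intervalIntegral_of_continuous'
    (μ := MeasureTheory.volume) cA 0 L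
  have iB := intervalIntegral.continuous_parametric_intervalIntegral_of_continuous'
    (μ := MeasureTheory.volume) cB 0 L
  have step1 : ∫ s in (0 : ℝ)..L, ‖∫ t in (0 : ℝ)..L, (P s t : ℂ) * Y t‖ ^ 2 ≤
      ∫ s in (0 : ℝ)..L, L * ∫ t in (0 : ℝ)..L, P s t * ‖Y t‖ ^ 2 := by
    refine intervalIntegral.integral_mono_on hL.le
      ((iA.norm.pow 2).intervalIntegrable _ _)
      ((continuous_const.mul iB).intervalIntegrable _ _) fun s _ => ?_
    exact schur_cs hL (hP.comp (Continuous.prodMk_right s)) hY (h0 s) (h1 s)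
  have hint : MeasureTheory.IntegrableOn (Function.uncurry fun s t => P s t * ‖Y t‖ ^ 2)
      (uIoc 0 L ×ˢ uIoc 0 L) := by
    refine (cB.continuousOn.integrableOn_compact
      (isCompact_uIcc.prod isCompact_uIcc : IsCompact (uIcc (0 : ℝ) L ×ˢ uIcc (0 : ℝ) L))).mono_set ?_
    exact prod_mono uIoc_subset_uIcc uIoc_subset_uIcc
  have step2 : ∫ s in (0 : ℝ)..L, ∫ t in (0 : ℝ)..L, P s t * ‖Y t‖ ^ 2 =
      L * ∫ t in (0 : ℝ)..L, ‖Y t‖ ^ 2 := by
    rw [MeasureTheory.intervalIntegral_intervalIntegral_swap hint,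
      ← intervalIntegral.integral_const_mul]
    refine intervalIntegral.integral_congr fun t _ => ?_
    rw [intervalIntegral.integral_mul_const, h2 t]
  rw [intervalIntegral.integral_const_mul, step2] at step1
  calc _ ≤ _ := step1
    _ = _ := by ring

theorem schur_test {p : ℂ → ℂ → ℝ} {y : ℂ → ℂ}
    (hp : ContinuousOn (fun x : ℂ × ℂ => p x.1 x.2) (sphere 0 1 ×ˢ sphere 0 1))
    (h0 : ∀ v u : ℂ, ‖v‖ = 1 → ‖u‖ = 1 → 0 ≤ p v u)
    (h1 : ∀ v : ℂ, ‖v‖ = 1 → av (fun u => p v u) = 1)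
    (h2 : ∀ u : ℂ, ‖u‖ = 1 → av (fun v => p v u) = 1)
    (hy : ContinuousOn y (sphere 0 1)) :
    av (fun v => ‖av (fun u => (p v u : ℂ) * y u)‖ ^ 2) ≤ av (fun u => ‖y u‖ ^ 2) := by
  have hL : (0 : ℝ) < 2 * Real.pi := by positivity
  have hn : ∀ t : ℝ, ‖circleMap 0 1 t‖ = 1 := fun t => by simp
  have hs : ∀ t : ℝ, circleMap 0 1 t ∈ sphere (0 : ℂ) 1 := fun t =>
    mem_sphere_zero_iff_norm.2 (hn t)
  have hc : Continuous (circleMap 0 1) := continuous_circleMap 0 1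
  have cP : Continuous (Function.uncurry fun s t : ℝ => p (circleMap 0 1 s) (circleMap 0 1 t)) :=
    hp.comp_continuous (f := fun x : ℝ × ℝ => (circleMap 0 1 x.1, circleMap 0 1 x.2))
      ((hc.comp continuous_fst).prodMk (hc.comp continuous_snd)) fun x => ⟨hs _, hs _⟩
  have cY : Continuous fun t : ℝ => y (circleMap 0 1 t) := hy.comp_continuous hc hs
  have norm1 : ∀ x : ℝ, (2 * Real.pi)⁻¹ • x = 1 → x = 2 * Real.pi := fun x hx => by
    rw [smul_eq_mul, inv_mul_eq_one₀ hL.ne'] at hx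
    exact hx.symm
  have key := schur_line hL cP cY (fun s t => h0 _ _ (hn s) (hn t))
    (fun s => norm1 _ (h1 _ (hn s))) (fun t => norm1 _ (h2 _ (hn t)))
  simp only [av, Real.circleAverage_def, norm_smul, mul_pow, smul_eq_mul]
  rw [intervalIntegral.integral_const_mul, Real.norm_eq_abs, abs_of_pos (inv_pos.2 hL)]
  refine mul_le_mul_of_nonneg_left ?_ (inv_pos.2 hL).le
  rw [inv_pow, inv_mul_le_iff₀ (pow_pos hL 2)]
  exact key

end

end Pool.Agent.Lib.MP_16d611_an
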