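import Pool.Agent.Lib.MP_16d611_an.Theta
import Pool.Agent.Lib.MP_16d611_an.Cauchy
import Pool.Agent.Lib.MP_16d611_an.Schur
import Pool.Agent.Lib.MP_16d611_an.Orth

/-! Lemma L: the Cauchy type transform is bounded in the mean square sense. -/

set_option autoImplicit false

namespace Pool.Agent.Lib.MP_16d611_an

open Set Metric Polynomial
open scoped InnerProductSpace ComplexConjugate

noncomputable section

variable {W : Set ℂ} {δ R : ℝ} {h : ℂ → ℂ}

lemma leml_sub (hR : 1 < R) : sphere (0 : ℂ) 1 ⊆ ball 0 R := sphere_subset_ball hR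

lemma leml_int {E : Type} [NormedAddCommGroup E] [NormedSpace ℝ E] {f : ℂ → E}
    (hf : ContinuousOn f (sphere 0 1)) : CircleIntegrable f 0 1 :=
  hf.circleIntegrable zero_le_one

lemma leml_congr {E : Type} [NormedAddCommGroup E] [NormedSpace ℝ E] {f g : ℂ → E}
    (e : ∀ u : ℂ, ‖u‖ = 1 → f u = g u) : av f = av g :=
  Real.circleAverage_congr_sphere fun u hu => e u (by simpa using hu)

lemma leml_conj {f : ℂ → ℂ} (hf : ContinuousOn f (sphere 0 1)) :
    av (fun u => conj (f u)) = conj (av f) :=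
  (Complex.conjCLE : ℂ →L[ℝ] ℂ).circleAverage_comp_comm (leml_int hf)

lemma leml_re {f : ℂ → ℂ} (hf : ContinuousOn f (sphere 0 1)) :
    av (fun u => (f u).re) = (av f).re :=
  Complex.reCLM.circleAverage_comp_comm (leml_int hf)

lemma leml_mul (c : ℂ) (f : ℂ → ℂ) : av (fun u => c * f u) = c * av f :=
  Real.circleAverage_fun_smul (a := c) (f := f)

lemma leml_add {f g : ℂ → ℂ} (hf : ContinuousOn f (sphere 0 1)) (hg : ContinuousOn g (sphere 0 1)) :
    av (fun u => f u + g u) = av f + av g :=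
  Real.circleAverage_fun_add (leml_int hf) (leml_int hg)

lemma leml_ne {u v : ℂ} (hu : ‖u‖ = 1) (hv : ‖v‖ < 1) : u ≠ v := fun e => by
  rw [e] at hu; exact hv.ne hu

/-- the antiholomorphic part is mapped by the real kernel -/
lemma leml_anti (U : Uni h R) (hR : 1 < R) {g : ℂ → ℂ} (hg : DifferentiableOn ℂ g (ball 0 R))
    (g0 : g 0 = 0) {v : ℂ} (hv : ‖v‖ < 1) :
    av (fun u => Pk h v u * conj (g u)) = av (fun u => ((Th h v u).re : ℂ) * conj (g u)) := by
  obtain ⟨f, hf, f0, fe⟩ := U.th_u (mem_ball_zero_iff.2 (hv.trans hR))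
  have fc : ContinuousOn f (sphere 0 1) := hf.continuousOn.mono (leml_sub hR)
  have gc : ContinuousOn g (sphere 0 1) := hg.continuousOn.mono (leml_sub hR)
  have gc' : ContinuousOn (fun u => conj (g u)) (sphere 0 1) :=
    Complex.continuous_conj.comp_continuousOn gc
  have fe' : ∀ u : ℂ, ‖u‖ = 1 → f u = Th h v u := fun u hu =>
    fe u (mem_ball_zero_iff.2 (hu.trans_lt hR)) (leml_ne hu hv)
  have sc : ContinuousOn (fun u : ℂ => (u + v) / (u - v) * conj (g u)) (sphere 0 1) := by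
    refine ContinuousOn.mul (ContinuousOn.div (by fun_prop) (by fun_prop) fun u hu => ?_) gc'
    exact sub_ne_zero.2 (leml_ne (by simpa using hu) hv)
  have e1 : av (fun u => Pk h v u * conj (g u)) =
      av (fun u => 2⁻¹ * (f u * conj (g u) + (u + v) / (u - v) * conj (g u))) :=
    leml_congr fun u hu => by rw [fe' u hu, Th]; ring
  have e2 : av (fun u => ((Th h v u).re : ℂ) * conj (g u)) =
      av (fun u => 2⁻¹ * (f u * conj (g u) + conj (f u * g u))) :=
    leml_congr fun u hu => by rw [← fe' u hu, Complex.re_eq_add_conj, map_mul]; ring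
  have e3 : av (fun u => conj (f u * g u)) = 0 := by
    rw [leml_conj (fc.fun_mul gc), av_hol hR (hf.fun_mul hg)]
    simp [g0]
  have c1 : ContinuousOn (fun u => conj (f u * g u)) (sphere 0 1) :=
    Complex.continuous_conj.comp_continuousOn (fc.mul gc)
  rw [e1, e2, leml_mul, leml_mul, leml_add (fc.fun_mul gc') sc, leml_add (fc.fun_mul gc') c1]
  have e4 := av_schwarz_conj hR hg hv
  rw [g0, map_zero] at e4
  exact congrArg (fun t => 2⁻¹ * (av (fun u => f u * conj (g u)) + t)) (e4.trans e3.symm)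

lemma leml_cont (U : Uni h R) (hR : 1 < R) {ρ : ℝ} (h0 : 0 ≤ ρ) (h1 : ρ < 1) :
    ContinuousOn (fun x : ℂ × ℂ => (Th h (ρ * x.1) x.2).re) (sphere 0 1 ×ˢ sphere 0 1) := by
  have n1 : ∀ x ∈ sphere (0 : ℂ) 1 ×ˢ sphere (0 : ℂ) 1, ‖(ρ : ℂ) * x.1‖ < 1 := fun x hx => by
    have : ‖x.1‖ = 1 := by simpa using hx.1
    rw [norm_mul, this, Complex.norm_real, Real.norm_of_nonneg h0]; linarith
  have n2 : ∀ x ∈ sphere (0 : ℂ) 1 ×ˢ sphere (0 : ℂ) 1, ‖x.2‖ = 1 := fun x hx => by
    simpa using hx.2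
  have m1 : MapsTo (fun x : ℂ × ℂ => (ρ : ℂ) * x.1) (sphere 0 1 ×ˢ sphere 0 1) (ball 0 R) :=
    fun x hx => mem_ball_zero_iff.2 ((n1 x hx).trans hR)
  have m2 : MapsTo (fun x : ℂ × ℂ => x.2) (sphere 0 1 ×ˢ sphere 0 1) (ball 0 R) :=
    fun x hx => mem_ball_zero_iff.2 ((n2 x hx).trans_lt hR)
  have c1 : ContinuousOn (fun x : ℂ × ℂ => h (ρ * x.1)) (sphere 0 1 ×ˢ sphere 0 1) :=
    U.diff.continuousOn.comp (by fun_prop) m1
  have c2 : ContinuousOn (fun x : ℂ × ℂ => h x.2) (sphere 0 1 ×ˢ sphere 0 1) :=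
    U.diff.continuousOn.comp (by fun_prop) m2
  have c3 : ContinuousOn (fun x : ℂ × ℂ => gam h (ρ * x.1)) (sphere 0 1 ×ˢ sphere 0 1) :=
    (U.gam_diff (zero_lt_one.trans hR)).continuousOn.comp (by fun_prop) m1
  refine Complex.continuous_re.comp_continuousOn ?_
  unfold Th Pk
  refine (continuousOn_const.mul ((c3.mul c2).div (c2.sub c1) fun x hx => ?_)).sub
    (ContinuousOn.div (by fun_prop) (by fun_prop) fun x hx => ?_)
  · exact sub_ne_zero.2 fun e => leml_ne (n2 x hx) (n1 x hx) (U.inj (m2 hx) (m1 hx) e)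
  · exact sub_ne_zero.2 (leml_ne (n2 x hx) (n1 x hx))

lemma leml_rho (M : Model W δ h R) {g n : ℂ → ℂ} (hg : DifferentiableOn ℂ g (ball 0 R))
    (hn : ∀ v : ℂ, ‖v‖ < 1 → n v = av (fun u => ((Th h v u).re : ℂ) * conj (g u)))
    {ρ : ℝ} (h0 : 0 ≤ ρ) (h1 : ρ < 1) :
    Real.circleAverage (fun v => ‖n v‖ ^ 2) 0 ρ ≤ av (fun u => ‖g u‖ ^ 2) := by
  have hR := M.hR
  have n1 : ∀ v : ℂ, ‖v‖ = 1 → ‖(ρ : ℂ) * v‖ < 1 := fun v hv => by
    rw [norm_mul, hv, Complex.norm_real, Real.norm_of_nonneg h0]; linarith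
  have gc : ContinuousOn (fun u => conj (g u)) (sphere 0 1) :=
    Complex.continuous_conj.comp_continuousOn (hg.continuousOn.mono (leml_sub hR))
  have key := schur_test (p := fun v u => (Th h (ρ * v) u).re) (y := fun u => conj (g u))
    (leml_cont M.uni hR h0 h1) (fun v u hv hu => M.th_pos hu (n1 v hv))
    (fun v hv => by
      obtain ⟨f, hf, f0, fe⟩ := M.uni.th_u (mem_ball_zero_iff.2 ((n1 v hv).trans hR))
      rw [leml_congr (g := fun u => (f u).re) fun u hu => by
        rw [fe u (mem_ball_zero_iff.2 (hu.trans_lt hR)) (leml_ne hu (n1 v hv))],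
        leml_re (hf.continuousOn.mono (leml_sub hR)), av_hol hR hf, f0, Complex.one_re])
    (fun u hu => by
      obtain ⟨f, hf, f0, fe⟩ := M.uni.th_v (mem_ball_zero_iff.2 (hu.trans_lt hR))
      have hf' : DifferentiableOn ℂ (fun v => f (ρ * v)) (ball 0 R) := by
        refine hf.comp (by fun_prop) fun v hv => ?_
        rw [mem_ball_zero_iff] at hv ⊢
        rw [norm_mul, Complex.norm_real, Real.norm_of_nonneg h0]
        nlinarith [norm_nonneg v]
      rw [leml_congr (g := fun v => (f (ρ * v)).re) fun v hv => by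
        rw [fe _ (mem_ball_zero_iff.2 ((n1 v hv).trans hR)) (leml_ne hu (n1 v hv)).symm],
        leml_re (hf'.continuousOn.mono (leml_sub hR)), av_hol hR hf', mul_zero, f0,
        Complex.one_re])
    gc
  rw [Real.circleAverage_eq_circleAverage_zero_one]
  simp only [Complex.norm_conj] at key
  refine le_of_eq_of_le (leml_congr fun v hv => ?_) key
  rw [add_zero, hn _ (n1 v hv)]

lemma leml_lim (hR : 1 < R) {n : ℂ → ℂ} (hn : DifferentiableOn ℂ n (ball 0 R)) {c : ℝ}
    (hc : ∀ ρ : ℝ, 0 ≤ ρ → ρ < 1 → Real.circleAverage (fun v => ‖n v‖ ^ 2) 0 ρ ≤ c) :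
    av (fun v => ‖n v‖ ^ 2) ≤ c := by
  have h1 : ContinuousOn (Real.circleAverage (fun v => ‖n v‖ ^ 2) 0) (Icc 0 1) := by
    refine Real.ContinuousOn.circleAverage ?_ fun r hr => hr.1
    refine (hn.continuousOn.mono fun z hz => ?_).norm.pow 2
    have : ‖z - 0‖ ≤ 1 := hz.2
    rw [sub_zero] at this
    exact mem_ball_zero_iff.2 (this.trans_lt hR)
  have h2 : closure (Ico (0 : ℝ) 1) = Icc 0 1 := closure_Ico zero_ne_one
  exact le_on_closure (s := Ico (0 : ℝ) 1) (g := fun _ => c) (fun ρ hρ => hc ρ hρ.1 hρ.2)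
    (h2 ▸ h1) continuousOn_const (h2 ▸ right_mem_Icc.2 zero_le_one)

lemma leml_mean (hR : 1 < R) {φ : ℂ → ℂ} (hφ : DifferentiableOn ℂ φ (ball 0 R)) :
    ‖φ 0‖ ^ 2 ≤ av (fun u => ‖φ u‖ ^ 2) := by
  have e := av_orth hR hφ (g := fun _ => -conj (φ 0)) (differentiableOn_const _)
  have p : 0 ≤ av (fun u => ‖φ u + conj (-conj (φ 0))‖ ^ 2) :=
    Real.circleAverage_nonneg_of_nonneg fun _ _ => by positivity
  rw [e, av, av, Real.circleAverage_const, norm_neg, Complex.norm_conj, mul_neg, Complex.mul_conj,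
    Complex.neg_re, Complex.ofReal_re, Complex.normSq_eq_norm_sq] at p
  linarith

theorem Model.lemL (M : Model W δ h R) {Y S : ℂ → ℂ} (hY : Split R Y)
    (hS : DifferentiableOn ℂ S (ball 0 R))
    (hrep : ∀ v : ℂ, ‖v‖ < 1 → S v = av (fun u => Pk h v u * Y u)) :
    av (fun u => ‖S u‖ ^ 2) + ‖S 0‖ ^ 2 ≤ 2 * av (fun u => ‖Y u‖ ^ 2) := by
  obtain ⟨f, g, hf, hg, g0, hYe⟩ := hY
  have hR := M.hR
  have U := M.uni
  have fc : ContinuousOn f (sphere 0 1) := hf.continuousOn.mono (leml_sub hR)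
  have gc : ContinuousOn (fun u => conj (g u)) (sphere 0 1) :=
    Complex.continuous_conj.comp_continuousOn (hg.continuousOn.mono (leml_sub hR))
  have Sc : ContinuousOn S (sphere 0 1) := hS.continuousOn.mono (leml_sub hR)
  have hn : ∀ v : ℂ, ‖v‖ < 1 →
      S v - f v = av (fun u => ((Th h v u).re : ℂ) * conj (g u)) := fun v hv => by
    have hvR : v ∈ ball (0 : ℂ) R := mem_ball_zero_iff.2 (hv.trans hR)
    have hc : ContinuousOn h (sphere 0 1) := U.diff.continuousOn.mono (leml_sub hR)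
    have pc : ContinuousOn (fun u => Pk h v u) (sphere 0 1) := by
      unfold Pk
      refine (continuousOn_const.mul hc).div (hc.sub continuousOn_const) fun u hu => ?_
      exact sub_ne_zero.2 fun e =>
        leml_ne (by simpa using hu) hv (U.inj (leml_sub hR hu) hvR e)
    rw [hrep v hv, leml_congr (g := fun u => Pk h v u * f u + Pk h v u * conj (g u))
      fun u hu => by rw [hYe u hu, mul_add],
      leml_add (pc.fun_mul fc) (pc.fun_mul gc), ← leml_anti U hR hg g0 hv, U.av_hol hR hf hv,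
      add_sub_cancel_left]
  have n0 : S 0 = f 0 := by
    have e := hn 0 (by simp)
    rw [leml_congr (g := fun u => conj (g u)) fun u hu => by
      obtain ⟨t, -, t0, te⟩ := U.th_v (mem_ball_zero_iff.2 (hu.trans_lt hR))
      rw [← te 0 (mem_ball_self (zero_lt_one.trans hR)) (leml_ne hu (by simp)).symm, t0]
      simp, leml_conj (hg.continuousOn.mono (leml_sub hR)), av_hol hR hg, g0, map_zero] at e
    exact sub_eq_zero.1 e
  have k1 : av (fun v => ‖S v - f v‖ ^ 2) ≤ av (fun u => ‖g u‖ ^ 2) :=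
    leml_lim hR (hS.sub hf) fun ρ h0 h1 => leml_rho M hg hn h0 h1
  have k2 : av (fun u => ‖Y u‖ ^ 2) = av (fun u => ‖f u‖ ^ 2) + av (fun u => ‖g u‖ ^ 2) := by
    rw [leml_congr (g := fun u => ‖f u + conj (g u)‖ ^ 2) fun u hu => by rw [hYe u hu],
      av_orth hR hf hg, g0]
    simp
  have k3 : ‖S 0‖ ^ 2 ≤ av (fun u => ‖f u - (S u - f u)‖ ^ 2) := by
    have := leml_mean hR (hf.sub (hS.sub hf))
    simpa [n0] using this
  have i1 : CircleIntegrable (fun u => ‖S u‖ ^ 2) 0 1 := leml_int (Sc.norm.pow 2)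
  have i2 : CircleIntegrable (fun u => ‖f u - (S u - f u)‖ ^ 2) 0 1 :=
    leml_int ((fc.sub (Sc.sub fc)).norm.pow 2)
  have i3 : CircleIntegrable (fun u => ‖f u‖ ^ 2) 0 1 := leml_int (fc.norm.pow 2)
  have i4 : CircleIntegrable (fun u => ‖S u - f u‖ ^ 2) 0 1 := leml_int ((Sc.sub fc).norm.pow 2)
  have k4 : av (fun u => ‖S u‖ ^ 2) + av (fun u => ‖f u - (S u - f u)‖ ^ 2) =
      2 * (av (fun u => ‖f u‖ ^ 2) + av (fun u => ‖S u - f u‖ ^ 2)) := by
    rw [av, av, av, av, ← Real.circleAverage_fun_add i1 i2, ← Real.circleAverage_fun_add i3 i4,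
      ← smul_eq_mul, ← Real.circleAverage_fun_smul]
    refine leml_congr fun u _ => ?_
    have := parallelogram_law_with_norm ℂ (f u) (S u - f u)
    rw [add_sub_cancel] at this
    rw [smul_eq_mul]
    nlinarith [this]
  rw [k2]
  linarith

end

end Pool.Agent.Lib.MP_16d611_an
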