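import Pool.Agent.Lib.MP_16d611_an.Transfer

/-! The first order Moebius perturbation `F - L + F L* F`. -/

set_option autoImplicit false

namespace Pool.Agent.Lib.MP_16d611_an

open Set Metric Polynomial
open scoped InnerProductSpace ComplexConjugate

noncomputable section

theorem mob_re {E : Type*} [NormedAddCommGroup E] [InnerProductSpace ℂ E] [CompleteSpace E]
    {F L : E →L[ℂ] E} {t : ℝ} (hF : ‖F‖ ≤ 1) (ht : 0 ≤ t) (hL : ‖L‖ ≤ t) {a b : E}
    (ha : ‖a‖ = 1) (hb : ‖b‖ = 1) :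
    (⟪b, F a - L a + F (ContinuousLinearMap.adjoint L (F a))⟫_ℂ).re ≤ 1 + 2 * t ^ 2 := by
  set c := ContinuousLinearMap.adjoint F b with hc
  have hcn : ‖c‖ ≤ 1 := by
    have := (ContinuousLinearMap.adjoint F).le_opNorm b
    rw [hb, mul_one, LinearIsometryEquiv.norm_map] at this
    exact this.trans hF
  have hFa : ‖F a‖ ≤ 1 := by
    have := F.le_opNorm a
    rw [ha, mul_one] at this
    exact this.trans hF
  have hLv : ∀ v, ‖L v‖ ≤ t * ‖v‖ := fun v => L.le_of_opNorm_le hL v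
  have e1 : (⟪b, F (ContinuousLinearMap.adjoint L (F a))⟫_ℂ).re = (⟪F a, L c⟫_ℂ).re := by
    rw [← ContinuousLinearMap.adjoint_inner_left, ← hc, ContinuousLinearMap.adjoint_inner_right,
      ← inner_conj_symm, Complex.conj_re]
  have e2 : ⟪b, L a⟫_ℂ - ⟪F a, L c⟫_ℂ = ⟪b, L (a - c)⟫_ℂ + ⟪b - F a, L c⟫_ℂ := by
    rw [map_sub, inner_sub_right, inner_sub_left]; ring
  have e3 : (⟪c, a⟫_ℂ).re = (⟪b, F a⟫_ℂ).re := by
    rw [hc, ContinuousLinearMap.adjoint_inner_left]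
  have n1 : ‖a - c‖ ^ 2 ≤ 2 - 2 * (⟪b, F a⟫_ℂ).re := by
    rw [norm_sub_rev, @norm_sub_sq ℂ, ha]
    simp only [RCLike.re_to_complex, e3]
    nlinarith [norm_nonneg c]
  have n2 : ‖b - F a‖ ^ 2 ≤ 2 - 2 * (⟪b, F a⟫_ℂ).re := by
    rw [@norm_sub_sq ℂ, hb]
    simp only [RCLike.re_to_complex]
    nlinarith [norm_nonneg (F a)]
  have b1 : -(t * ‖a - c‖) ≤ (⟪b, L (a - c)⟫_ℂ).re := by
    have h1 := norm_inner_le_norm (𝕜 := ℂ) b (L (a - c))
    rw [hb, one_mul] at h1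
    have h2 := (abs_le.1 (Complex.abs_re_le_norm ⟪b, L (a - c)⟫_ℂ)).1
    linarith [hLv (a - c)]
  have b2 : -(t * ‖b - F a‖) ≤ (⟪b - F a, L c⟫_ℂ).re := by
    have h1 := norm_inner_le_norm (𝕜 := ℂ) (b - F a) (L c)
    have h2 := (abs_le.1 (Complex.abs_re_le_norm ⟪b - F a, L c⟫_ℂ)).1
    have h3 : ‖L c‖ ≤ t := (hLv c).trans (mul_le_of_le_one_right ht hcn)
    nlinarith [norm_nonneg (b - F a)]
  have e4 := congrArg Complex.re e2
  rw [Complex.sub_re, Complex.add_re] at e4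
  rw [inner_add_right, inner_sub_right, Complex.add_re, Complex.sub_re, e1]
  nlinarith [sq_nonneg (‖a - c‖ - 2 * t), sq_nonneg (‖b - F a‖ - 2 * t)]

theorem mob_norm {E : Type*} [NormedAddCommGroup E] [InnerProductSpace ℂ E] [CompleteSpace E]
    {F L : E →L[ℂ] E} {t : ℝ} (hF : ‖F‖ ≤ 1) (ht : 0 ≤ t) (hL : ‖L‖ ≤ t) :
    ‖F - L + F * star L * F‖ ≤ 1 + 2 * t ^ 2 := by
  refine ContinuousLinearMap.opNorm_le_of_unit_norm (by positivity) fun a ha => ?_
  set w := (F - L + F * star L * F) a with hw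
  by_cases h0 : w = 0
  · rw [h0, norm_zero]; positivity
  have hn : ‖w‖ ≠ 0 := norm_ne_zero_iff.2 h0
  have hnc : ((‖w‖ : ℝ) : ℂ) ≠ 0 := by exact_mod_cast hn
  have hb : ‖((‖w‖ : ℝ) : ℂ)⁻¹ • w‖ = 1 := by
    rw [norm_smul, norm_inv, Complex.norm_real, norm_norm, inv_mul_cancel₀ hn]
  have h1 := mob_re hF ht hL ha hb
  have h2 : F a - L a + F (ContinuousLinearMap.adjoint L (F a)) = w := rfl
  rw [h2, inner_smul_left, inner_self_eq_norm_sq_to_K] at h1
  have h3 : conj (((‖w‖ : ℝ) : ℂ)⁻¹) * ((‖w‖ : ℝ) : ℂ) ^ 2 = ((‖w‖ : ℝ) : ℂ) := by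
    rw [map_inv₀, Complex.conj_ofReal]; field_simp
  erw [h3] at h1
  simpa using h1

section
variable {ι : Type} [Fintype ι] [DecidableEq ι] {H : Type} [NormedAddCommGroup H]
  [InnerProductSpace ℂ H] [FiniteDimensional ℂ H]

theorem Bd.mob {F L : Matrix ι ι ℂ} {t : ℝ} (hF : Bd F 1) (ht : 0 ≤ t) (hL : Bd L t) :
    Bd (F - L + F * L.conjTranspose * F) (1 + 2 * t ^ 2) := by
  rw [bd_iff_norm _ zero_le_one] at hF
  rw [bd_iff_norm _ ht] at hL
  rw [bd_iff_norm _ (by positivity), ← Matrix.star_eq_conjTranspose, map_add, map_sub, map_mul,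
    map_mul, map_star]
  exact mob_norm hF ht hL

omit [DecidableEq ι] in
theorem evP_mob (P : Matrix ι ι ℂ[X]) (L : Matrix ι ι ℂ) (z : ℂ) :
    evP (P - L.map Polynomial.C + P * L.conjTranspose.map Polynomial.C * P) z =
      evP P z - L + evP P z * L.conjTranspose * evP P z := by
  ext a b
  simp [evP, Matrix.mul_apply, eval_finset_sum]

omit [DecidableEq ι] [FiniteDimensional ℂ H] in
theorem mob_act_mul (P Q : Matrix ι ι ℂ[X]) (A : H →L[ℂ] H) (x : ι → H) :
    act (P * Q) A x = act P A (act Q A x) := by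
  funext a
  simp only [act, Matrix.mul_apply, map_sum, map_mul, ContinuousLinearMap.sum_apply,
    ContinuousLinearMap.mul_apply]
  exact Finset.sum_comm

omit [DecidableEq ι] [FiniteDimensional ℂ H] in
theorem mob_act_C (L : Matrix ι ι ℂ) (A : H →L[ℂ] H) (x : ι → H) (a : ι) :
    act (L.map Polynomial.C) A x a = ∑ b, L a b • x b := by
  simp [act, Algebra.algebraMap_eq_smul_one]

omit [DecidableEq ι] [FiniteDimensional ℂ H] in
theorem SPair.mob {P : Matrix ι ι ℂ[X]} {A : H →L[ℂ] H} {k : ℝ} {x y : ι → H}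
    (hp : SPair P A k x y) (L : Matrix ι ι ℂ) :
    ∑ a, ⟪y a, act (P - L.map Polynomial.C + P * L.conjTranspose.map Polynomial.C * P) A x a⟫_ℂ =
      (k : ℂ) - (∑ a, ∑ b, L a b * ⟪y a, x b⟫_ℂ) +
        (k : ℂ) ^ 2 * conj (∑ a, ∑ b, L a b * ⟪y a, x b⟫_ℂ) := by
  have e0 : ∀ a, act (P - L.map Polynomial.C + P * L.conjTranspose.map Polynomial.C * P) A x a =
      act P A x a - act (L.map Polynomial.C) A x a +
        act (P * L.conjTranspose.map Polynomial.C * P) A x a := fun a => by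
    simp only [act, Matrix.add_apply, Matrix.sub_apply, map_add, map_sub,
      ContinuousLinearMap.add_apply, ContinuousLinearMap.sub_apply, Finset.sum_add_distrib,
      Finset.sum_sub_distrib]
  have e1 : ∑ a, ⟪y a, act P A x a⟫_ℂ = (k : ℂ) := by
    rw [hp.bwd]
    have : ∑ a, ⟪x a, x a⟫_ℂ = 1 := by
      have h := congrArg (fun r : ℝ => (r : ℂ)) hp.nx
      push_cast at h
      rw [← h]
      exact Finset.sum_congr rfl fun a _ => inner_self_eq_norm_sq_to_K _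
    rw [this, mul_one]
  have e2 : ∑ a, ⟪y a, act (L.map Polynomial.C) A x a⟫_ℂ = ∑ a, ∑ b, L a b * ⟪y a, x b⟫_ℂ :=
    Finset.sum_congr rfl fun a _ => by
      rw [mob_act_C, inner_sum]
      exact Finset.sum_congr rfl fun b _ => inner_smul_right _ _ _
  have e3 : ∑ a, ⟪y a, act (P * L.conjTranspose.map Polynomial.C * P) A x a⟫_ℂ =
      (k : ℂ) ^ 2 * conj (∑ a, ∑ b, L a b * ⟪y a, x b⟫_ℂ) := by
    rw [mob_act_mul, mob_act_mul, hp.bwd, map_sum, sq, mul_assoc]
    congr 1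
    simp only [map_sum, map_mul, inner_conj_symm, Finset.mul_sum]
    rw [Finset.sum_comm]
    refine Finset.sum_congr rfl fun a _ => ?_
    rw [mob_act_C, inner_sum]
    refine Finset.sum_congr rfl fun b _ => ?_
    rw [hp.fwd, inner_smul_right, inner_smul_right, Matrix.conjTranspose_apply]
    simp only [RCLike.star_def]
    ring
  simp only [e0, inner_add_right, inner_sub_right, Finset.sum_add_distrib, Finset.sum_sub_distrib]
  rw [e1, e2, e3]

end

end

end Pool.Agent.Lib.MP_16d611_an
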