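import Pool.Agent.Lib.MP_16d611_an.Basic
import Pool.Agent.Lib.MP_16d611_an.Cf65b

/-! `exists_model` from the exterior map package `Cf`. -/

set_option autoImplicit false

namespace Pool.Agent.Lib.MP_16d611_an

open Set Filter Topology Metric
open scoped ComplexConjugate

noncomputable section

theorem exists_model {W : Set ℂ} (hc : IsCompact W) (hv : Convex ℝ W)
    (h0 : (0 : ℂ) ∈ interior W) {δ : ℝ} (hδ : 0 < δ) :
    ∃ (h : ℂ → ℂ) (R : ℝ), Model W δ h R := by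
  have h0W : (0 : ℂ) ∈ W := interior_subset h0
  obtain ⟨ρ, ψ, χ, C⟩ := Cf.exists_curve hc hv ⟨0, h0W⟩ hδ
  have hρ := C.one_lt
  have hρ0 : 0 < ρ := by linarith
  have big : ∀ u ∈ ball (0 : ℂ) ρ, u ≠ 0 → ρ⁻¹ < ‖u⁻¹‖ := fun u hu h => by
    rw [mem_ball, dist_zero_right] at hu
    rw [norm_inv]
    exact inv_strictAnti₀ (norm_pos_iff.2 h) hu
  have e1 : ∀ u ∈ ball (0 : ℂ) ρ, u ≠ 0 → ψ u⁻¹ = u⁻¹ * χ u := fun u hu h => by
    rw [C.eq _ (big u hu h), inv_inv]
  have χne : ∀ u ∈ ball (0 : ℂ) ρ, χ u ≠ 0 := fun u hu => by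
    by_cases h : u = 0
    · rw [h]; exact C.χ0
    · intro h1
      refine C.out _ (big u hu h) ?_
      rw [e1 u hu h, h1, mul_zero]; exact h0W
  set h : ℂ → ℂ := fun u => u / χ u with hh
  have e2 : ∀ u ∈ ball (0 : ℂ) ρ, u ≠ 0 → (h u)⁻¹ = ψ u⁻¹ := fun u hu h1 => by
    rw [e1 u hu h1, hh]; simp only [inv_div]; rw [div_eq_mul_inv, mul_comm]
  have hz : ∀ u ∈ ball (0 : ℂ) ρ, h u = 0 → u = 0 := fun u hu h1 =>
    (div_eq_zero_iff.1 h1).resolve_right (χne u hu)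
  have U : Uni h ρ := by
    refine ⟨differentiableOn_id.div C.dχ χne, fun a ha b hb hab => ?_, by simp [hh]⟩
    by_cases a0 : a = 0
    · have : h b = 0 := by rw [← hab, a0]; simp [hh]
      rw [a0, hz b hb this]
    · have b0 : b ≠ 0 := fun b0 => a0 (hz a ha (by rw [hab, b0]; simp [hh]))
      exact inv_injective (C.inj (big a ha a0) (big b hb b0)
        (by rw [← e2 a ha a0, ← e2 b hb b0, hab]))
  have sph : ∀ u : ℂ, ‖u‖ = 1 → u ∈ ball (0 : ℂ) ρ ∧ u ≠ 0 := fun u hu =>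
    ⟨by rw [mem_ball, dist_zero_right, hu]; exact hρ, norm_pos_iff.1 (by rw [hu]; exact one_pos)⟩
  have ej : ∀ u ∈ ball (0 : ℂ) ρ, u ≠ 0 → u⁻¹ * deriv ψ u⁻¹ = gam h u / h u := by
    intro u hu u0
    have hne := U.h_ne hu u0
    have d1 : HasDerivAt h (deriv h u) u :=
      (U.diff.differentiableAt (isOpen_ball.mem_nhds hu)).hasDerivAt
    have o1 : IsOpen {ζ : ℂ | ρ⁻¹ < ‖ζ‖} := isOpen_lt continuous_const continuous_norm
    have d2 : HasDerivAt ψ (deriv ψ u⁻¹) u⁻¹ :=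
      (C.dψ.differentiableAt (o1.mem_nhds (big u hu u0))).hasDerivAt
    have d3 := HasDerivAt.comp u (h₂ := ψ) d2 (hasDerivAt_inv u0)
    have d4 := (d1.inv hne).congr_of_eventuallyEq (f₁ := ψ ∘ fun y => y⁻¹) (by
      filter_upwards [isOpen_ball.mem_nhds hu, isOpen_ne.mem_nhds u0] with v hv v0
      exact (e2 v hv v0).symm)
    have d5 := d3.unique d4
    have d6 := U.gam_mul hu
    field_simp at d5 ⊢
    refine mul_right_cancel₀ hne ?_
    linear_combination (-1 : ℂ) * d5 - u * d6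
  refine ⟨h, ρ, hρ, U, fun a ha u hu h1 => ?_, fun a ha u hu => ?_, fun u v hu hv => ?_,
    fun u hu => ?_⟩
  · have u0 : u ≠ 0 := fun u0 => by simp [u0, hh] at h1
    refine C.out _ (big u hu u0) ?_
    rw [← e2 u hu u0, ← eq_inv_of_mul_eq_one_right h1]; exact ha
  · obtain ⟨ub, u0⟩ := sph u hu
    have hne := U.h_ne ub u0
    have hne' : conj (h u) ≠ 0 := (map_ne_zero _).2 hne
    have h1 := C.supp _ (big u ub u0) a ha
    rw [ej u ub u0, ← e2 u ub u0] at h1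
    have h2 : gam h u * conj (1 - h u * a) =
        conj (((‖h u‖ ^ 2 : ℝ) : ℂ) * (conj (gam h u / h u) * ((h u)⁻¹ - a))) := by
      rw [Complex.ofReal_pow, ← Complex.conj_mul']
      simp only [map_mul, map_sub, map_div₀, map_inv₀, map_one, Complex.conj_conj]
      field_simp
    rw [h2, Complex.conj_re, Complex.re_ofReal_mul]
    positivity
  · obtain ⟨ub, u0⟩ := sph u hu
    obtain ⟨vb, v0⟩ := sph v hv
    have hu1 := U.h_ne ub u0
    have hv1 := U.h_ne vb v0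
    have hu2 : conj (h u) ≠ 0 := (map_ne_zero _).2 hu1
    have hv2 : conj (h v) ≠ 0 := (map_ne_zero _).2 hv1
    have h1 := C.lvl v⁻¹ u⁻¹ (big v vb v0) (by rw [norm_inv, norm_inv, hu, hv])
    rw [ej v vb v0, ← e2 u ub u0, ← e2 v vb v0] at h1
    have h2 : gam h v * h u * conj (h u - h v) =
        conj (((‖h u‖ ^ 2 * ‖h v‖ ^ 2 : ℝ) : ℂ) *
          (conj (gam h v / h v) * ((h v)⁻¹ - (h u)⁻¹))) := by
      rw [Complex.ofReal_mul, Complex.ofReal_pow, Complex.ofReal_pow, ← Complex.conj_mul',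
        ← Complex.conj_mul']
      simp only [map_mul, map_sub, map_div₀, map_inv₀, Complex.conj_conj]
      field_simp
    rw [h2, Complex.conj_re, Complex.re_ofReal_mul]
    positivity
  · obtain ⟨ub, u0⟩ := sph u hu
    rw [e2 u ub u0]
    exact C.near _ (by rw [norm_inv, hu, inv_one])

end

end Pool.Agent.Lib.MP_16d611_an
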