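import Pool.Agent.Lib.MP_16d611_an.Cauchy

/-! Cauchy representation of `p(A) K(v)` by the kernel `Pk`. -/

set_option autoImplicit false

namespace Pool.Agent.Lib.MP_16d611_an

open Set Metric Polynomial
open scoped InnerProductSpace ComplexConjugate

noncomputable section

variable {H : Type} [NormedAddCommGroup H] [InnerProductSpace ℂ H] [FiniteDimensional ℂ H]
variable {W : Set ℂ} {δ R : ℝ} {h : ℂ → ℂ}

lemma rep_unit (M : Model W δ h R) {A : H →L[ℂ] H} (hA : numR A ⊆ W) {u : ℂ}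
    (hu : u ∈ ball (0 : ℂ) R) : IsUnit (1 - h u • A) := by
  haveI : CompleteSpace H := FiniteDimensional.complete ℂ H
  have hinj : Function.Injective (1 - h u • A : H →L[ℂ] H) := by
    rw [injective_iff_map_eq_zero]
    intro w hw
    by_contra h0
    have hn : (‖w‖ : ℂ) ≠ 0 := by exact_mod_cast norm_ne_zero_iff.2 h0
    have hw' : w = h u • A w := by
      have : w - h u • A w = 0 := by simpa using hw
      exact sub_eq_zero.1 this
    set e : H := (‖w‖ : ℂ)⁻¹ • w with he
    have hne : ‖e‖ = 1 := by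
      rw [he, norm_smul, norm_inv, Complex.norm_real, norm_norm,
        inv_mul_cancel₀ (norm_ne_zero_iff.2 h0)]
    have he' : e = h u • A e := by
      rw [he, map_smul, smul_comm, ← hw']
    apply M.ne _ (hA ⟨e, hne, rfl⟩) u hu
    rw [← inner_smul_right, ← he', inner_self_eq_norm_sq_to_K, hne]
    simp
  rw [ContinuousLinearMap.isUnit_iff_bijective]
  exact ⟨hinj, LinearMap.injective_iff_surjective (f := ((1 - h u • A : H →L[ℂ] H) : H →ₗ[ℂ] H))
    |>.1 hinj⟩

lemma rep_step (M : Model W δ h R) {A : H →L[ℂ] H} (hA : numR A ⊆ W) {u : ℂ}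
    (hu : u ∈ ball (0 : ℂ) R) (x : H) :
    Kop h A u x = gam h u • x + h u • Kop h A u (A x) := by
  have h1 := Ring.inverse_mul_cancel _ (rep_unit M hA hu)
  have h2 : Ring.inverse (1 - h u • A) (x - h u • A x) = x := by
    have := congrArg (fun T : H →L[ℂ] H => T x) h1
    simpa using this
  rw [map_sub, map_smul] at h2
  simp only [Kop, ContinuousLinearMap.smul_apply]
  rw [smul_comm (h u), ← smul_add]
  congr 1
  exact sub_eq_iff_eq_add.1 h2

lemma rep_diff (M : Model W δ h R) {A : H →L[ℂ] H} (hA : numR A ⊆ W) (x y : H) :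
    DifferentiableOn ℂ (fun u => ⟪y, Kop h A u x⟫_ℂ) (ball 0 R) := by
  haveI : CompleteSpace H := FiniteDimensional.complete ℂ H
  have hR0 : 0 < R := zero_lt_one.trans M.hR
  have h1 : DifferentiableOn ℂ (fun u => Ring.inverse (1 - h u • A)) (ball 0 R) :=
    DifferentiableOn.inverse ((differentiableOn_const _).sub (M.uni.diff.smul_const A))
      fun u hu => rep_unit M hA hu
  have h2 : DifferentiableOn ℂ (fun u => Kop h A u x) (ball 0 R) :=
    ((M.uni.gam_diff hR0).smul h1).clm_apply (differentiableOn_const x)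
  exact (innerSL ℂ y).differentiable.comp_differentiableOn h2

lemma rep_comm (M : Model W δ h R) {A : H →L[ℂ] H} (hA : numR A ⊆ W) {u : ℂ}
    (hu : u ∈ ball (0 : ℂ) R) (x : H) : Kop h A u (A x) = A (Kop h A u x) := by
  have hc : Commute A (1 - h u • A) := (Commute.one_right A).sub_right ((Commute.refl A).smul_right _)
  obtain ⟨w, hw⟩ := rep_unit M hA hu
  have h2 : Commute A (Ring.inverse (1 - h u • A)) := by
    rw [← hw, Ring.inverse_unit]
    exact Commute.units_inv_right (hw ▸ hc)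
  have := congrArg (fun T : H →L[ℂ] H => T x) h2.eq
  simp only [Kop, ContinuousLinearMap.smul_apply, map_smul]
  congr 1
  simpa using this.symm

lemma rep_sub (hR : 1 < R) : sphere (0 : ℂ) 1 ⊆ ball 0 R := fun u hu => by
  rw [mem_sphere_zero_iff_norm] at hu
  rw [mem_ball_zero_iff, hu]; exact hR

lemma rep_h_ne (M : Model W δ h R) {u : ℂ} (hu : u ∈ sphere (0 : ℂ) 1) : h u ≠ 0 :=
  M.uni.h_ne (rep_sub M.hR hu) (ne_of_mem_sphere hu one_ne_zero)

lemma rep_int (M : Model W δ h R) {v : ℂ} (hv : ‖v‖ < 1) (n : ℕ) {φ : ℂ → ℂ}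
    (hφ : DifferentiableOn ℂ φ (ball 0 R)) :
    CircleIntegrable (fun u => Pk h v u * ((h u)⁻¹ ^ n * φ u)) 0 1 := by
  have hh : ContinuousOn h (sphere 0 1) := M.uni.diff.continuousOn.mono (rep_sub M.hR)
  apply ContinuousOn.circleIntegrable zero_le_one
  refine ContinuousOn.mul ?_ (((hh.inv₀ fun u hu => rep_h_ne M hu).pow n).mul
    (hφ.continuousOn.mono (rep_sub M.hR)))
  refine (continuousOn_const.mul hh).div (hh.sub continuousOn_const) fun u hu e => ?_
  have := M.uni.inj (rep_sub M.hR hu) (mem_ball_zero_iff.2 (hv.trans M.hR)) (sub_eq_zero.1 e)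
  rw [mem_sphere_zero_iff_norm, this] at hu
  exact hv.ne hu

lemma rep_pow (M : Model W δ h R) {A : H →L[ℂ] H} (hA : numR A ⊆ W) (y : H)
    {v : ℂ} (hv : ‖v‖ < 1) (n : ℕ) (x : H) :
    av (fun u => Pk h v u * ((h u)⁻¹ ^ n * ⟪y, Kop h A u x⟫_ℂ)) =
      ⟪y, (A ^ n) (Kop h A v x)⟫_ℂ := by
  have hR0 : 0 < R := zero_lt_one.trans M.hR
  induction n generalizing x with
  | zero => simpa using M.uni.av_hol M.hR (rep_diff M hA x y) hv
  | succ n ih =>
    have e : EqOn (fun u => Pk h v u * ((h u)⁻¹ ^ (n + 1) * ⟪y, Kop h A u x⟫_ℂ))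
        (fun u => ⟪y, x⟫_ℂ • (Pk h v u * ((h u)⁻¹ ^ (n + 1) * gam h u)) +
          Pk h v u * ((h u)⁻¹ ^ n * ⟪y, Kop h A u (A x)⟫_ℂ)) (sphere (0 : ℂ) |1|) := by
      intro u hu
      rw [abs_one] at hu
      have h0 := rep_h_ne M hu
      simp only [smul_eq_mul]
      rw [rep_step M hA (rep_sub M.hR hu) x, inner_add_right, inner_smul_right, inner_smul_right,
        pow_succ]
      field_simp
    have i1 := rep_int M hv (n + 1) (M.uni.gam_diff hR0)
    have i2 := rep_int M hv n (rep_diff M hA (A x) y)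
    have c := rep_comm M hA (mem_ball_zero_iff.2 (hv.trans M.hR)) x
    have z := M.uni.av_pow M.hR n hv
    have ih' := ih (A x)
    simp only [av] at z ih' ⊢
    rw [Real.circleAverage_congr_sphere e, Real.circleAverage_fun_add (i1.const_fun_smul) i2,
      Real.circleAverage_fun_smul, z, ih', c, smul_zero, zero_add, pow_succ]
    rfl

theorem Model.kop_rep (M : Model W δ h R) {A : H →L[ℂ] H} (hA : numR A ⊆ W) (p : ℂ[X]) (x y : H)
    {v : ℂ} (hv : ‖v‖ < 1) :
    av (fun u => Pk h v u * (p.eval (h u)⁻¹ * ⟪y, Kop h A u x⟫_ℂ)) =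
      ⟪y, aeval A p (Kop h A v x)⟫_ℂ := by
  have key : CircleIntegrable (fun u => Pk h v u * (p.eval (h u)⁻¹ * ⟪y, Kop h A u x⟫_ℂ)) 0 1 ∧
      av (fun u => Pk h v u * (p.eval (h u)⁻¹ * ⟪y, Kop h A u x⟫_ℂ)) =
        ⟪y, aeval A p (Kop h A v x)⟫_ℂ := by
    induction p using Polynomial.induction_on' with
    | add p q hp hq =>
      have e : (fun u => Pk h v u * ((p + q).eval (h u)⁻¹ * ⟪y, Kop h A u x⟫_ℂ)) =
          fun u => Pk h v u * (p.eval (h u)⁻¹ * ⟪y, Kop h A u x⟫_ℂ) +
            Pk h v u * (q.eval (h u)⁻¹ * ⟪y, Kop h A u x⟫_ℂ) := by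
        funext u; rw [eval_add]; ring
      rw [e]
      refine ⟨hp.1.add hq.1, ?_⟩
      have h1 := hp.2
      have h2 := hq.2
      simp only [av] at h1 h2 ⊢
      rw [Real.circleAverage_fun_add hp.1 hq.1, h1, h2, map_add, ContinuousLinearMap.add_apply,
        inner_add_right]
    | monomial n a =>
      have e : (fun u => Pk h v u * ((monomial n a).eval (h u)⁻¹ * ⟪y, Kop h A u x⟫_ℂ)) =
          fun u => a • (Pk h v u * ((h u)⁻¹ ^ n * ⟪y, Kop h A u x⟫_ℂ)) := by
        funext u; rw [eval_monomial, smul_eq_mul]; ring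
      rw [e]
      refine ⟨(rep_int M hv n (rep_diff M hA x y)).const_fun_smul, ?_⟩
      have h1 := rep_pow M hA y hv n x
      simp only [av] at h1 ⊢
      rw [Real.circleAverage_fun_smul, h1, aeval_monomial, ← Algebra.smul_def,
        ContinuousLinearMap.smul_apply, inner_smul_right, smul_eq_mul]
  exact key.2

end

end Pool.Agent.Lib.MP_16d611_an
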