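import Pool.Agent.Lib.MP_16d611_an.ThmA
import Pool.Agent.Lib.MP_16d611_an.Kant

/-! The similarity bound `‖S⁻¹ P(A) S‖ ≤ 2 C`. -/

set_option autoImplicit false

namespace Pool.Agent.Lib.MP_16d611_an

open Set Metric Polynomial
open scoped InnerProductSpace ComplexConjugate

noncomputable section

lemma sim_aeval {R : Type} [Ring R] [Algebra ℂ R] {S T A : R} (h1 : S * T = 1) (h2 : T * S = 1)
    (p : ℂ[X]) : aeval (T * A * S) p * T = T * aeval A p := by
  have hpow : ∀ n : ℕ, (T * A * S) ^ n * T = T * A ^ n := by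
    intro n
    induction n with
    | zero => simp
    | succ n ih =>
      rw [pow_succ', mul_assoc, ih, pow_succ']
      calc T * A * S * (T * A ^ n) = T * A * (S * T) * A ^ n := by simp only [mul_assoc]
        _ = T * (A * A ^ n) := by rw [h1, mul_one, mul_assoc]
  induction p using Polynomial.induction_on' with
  | add p q hp hq => rw [map_add, map_add, add_mul, mul_add, hp, hq]
  | monomial n a =>
    rw [aeval_monomial, aeval_monomial, mul_assoc, hpow, ← mul_assoc, Algebra.commutes, mul_assoc]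

section
variable {ι : Type} [Fintype ι] [DecidableEq ι] {H : Type} [NormedAddCommGroup H]
  [InnerProductSpace ℂ H] [FiniteDimensional ℂ H]

theorem sim_bound {q : ℂ} (hq0 : q ≠ 0) (hq1 : ‖q‖ ≤ 1)
    (hn : 2 ≤ Module.finrank ℂ H ∨ ‖q‖ = 1) (A : H →L[ℂ] H) {P : Matrix ι ι ℂ[X]} {C : ℝ}
    (hC : 0 ≤ C) (hP : ∀ z ∈ omegaH q A, Bd (evP P z) C) (V : Submodule ℂ H) {g : ℝ} (hg : 0 < g)
    (hgq : ‖q‖ * (g + g⁻¹) ≤ 2) (x : ι → H) :
    ∑ a, ‖act P A x a + ((g : ℂ) - 1) • V.starProjection (act P A x a)‖ ^ 2 ≤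
      (2 * C) ^ 2 * ∑ a, ‖x a + ((g : ℂ) - 1) • V.starProjection (x a)‖ ^ 2 := by
  set Q : H →L[ℂ] H := V.starProjection with hQ
  have hPP : ∀ a, Q (Q a) = Q a := fun a =>
    Submodule.starProjection_eq_self_iff.2 (V.starProjection_apply_mem a)
  have hPs : ∀ a b, ⟪Q a, b⟫_ℂ = ⟪a, Q b⟫_ℂ := fun a b =>
    V.inner_starProjection_left_eq_right a b
  have hgc : (g : ℂ) ≠ 0 := by exact_mod_cast hg.ne'
  set T : H →L[ℂ] H := 1 + ((g - 1 : ℝ) : ℂ) • Q with hT
  set S : H →L[ℂ] H := 1 + ((g⁻¹ - 1 : ℝ) : ℂ) • Q with hS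
  have hTa : ∀ w, T w = w + ((g - 1 : ℝ) : ℂ) • Q w := fun w => rfl
  have hSa : ∀ w, S w = w + ((g⁻¹ - 1 : ℝ) : ℂ) • Q w := fun w => rfl
  have h1 : S * T = 1 := by
    ext w
    change S (T w) = w
    rw [hSa, hTa, map_add, map_smul, hPP, smul_add, smul_smul, add_assoc, ← add_smul, ← add_smul]
    have : ((g - 1 : ℝ) : ℂ) + (((g⁻¹ - 1 : ℝ) : ℂ) + ((g⁻¹ - 1 : ℝ) : ℂ) * ((g - 1 : ℝ) : ℂ))
        = 0 := by
      push_cast; field_simp; ring
    rw [this, zero_smul, add_zero]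
  have h2 : T * S = 1 := by
    ext w
    change T (S w) = w
    rw [hTa, hSa, map_add, map_smul, hPP, smul_add, smul_smul, add_assoc, ← add_smul, ← add_smul]
    have : ((g⁻¹ - 1 : ℝ) : ℂ) + (((g - 1 : ℝ) : ℂ) + ((g - 1 : ℝ) : ℂ) * ((g⁻¹ - 1 : ℝ) : ℂ))
        = 0 := by
      push_cast; field_simp; ring
    rw [this, zero_smul, add_zero]
  have hB : ∀ z ∈ numR (T * A * S), Bd (evP P z) C := by
    rintro z ⟨w, hw, rfl⟩
    obtain ⟨e1, e2⟩ := B12.proj_pair Q hPP hPs hg (t := (g + g⁻¹) / 2) (by ring) w hw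
    have e3 : ⟪w, (T * A * S) w⟫_ℂ = ⟪T w, A (S w)⟫_ℂ := by
      change ⟪w, T (A (S w))⟫_ℂ = _
      rw [hTa, hTa, inner_add_right, inner_add_left, inner_smul_right, inner_smul_left,
        Complex.conj_ofReal, hPs]
    rw [e3]
    refine bd_of_pair hq0 hq1 hn A hP (u := S w) (v := T w) e1 ?_
    have e4 : ‖S w‖ * ‖T w‖ ≤ (g + g⁻¹) / 2 := e2
    calc ‖q‖ * (‖S w‖ * ‖T w‖) ≤ ‖q‖ * ((g + g⁻¹) / 2) := by gcongr
      _ ≤ 1 := by linarith
  have key := thmA (T * A * S) P hC hB (fun a => T (x a))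
  have e5 : ∀ a, act P (T * A * S) (fun a => T (x a)) a = T (act P A x a) := by
    intro a
    simp only [act, map_sum]
    refine Finset.sum_congr rfl fun b _ => ?_
    exact congrArg (fun F : H →L[ℂ] H => F (x b)) (sim_aeval h1 h2 (P a b))
  have e6 : ∀ w, T w = w + ((g : ℂ) - 1) • Q w := fun w => by rw [hTa]; push_cast; rfl
  simp only [e5] at key
  simp only [e6] at key
  exact key

end

end

end Pool.Agent.Lib.MP_16d611_an
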