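import Mathlib

/-! Toeplitz-Hausdorff: the numerical range of a linear map on a complex inner product space is
convex. -/

namespace Pool.Agent.MP_16d611_an.TH34

open scoped InnerProductSpace

variable {E : Type*} [NormedAddCommGroup E] [InnerProductSpace ℂ E]

lemma exists_unimodular_mul_real (c : ℂ) : ∃ l : ℂ, ‖l‖ = 1 ∧ (l * c).im = 0 := by
  by_cases h : c = 0
  · exact ⟨1, by simp, by simp [h]⟩
  · have hn : (‖c‖ : ℂ) ≠ 0 := by exact_mod_cast (norm_ne_zero_iff.2 h)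
    refine ⟨(starRingEnd ℂ) c / (‖c‖ : ℂ), ?_, ?_⟩
    · rw [norm_div, Complex.norm_conj, Complex.norm_real, norm_norm,
        div_self (norm_ne_zero_iff.2 h)]
    · have : (starRingEnd ℂ) c / (‖c‖ : ℂ) * c = ((‖c‖ : ℝ) : ℂ) := by
        rw [div_mul_eq_mul_div, Complex.conj_mul', div_eq_iff hn]; ring
      rw [this, Complex.ofReal_im]

/-- normalised case: values `0` and `1` are attained, so every `t` in `[0,1]` is. -/
lemma exists_of_zero_one (T : E →ₗ[ℂ] E) {x y : E} (hx : ‖x‖ = 1) (hy : ‖y‖ = 1)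
    (h0 : ⟪x, T x⟫_ℂ = 0) (h1 : ⟪y, T y⟫_ℂ = 1) {t : ℝ} (ht0 : 0 ≤ t) (ht1 : t ≤ 1) :
    ∃ z : E, ‖z‖ = 1 ∧ ⟪z, T z⟫_ℂ = (t : ℂ) := by
  obtain ⟨l, hl, hl2⟩ :=
    exists_unimodular_mul_real (⟪x, T y⟫_ℂ - (starRingEnd ℂ) ⟪y, T x⟫_ℂ)
  have hll : (starRingEnd ℂ) l * l = 1 := by
    rw [Complex.conj_mul', hl]; simp
  set z : ℝ → E := fun s => ((1 - s : ℝ) : ℂ) • x + ((s : ℂ) * l) • y with hz
  set c : ℂ := l * ⟪x, T y⟫_ℂ + (starRingEnd ℂ) l * ⟪y, T x⟫_ℂ with hc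
  have hcim : c.im = 0 := by
    have : c.im = (l * (⟪x, T y⟫_ℂ - (starRingEnd ℂ) ⟪y, T x⟫_ℂ)).im := by
      simp only [hc, Complex.add_im, Complex.mul_im, Complex.conj_re, Complex.conj_im,
        Complex.sub_re, Complex.sub_im]
      ring
    rw [this, hl2]
  have hcre : c = (c.re : ℂ) := Complex.ext (by simp) (by simp [hcim])
  have hq : ∀ s : ℝ, ⟪z s, T (z s)⟫_ℂ = ((s ^ 2 + s * (1 - s) * c.re : ℝ) : ℂ) := by
    intro s
    simp only [hz, map_add, map_smul, inner_add_left, inner_add_right, inner_smul_left,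
      inner_smul_right, h0, h1, map_mul, Complex.conj_ofReal]
    push_cast
    rw [← hcre, hc]
    linear_combination (s : ℂ) ^ 2 * hll
  have hzc : Continuous z := by
    simp only [hz]; fun_prop
  have hcont : Continuous fun s : ℝ => s ^ 2 + s * (1 - s) * c.re - t * ‖z s‖ ^ 2 := by
    fun_prop
  have hz0 : z 0 = x := by simp [hz]
  have hz1 : ‖z 1‖ = 1 := by simp [hz, norm_smul, hl, hy]
  obtain ⟨s, hs, hs0⟩ : (0 : ℝ) ∈ (fun s : ℝ => s ^ 2 + s * (1 - s) * c.re - t * ‖z s‖ ^ 2) ''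
      Set.Icc 0 1 := by
    apply intermediate_value_Icc zero_le_one hcont.continuousOn
    constructor
    · simp [hz0, hx, ht0]
    · simp [hz1, ht1]
  have hne : z s ≠ 0 := by
    intro h
    have e : ((1 - s : ℝ) : ℂ) • x = -(((s : ℂ) * l) • y) := eq_neg_of_add_eq_zero_left h
    have hn := congrArg norm e
    rw [norm_neg, norm_smul, norm_smul, hx, hy, norm_mul, hl, Complex.norm_real,
      Complex.norm_real, Real.norm_of_nonneg (by linarith [hs.2]), Real.norm_of_nonneg hs.1] at hn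
    have hs2 : s = 1 / 2 := by linarith
    have e2 : ⟪((1 - s : ℝ) : ℂ) • x, T (((1 - s : ℝ) : ℂ) • x)⟫_ℂ = 0 := by
      simp only [map_smul, inner_smul_left, inner_smul_right, h0, mul_zero]
    rw [e] at e2
    simp only [map_neg, inner_neg_left, inner_neg_right, map_smul, inner_smul_left,
      inner_smul_right, h1, map_mul, Complex.conj_ofReal] at e2
    have : (s : ℂ) ^ 2 = 0 := by linear_combination e2 - (s : ℂ) ^ 2 * hll
    rw [hs2] at this
    norm_num at this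
  have hn : (0 : ℝ) < ‖z s‖ := norm_pos_iff.2 hne
  have hn' : ((‖z s‖ : ℝ) : ℂ) ≠ 0 := by exact_mod_cast hn.ne'
  refine ⟨((‖z s‖⁻¹ : ℝ) : ℂ) • z s, ?_, ?_⟩
  · rw [norm_smul, Complex.norm_real, norm_inv, norm_norm, inv_mul_cancel₀ hn.ne']
  · rw [map_smul, inner_smul_left, inner_smul_right, hq, Complex.conj_ofReal]
    have : s ^ 2 + s * (1 - s) * c.re = t * ‖z s‖ ^ 2 := by
      simp only at hs0; linarith
    rw [this]
    push_cast
    field_simp

/-- **Toeplitz-Hausdorff.** -/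
theorem convex_numRange (T : E →ₗ[ℂ] E) :
    Convex ℝ {w : ℂ | ∃ x : E, ‖x‖ = 1 ∧ ⟪x, T x⟫_ℂ = w} := by
  rintro a ⟨x, hx, hxa⟩ b ⟨y, hy, hyb⟩ s t hs ht hst
  by_cases hab : a = b
  · refine ⟨x, hx, ?_⟩
    rw [hxa, ← hab, ← add_smul, hst, one_smul]
  have hd : b - a ≠ 0 := sub_ne_zero.2 (Ne.symm hab)
  have key : ∀ u : E, ‖u‖ = 1 →
      ⟪u, ((b - a)⁻¹ • (T - a • LinearMap.id) : E →ₗ[ℂ] E) u⟫_ℂ
        = (b - a)⁻¹ * (⟪u, T u⟫_ℂ - a) := by
    intro u hu
    have : ⟪u, u⟫_ℂ = 1 := by rw [inner_self_eq_norm_sq_to_K, hu]; simp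
    simp only [LinearMap.smul_apply, LinearMap.sub_apply, LinearMap.id_apply, inner_smul_right,
      inner_sub_right, this, mul_one]
  obtain ⟨z, hz, hzt⟩ := exists_of_zero_one ((b - a)⁻¹ • (T - a • LinearMap.id)) hx hy
    (by rw [key x hx, hxa]; simp) (by rw [key y hy, hyb, inv_mul_cancel₀ hd]) ht (by linarith)
  refine ⟨z, hz, ?_⟩
  rw [key z hz, inv_mul_eq_iff_eq_mul₀ hd] at hzt
  have hs' : (s : ℂ) = 1 - t := by
    have : s = 1 - t := by linarith
    rw [this]; push_cast; ring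
  rw [Complex.real_smul, Complex.real_smul, hs']
  linear_combination hzt

/-- The same for a continuous linear map. -/
theorem convex_numRange_clm (T : E →L[ℂ] E) :
    Convex ℝ {w : ℂ | ∃ x : E, ‖x‖ = 1 ∧ ⟪x, T x⟫_ℂ = w} :=
  convex_numRange (T : E →ₗ[ℂ] E)

/-- The numerical range is compact in finite dimension. -/
theorem isCompact_numRange [FiniteDimensional ℂ E] (T : E →ₗ[ℂ] E) :
    IsCompact {w : ℂ | ∃ x : E, ‖x‖ = 1 ∧ ⟪x, T x⟫_ℂ = w} := by
  have hT : Continuous T := T.continuous_of_finiteDimensional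
  have : ProperSpace E := FiniteDimensional.proper ℂ E
  have : {w : ℂ | ∃ x : E, ‖x‖ = 1 ∧ ⟪x, T x⟫_ℂ = w}
      = (fun x : E => ⟪x, T x⟫_ℂ) '' Metric.sphere 0 1 := by
    ext w; simp
  rw [this]
  exact (isCompact_sphere 0 1).image (by fun_prop)

end Pool.Agent.MP_16d611_an.TH34
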