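import Pool.Agent.Lib.MP_16d611_an.Defs
import Pool.Agent.Lib.MP_16d611_an.TH34

/-! The numerical range is convex (Toeplitz-Hausdorff) and compact. -/

set_option autoImplicit false

namespace Pool.Agent.Lib.MP_16d611_an

open Set Metric Polynomial
open scoped InnerProductSpace ComplexConjugate

noncomputable section

section
variable {H : Type} [NormedAddCommGroup H] [InnerProductSpace ℂ H] [FiniteDimensional ℂ H]

omit [FiniteDimensional ℂ H] in
lemma th_numR_eq (A : H →L[ℂ] H) :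
    numR A = {w : ℂ | ∃ x : H, ‖x‖ = 1 ∧ ⟪x, (A : H →ₗ[ℂ] H) x⟫_ℂ = w} := by
  ext w
  exact ⟨fun ⟨x, hx, e⟩ => ⟨x, hx, e.symm⟩, fun ⟨x, hx, e⟩ => ⟨x, hx, e.symm⟩⟩

omit [FiniteDimensional ℂ H] in
theorem numR_convex (A : H →L[ℂ] H) : Convex ℝ (numR A) := by
  rw [th_numR_eq]
  exact Pool.Agent.MP_16d611_an.TH34.convex_numRange _

theorem numR_compact (A : H →L[ℂ] H) : IsCompact (numR A) := by
  rw [th_numR_eq]
  exact Pool.Agent.MP_16d611_an.TH34.isCompact_numRange _

end

end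

end Pool.Agent.Lib.MP_16d611_an
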