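import Pool.Agent.Lib.MP_16d611_an.Basic

/-! The regular part `Th` of the kernel: holomorphy in each variable and positivity. -/

set_option autoImplicit false

namespace Pool.Agent.Lib.MP_16d611_an

open Set Metric Polynomial Filter Topology
open scoped InnerProductSpace ComplexConjugate

noncomputable section

variable {W : Set ℂ} {δ R : ℝ} {h : ℂ → ℂ}

lemma theta_alg (U : Uni h R) {u v q r : ℂ} (hv : v ∈ ball (0 : ℂ) R) (huv : u ≠ v) (hq : q ≠ 0)
    (e1 : h u - h v = (u - v) * q) (e2 : q - deriv h v = (u - v) * r) :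
    2 * gam h v - 1 - 2 * v * r / q = Th h v u := by
  have hs : u - v ≠ 0 := sub_ne_zero.2 huv
  have e3 : h u = h v + (u - v) * q := by rw [← e1]; ring
  have e4 : gam h v * h v = v * (q - (u - v) * r) := by
    rw [U.gam_mul hv, ← e2]; ring
  rw [Th, Pk, e1, e3, mul_add, e4]
  field_simp
  ring

theorem Uni.th_u (U : Uni h R) {v : ℂ} (hv : v ∈ ball (0 : ℂ) R) :
    ∃ f : ℂ → ℂ, DifferentiableOn ℂ f (ball 0 R) ∧ f 0 = 1 ∧
      ∀ u ∈ ball (0 : ℂ) R, u ≠ v → f u = Th h v u := by
  have hR : 0 < R := pos_of_mem_ball hv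
  have d1 := U.dslope_diff hv
  have d2 : DifferentiableOn ℂ (dslope (dslope h v) v) (ball 0 R) :=
    (Complex.differentiableOn_dslope (isOpen_ball.mem_nhds hv)).2 d1
  have key : ∀ u ∈ ball (0 : ℂ) R, u ≠ v →
      2 * gam h v - 1 - 2 * v * dslope (dslope h v) v u / dslope h v u = Th h v u := by
    intro u hu huv
    refine theta_alg U hv huv (U.dslope_ne hu hv) ?_ ?_
    · simpa [smul_eq_mul] using (sub_smul_dslope h v u).symm
    · have := (sub_smul_dslope (dslope h v) v u).symm
      rwa [dslope_same, smul_eq_mul] at this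
  refine ⟨fun u => 2 * gam h v - 1 - 2 * v * dslope (dslope h v) v u / dslope h v u, ?_, ?_, key⟩
  · exact (differentiableOn_const _).sub
      (((differentiableOn_const _).mul d2).div d1 fun u hu => U.dslope_ne hu hv)
  · by_cases e : v = 0
    · subst e
      simp only [U.gam_zero hR]
      ring
    · have := key 0 (mem_ball_self hR) (Ne.symm e)
      simp only [this, Th, Pk, U.zero]
      field_simp
      ring

theorem Uni.th_v (U : Uni h R) {u : ℂ} (hu : u ∈ ball (0 : ℂ) R) :
    ∃ f : ℂ → ℂ, DifferentiableOn ℂ f (ball 0 R) ∧ f 0 = 1 ∧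
      ∀ v ∈ ball (0 : ℂ) R, v ≠ u → f v = Th h v u := by
  have hR : 0 < R := pos_of_mem_ball hu
  have d1 := U.dslope_diff hu
  have d2 : DifferentiableOn ℂ (deriv (dslope h u)) (ball 0 R) := d1.deriv isOpen_ball
  refine ⟨fun v => 2 * gam h v - 1 - 2 * v * deriv (dslope h u) v / dslope h u v, ?_, ?_, ?_⟩
  · exact (((differentiableOn_const _).mul (U.gam_diff hR)).sub (differentiableOn_const _)).sub
      ((((differentiableOn_const _).mul differentiableOn_id).mul d2).div d1
        fun v hv => U.dslope_ne hv hu)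
  · simp only [U.gam_zero hR]
    ring
  · intro v hv hvu
    have e0 : ∀ w, h w = h u + (w - u) * dslope h u w := fun w => by
      have := sub_smul_dslope h u w
      rw [smul_eq_mul] at this
      rw [this]; ring
    refine theta_alg U hv (Ne.symm hvu) (U.dslope_ne hv hu) ?_ ?_
    · rw [e0 v]; ring
    · have hd : HasDerivAt (dslope h u) (deriv (dslope h u) v) v :=
        (d1.differentiableAt (isOpen_ball.mem_nhds hv)).hasDerivAt
      have h1 : HasDerivAt (fun w => h u + (w - u) * dslope h u w)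
          (1 * dslope h u v + (v - u) * deriv (dslope h u) v) v :=
        (((hasDerivAt_id v).sub_const u).mul hd).const_add (h u)
      have h2 : (fun w => h u + (w - u) * dslope h u w) = h := funext fun w => (e0 w).symm
      rw [h2] at h1
      rw [h1.deriv]; ring

lemma theta_im {u v : ℂ} (hu : ‖u‖ = 1) (hv : ‖v‖ = 1) : ((u + v) / (u - v)).re = 0 := by
  have a : u.re * u.re + u.im * u.im = 1 := by
    rw [← Complex.normSq_apply, Complex.normSq_eq_norm_sq, hu]; norm_num
  have b : v.re * v.re + v.im * v.im = 1 := by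
    rw [← Complex.normSq_apply, Complex.normSq_eq_norm_sq, hv]; norm_num
  rw [Complex.div_re, ← add_div]
  have : (u + v).re * (u - v).re + (u + v).im * (u - v).im = 0 := by
    simp only [Complex.add_re, Complex.sub_re, Complex.add_im, Complex.sub_im]
    linear_combination a - b
  rw [this, zero_div]

lemma theta_sph (M : Model W δ h R) {u v : ℂ} (hu : ‖u‖ = 1) (hv : ‖v‖ = 1) :
    0 ≤ (Th h v u).re := by
  have p := M.pos2 u v hu hv
  have e : (Pk h v u).re = (gam h v * h u * conj (h u - h v)).re / Complex.normSq (h u - h v) := by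
    rw [Pk, Complex.div_re, ← add_div]
    congr 1
    simp only [Complex.mul_re (gam h v * h u), Complex.conj_re, Complex.conj_im]
    ring
  have e2 : (Th h v u).re = 2 * (Pk h v u).re := by
    rw [Th, Complex.sub_re, theta_im hu hv]
    simp
  rw [e2, e]
  exact mul_nonneg zero_le_two (div_nonneg p (Complex.normSq_nonneg _))

theorem Model.th_pos (M : Model W δ h R) {u v : ℂ} (hu : ‖u‖ = 1) (hv : ‖v‖ < 1) :
    0 ≤ (Th h v u).re := by
  have hb : ∀ w : ℂ, ‖w‖ ≤ 1 → w ∈ ball (0 : ℂ) R := fun w hw =>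
    mem_ball_zero_iff.2 (hw.trans_lt M.hR)
  obtain ⟨f, fd, -, fe⟩ := M.uni.th_v (hb u hu.le)
  have hne : ∀ w : ℂ, ‖w‖ = 1 → w ≠ u → 0 ≤ (f w).re := fun w hw hwu => by
    rw [fe w (hb w hw.le) hwu]; exact theta_sph M hu hw
  have hu0 : u ≠ 0 := by
    intro e; rw [e, norm_zero] at hu; exact zero_ne_one hu
  have hfu : 0 ≤ (f u).re := by
    have c1 : ContinuousAt f u := (fd.differentiableAt (isOpen_ball.mem_nhds (hb u hu.le))).continuousAt
    have c2 : Continuous fun t : ℝ => u * Complex.exp (t * Complex.I) := by fun_prop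
    have c3 : Tendsto (fun t : ℝ => u * Complex.exp (t * Complex.I)) (𝓝[>] 0) (𝓝 u) := by
      have := (c2.tendsto 0).mono_left (nhdsWithin_le_nhds (s := Ioi 0))
      simpa using this
    have c4 : Tendsto (fun t : ℝ => (f (u * Complex.exp (t * Complex.I))).re) (𝓝[>] 0)
        (𝓝 (f u).re) := (Complex.continuous_re.tendsto _).comp (c1.tendsto.comp c3)
    refine ge_of_tendsto c4 ?_
    filter_upwards [Ioo_mem_nhdsGT Real.pi_pos] with t ht
    refine hne _ (by rw [norm_mul, hu, Complex.norm_exp_ofReal_mul_I, mul_one]) fun e => ?_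
    have e1 : Complex.exp (t * Complex.I) = 1 := mul_left_cancel₀ hu0 (e.trans (mul_one u).symm)
    have e2 := congrArg Complex.im e1
    rw [Complex.exp_ofReal_mul_I_im, Complex.one_im] at e2
    exact (Real.sin_pos_of_pos_of_lt_pi ht.1 ht.2).ne' e2
  have hvu : v ≠ u := fun e => by rw [e, hu] at hv; exact lt_irrefl _ hv
  rw [← fe v (hb v hv.le) hvu]
  refine re_ge_of_sphere (s := 1)
    ((fd.mono (closedBall_subset_ball M.hR)).diffContOnCl_ball Subset.rfl) (fun w hw => ?_) hv.le
  by_cases e : w = u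
  · rw [e]; exact hfu
  · exact hne w hw e

end

end Pool.Agent.Lib.MP_16d611_an
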