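import Pool.Agent.Lib.MP_16d611_an.Defs

set_option autoImplicit false

namespace Pool.Agent.Lib.MP_16d611_an

open Set Metric Polynomial
open scoped InnerProductSpace ComplexConjugate

noncomputable section

theorem transfer_norm_sq {ι : Type} [Fintype ι] [DecidableEq ι] (F : Matrix ι ι ℂ)
    (x : EuclideanSpace ℂ ι) :
    ‖Matrix.toEuclideanCLM (n := ι) (𝕜 := ℂ) F x‖ ^ 2 = ∑ a, ‖∑ c, F a c * x c‖ ^ 2 := by
  rw [EuclideanSpace.norm_sq_eq]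
  refine Finset.sum_congr rfl fun a _ => ?_
  congr 2

theorem bd_iff_norm {ι : Type} [Fintype ι] [DecidableEq ι] (F : Matrix ι ι ℂ) {C : ℝ} (hC : 0 ≤ C) :
    Bd F C ↔ ‖Matrix.toEuclideanCLM (n := ι) (𝕜 := ℂ) F‖ ≤ C := by
  constructor
  · intro h
    refine ContinuousLinearMap.opNorm_le_bound _ hC fun x => ?_
    have h1 := h (fun c => x c)
    rw [← transfer_norm_sq, ← EuclideanSpace.norm_sq_eq, ← mul_pow] at h1
    exact le_of_sq_le_sq h1 (by positivity)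
  · intro h ξ
    have h1 := (Matrix.toEuclideanCLM (n := ι) (𝕜 := ℂ) F).le_of_opNorm_le h
      (WithLp.toLp 2 ξ : EuclideanSpace ℂ ι)
    have h2 := transfer_norm_sq F (WithLp.toLp 2 ξ : EuclideanSpace ℂ ι)
    have h3 : ‖(WithLp.toLp 2 ξ : EuclideanSpace ℂ ι)‖ ^ 2 = ∑ c, ‖ξ c‖ ^ 2 := by
      rw [EuclideanSpace.norm_sq_eq]
    calc ∑ a, ‖∑ c, F a c * ξ c‖ ^ 2
        = ‖Matrix.toEuclideanCLM (n := ι) (𝕜 := ℂ) F
            (WithLp.toLp 2 ξ : EuclideanSpace ℂ ι)‖ ^ 2 := h2.symm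
      _ ≤ (C * ‖(WithLp.toLp 2 ξ : EuclideanSpace ℂ ι)‖) ^ 2 :=
          pow_le_pow_left₀ (norm_nonneg _) h1 2
      _ = C ^ 2 * ∑ c, ‖ξ c‖ ^ 2 := by rw [mul_pow, h3]

theorem transfer_aeval {n : ℕ} (A : Matrix (Fin n) (Fin n) ℂ) (p : ℂ[X]) :
    Polynomial.aeval (Matrix.toEuclideanCLM (n := Fin n) (𝕜 := ℂ) A) p =
      Matrix.toEuclideanCLM (n := Fin n) (𝕜 := ℂ) (Polynomial.aeval A p) := by
  exact Polynomial.aeval_algHom_apply
    (Matrix.toEuclideanCLM (n := Fin n) (𝕜 := ℂ)).toAlgEquiv A p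

theorem norm_le_of_bdOp {m n : ℕ} (A : Matrix (Fin n) (Fin n) ℂ) (P : Matrix (Fin m) (Fin m) ℂ[X])
    {k : ℝ} (hk : 0 ≤ k) (h : BdOp P (Matrix.toEuclideanCLM (n := Fin n) (𝕜 := ℂ) A) k) :
    ‖Matrix.toEuclideanCLM (n := Fin m × Fin n) (𝕜 := ℂ)
      (Matrix.of fun s t : Fin m × Fin n => Polynomial.aeval A (P s.1 t.1) s.2 t.2)‖ ≤ k := by
  rw [← bd_iff_norm _ hk]
  intro ξ
  have h1 := h (fun a => (WithLp.toLp 2 (fun i => ξ (a, i)) : EuclideanSpace ℂ (Fin n)))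
  have e1 : ∑ a : Fin m, ‖(WithLp.toLp 2 (fun i => ξ (a, i)) : EuclideanSpace ℂ (Fin n))‖ ^ 2 =
      ∑ c, ‖ξ c‖ ^ 2 := by
    rw [Fintype.sum_prod_type]
    refine Finset.sum_congr rfl fun a _ => ?_
    rw [EuclideanSpace.norm_sq_eq]
  rw [e1] at h1
  refine le_of_eq_of_le ?_ h1
  rw [Fintype.sum_prod_type]
  refine Finset.sum_congr rfl fun a _ => ?_
  rw [EuclideanSpace.norm_sq_eq]
  refine Finset.sum_congr rfl fun i _ => ?_
  congr 2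
  rw [Fintype.sum_prod_type]
  simp only [act, transfer_aeval, Matrix.of_apply]
  rw [WithLp.ofLp_sum, Finset.sum_apply]
  refine Finset.sum_congr rfl fun b _ => ?_
  rfl

end

end Pool.Agent.Lib.MP_16d611_an
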