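import Pool.Agent.Lib.MP_16d611_an.ModelEx
import Pool.Agent.Lib.MP_16d611_an.Sing
import Pool.Agent.Lib.MP_16d611_an.TH
import Pool.Agent.Lib.MP_16d611_an.Transfer
import Pool.Agent.Lib.MP_16d611_an.Core

/-! The complete bound with constant `2` on the numerical range. -/

set_option autoImplicit false

namespace Pool.Agent.Lib.MP_16d611_an

open Set Metric Polynomial
open scoped InnerProductSpace ComplexConjugate

noncomputable section

section
variable {ι : Type} [Fintype ι] [DecidableEq ι] {H : Type} [NormedAddCommGroup H]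
  [InnerProductSpace ℂ H] [FiniteDimensional ℂ H]

lemma thmA_cont (P : Matrix ι ι ℂ[X]) :
    Continuous fun z : ℂ => ‖Matrix.toEuclideanCLM (n := ι) (𝕜 := ℂ) (evP P z)‖ := by
  have h1 : Continuous fun z : ℂ => evP P z :=
    continuous_matrix fun a b => (P a b).continuous
  have h2 : Continuous fun F : Matrix ι ι ℂ => Matrix.toEuclideanCLM (n := ι) (𝕜 := ℂ) F :=
    (Matrix.toEuclideanCLM (n := ι) (𝕜 := ℂ)).toAlgEquiv.toLinearMap.continuous_of_finiteDimensional
  exact (h2.comp h1).norm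

theorem Bd.near {K : Set ℂ} (hK : IsCompact K) {P : Matrix ι ι ℂ[X]} {C : ℝ} (hC : 0 ≤ C)
    (hP : ∀ z ∈ K, Bd (evP P z) C) {ε : ℝ} (hε : 0 < ε) :
    ∃ δ > 0, ∀ z ∈ thickening δ K, Bd (evP P z) (C + ε) := by
  have ho : IsOpen {z : ℂ | ‖Matrix.toEuclideanCLM (n := ι) (𝕜 := ℂ) (evP P z)‖ < C + ε} :=
    isOpen_lt (thmA_cont P) continuous_const
  obtain ⟨δ, hδ, hs⟩ := hK.exists_thickening_subset_open ho fun z hz =>
    lt_of_le_of_lt ((bd_iff_norm _ hC).1 (hP z hz)) (lt_add_of_pos_right _ hε)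
  exact ⟨δ, hδ, fun z hz => (bd_iff_norm _ (by positivity)).2 (le_of_lt (hs hz))⟩

/-- the case where the numerical range contains `0` -/
lemma thmA_zero {A : H →L[ℂ] H} {P : Matrix ι ι ℂ[X]} {C : ℝ} (hC : 0 ≤ C)
    (hP : ∀ z ∈ numR A, Bd (evP P z) C) (h0 : (0 : ℂ) ∈ numR A) {k : ℝ} {x y : ι → H}
    (hp : SPair P A k x y) : k ≤ 2 * C := by
  refine le_of_forall_pos_le_add fun ε hε => ?_
  obtain ⟨δ, hδ, hn⟩ := Bd.near (numR_compact A) hC hP (half_pos hε)
  have hδ2 : 0 < δ / 2 := half_pos hδ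
  obtain ⟨h, R, M⟩ := exists_model (W := cthickening (δ / 2) (numR A))
    (numR_compact A).cthickening ((numR_convex A).cthickening _)
    (thickening_subset_interior_cthickening _ _ (self_subset_thickening hδ2 _ h0)) hδ2
  have := M.core (A := A) (self_subset_cthickening _) (C := C + ε / 2) (by positivity)
    (fun u hu => hn _ (by
      have h1 := thickening_cthickening_subset (δ / 2) hδ2.le (numR A) (M.near u hu)
      rwa [add_halves] at h1)) hp
  linarith

omit [DecidableEq ι] [FiniteDimensional ℂ H] in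
lemma thmA_act (A : H →L[ℂ] H) (P : Matrix ι ι ℂ[X]) (c : ℂ) :
    act (P.map fun p => p.comp (X + Polynomial.C c)) (A - algebraMap ℂ _ c) = act P A := by
  funext x a
  simp [act, aeval_comp]

theorem thmA (A : H →L[ℂ] H) (P : Matrix ι ι ℂ[X]) {C : ℝ} (hC : 0 ≤ C)
    (hP : ∀ z ∈ numR A, Bd (evP P z) C) : BdOp P A (2 * C) := by
  obtain ⟨k, hk0, hk, hp⟩ := exists_pair P A
  have hle : k ≤ 2 * C := by
    rcases hp with rfl | ⟨x, y, hp⟩
    · positivity
    obtain ⟨a, ha⟩ : ∃ a, x a ≠ 0 := by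
      by_contra hx
      push Not at hx
      have := hp.nx
      simp [hx] at this
    set e : H := ((‖x a‖ : ℝ) : ℂ)⁻¹ • x a with he
    have he1 : ‖e‖ = 1 := by
      rw [he, norm_smul, norm_inv, Complex.norm_real, norm_norm,
        inv_mul_cancel₀ (norm_ne_zero_iff.2 ha)]
    set c : ℂ := ⟪e, A e⟫_ℂ with hc
    have key : ∀ w : H, ‖w‖ = 1 → ⟪w, (A - algebraMap ℂ (H →L[ℂ] H) c) w⟫_ℂ = ⟪w, A w⟫_ℂ - c := by
      intro w hw
      simp [Algebra.algebraMap_eq_smul_one, hw]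
    refine thmA_zero (A := A - algebraMap ℂ _ c)
      (P := P.map fun p => p.comp (X + Polynomial.C c)) hC ?_ ⟨e, he1, ?_⟩ (x := x) (y := y)
      ⟨hp.nx, hp.ny, ?_, ?_⟩
    · rintro z ⟨w, hw, rfl⟩
      have h1 := hP _ ⟨w, hw, rfl⟩
      have h2 : evP (P.map fun p => p.comp (X + Polynomial.C c))
          ⟪w, (A - algebraMap ℂ (H →L[ℂ] H) c) w⟫_ℂ = evP P ⟪w, A w⟫_ℂ := by
        rw [key w hw]
        ext a b
        simp [evP, eval_comp]
      rwa [h2]
    · rw [key e he1, hc, sub_self]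
    · rw [thmA_act]; exact hp.fwd
    · rw [thmA_act]; exact hp.bwd
  intro x
  exact (hk x).trans (mul_le_mul_of_nonneg_right (pow_le_pow_left₀ hk0 hle 2)
    (Finset.sum_nonneg fun _ _ => sq_nonneg _))

end

end

end Pool.Agent.Lib.MP_16d611_an
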