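import Pool.Agent.Lib.MP_16d611_an.Sing
import Pool.Agent.Lib.MP_16d611_an.Sim
import Pool.Agent.Lib.MP_16d611_an.Cross

/-! The complete bound for scaled `q`-numerical ranges. -/

set_option autoImplicit false

namespace Pool.Agent.Lib.MP_16d611_an

open Set Metric Polynomial Filter Topology
open scoped InnerProductSpace ComplexConjugate

noncomputable section

variable {ι : Type} [Fintype ι] [DecidableEq ι] {H : Type} [NormedAddCommGroup H]
  [InnerProductSpace ℂ H] [FiniteDimensional ℂ H]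

omit [DecidableEq ι] [FiniteDimensional ℂ H] in
lemma thmB_mono {P : Matrix ι ι ℂ[X]} {A : H →L[ℂ] H} {k K : ℝ} (h : BdOp P A k) (h0 : 0 ≤ k)
    (hk : k ≤ K) : BdOp P A K := fun x =>
  (h x).trans (mul_le_mul_of_nonneg_right (pow_le_pow_left₀ h0 hk 2) (by positivity))

lemma thmB_two {q : ℂ} (hq0 : q ≠ 0) (hq1 : ‖q‖ ≤ 1)
    (hn : 2 ≤ Module.finrank ℂ H ∨ ‖q‖ = 1) (A : H →L[ℂ] H) {P : Matrix ι ι ℂ[X]} {C : ℝ}
    (hC : 0 ≤ C) (hP : ∀ z ∈ omegaH q A, Bd (evP P z) C) : BdOp P A (2 * C) := fun x => by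
  simpa using sim_bound hq0 hq1 hn A hC hP ⊥ one_pos (by linarith [inv_one (G := ℝ)]) x

omit [DecidableEq ι] [FiniteDimensional ℂ H] in
lemma thmB_le {P : Matrix ι ι ℂ[X]} {A : H →L[ℂ] H} {k K : ℝ} {x y : ι → H}
    (hp : SPair P A k x y) (h : BdOp P A K) (hK : 0 ≤ K) : k ≤ K := by
  have h1 := h x
  simp only [hp.fwd, norm_smul, mul_pow, ← Finset.mul_sum, hp.nx, hp.ny, Complex.norm_real,
    Real.norm_eq_abs, sq_abs, mul_one] at h1
  exact (abs_le_of_sq_le_sq' h1 hK).2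

theorem thmB_unit {q : ℂ} (hq0 : q ≠ 0) (hq1 : ‖q‖ ≤ 1)
    (hn : 2 ≤ Module.finrank ℂ H ∨ ‖q‖ = 1) (A : H →L[ℂ] H) (P : Matrix ι ι ℂ[X])
    (hP : ∀ z ∈ omegaH q A, Bd (evP P z) 1) : BdOp P A (cq q) := by
  have hc1 : 1 ≤ cq q := le_max_left _ _
  set S : Set ℝ := {k | ∃ (P' : Matrix ι ι ℂ[X]) (x y : ι → H),
    (∀ z ∈ omegaH q A, Bd (evP P' z) 1) ∧ SPair P' A k x y} with hS
  have hbdd : BddAbove S := ⟨2 * 1, by
    rintro k ⟨P', x, y, h1, h2⟩
    exact thmB_le h2 (thmB_two hq0 hq1 hn A zero_le_one h1) (by norm_num)⟩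
  obtain ⟨k, hk0, hk, hk' | ⟨x₀, y₀, hk'⟩⟩ := exists_pair P A
  · exact thmB_mono hk hk0 (by linarith)
  have hkS : k ∈ S := ⟨P, x₀, y₀, hP, hk'⟩
  have hkK : k ≤ sSup S := le_csSup hbdd hkS
  refine thmB_mono hk hk0 (hkK.trans ?_)
  set K := sSup S with hKdef
  have hK0 : 0 ≤ K := hk0.trans hkK
  have hK : ∀ P' : Matrix ι ι ℂ[X], (∀ z ∈ omegaH q A, Bd (evP P' z) 1) → BdOp P' A K := by
    intro P' h1
    obtain ⟨k, hk0, hk, hk' | ⟨x, y, hk'⟩⟩ := exists_pair P' A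
    · exact thmB_mono hk hk0 (by linarith)
    · exact thmB_mono hk hk0 (le_csSup hbdd ⟨P', x, y, h1, hk'⟩)
  by_contra hcon
  rw [not_le] at hcon
  have hK1 : 1 < K := hc1.trans_lt hcon
  obtain ⟨u, -, hu, huS⟩ := exists_seq_tendsto_sSup ⟨k, hkS⟩ hbdd
  choose Pn xn yn hPn hpn using huS
  haveI : ProperSpace H := FiniteDimensional.proper ℂ H
  have hb : ∀ w : ι → H, ∑ a, ‖w a‖ ^ 2 = 1 → w ∈ closedBall (0 : ι → H) 1 := fun w hw => by
    rw [mem_closedBall_zero_iff, pi_norm_le_iff_of_nonneg zero_le_one]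
    intro a
    have : ‖w a‖ ^ 2 ≤ 1 := hw ▸ Finset.single_le_sum (f := fun a => ‖w a‖ ^ 2)
      (fun _ _ => by positivity) (Finset.mem_univ a)
    nlinarith [norm_nonneg (w a)]
  obtain ⟨⟨x, y⟩, -, φ, hφ, hlim⟩ :=
    ((isCompact_closedBall (0 : ι → H) 1).prod (isCompact_closedBall (0 : ι → H) 1)).tendsto_subseq
      (x := fun n => (xn n, yn n)) fun n => ⟨hb _ (hpn n).nx, hb _ (hpn n).ny⟩
  have hx : ∀ a, Tendsto (fun n => xn (φ n) a) atTop (𝓝 (x a)) := fun a =>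
    (continuous_apply a).continuousAt.tendsto.comp (continuous_fst.continuousAt.tendsto.comp hlim)
  have hy : ∀ a, Tendsto (fun n => yn (φ n) a) atTop (𝓝 (y a)) := fun a =>
    (continuous_apply a).continuousAt.tendsto.comp (continuous_snd.continuousAt.tendsto.comp hlim)
  have hu' : Tendsto (fun n => u (φ n)) atTop (𝓝 K) := hu.comp hφ.tendsto_atTop
  have nx : ∑ a, ‖x a‖ ^ 2 = 1 := tendsto_nhds_unique
    (tendsto_finset_sum _ fun a _ => (hx a).norm.pow 2)
    (by simp only [(hpn _).nx]; exact tendsto_const_nhds)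
  have ny : ∑ a, ‖y a‖ ^ 2 = 1 := tendsto_nhds_unique
    (tendsto_finset_sum _ fun a _ => (hy a).norm.pow 2)
    (by simp only [(hpn _).ny]; exact tendsto_const_nhds)
  set Γ := Real.sqrt (∑ a, ∑ b, ‖⟪y a, x b⟫_ℂ‖ ^ 2) with hΓ
  have hcr : ∀ t : ℝ, 0 < t → (K ^ 2 - 1) * t * Γ ≤ K - K + 2 * K * t ^ 2 := fun t ht =>
    le_of_tendsto_of_tendsto'
      ((((hu'.pow 2).sub_const 1).mul_const t).mul (Real.continuous_sqrt.continuousAt.tendsto.comp
        (tendsto_finset_sum _ fun a _ => tendsto_finset_sum _ fun b _ =>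
          ((hy a).inner (hx b)).norm.pow 2)))
      ((hu'.const_sub K).add_const _)
      fun n => (hpn (φ n)).cross (hPn (φ n)) hK0 hK ht
  have hΓ0 : Γ = 0 := by
    by_contra hne
    have hpos : 0 < Γ := lt_of_le_of_ne (Real.sqrt_nonneg _) (Ne.symm hne)
    have hK2 : 0 < K ^ 2 - 1 := by nlinarith
    have ht : 0 < (K ^ 2 - 1) * Γ / (4 * K) := by positivity
    have h1 := hcr _ ht
    set t := (K ^ 2 - 1) * Γ / (4 * K) with htdef
    have h2 : (K ^ 2 - 1) * Γ = 4 * K * t := by rw [htdef]; field_simp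
    have h3 : (K ^ 2 - 1) * t * Γ = 4 * K * t ^ 2 := by linear_combination t * h2
    have h4 : 0 < K * t ^ 2 := by positivity
    linarith
  have horth : ∀ a b, ⟪y a, x b⟫_ℂ = 0 := by
    have h1 : ∑ a, ∑ b, ‖⟪y a, x b⟫_ℂ‖ ^ 2 = 0 :=
      le_antisymm (Real.sqrt_eq_zero'.1 hΓ0) (by positivity)
    intro a b
    have h2 := (Finset.sum_eq_zero_iff_of_nonneg fun _ _ => by positivity).1 h1 a (Finset.mem_univ a)
    have h3 := (Finset.sum_eq_zero_iff_of_nonneg fun _ _ => by positivity).1 h2 b (Finset.mem_univ b)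
    simpa using h3
  set V : Submodule ℂ H := Submodule.span ℂ (range y) with hV
  have hVy : ∀ a, V.starProjection (y a) = y a := fun a =>
    Submodule.starProjection_eq_self_iff.2 (Submodule.subset_span ⟨a, rfl⟩)
  have hVx : ∀ a, V.starProjection (x a) = 0 := fun a => by
    rw [Submodule.starProjection_apply_eq_zero_iff, Submodule.mem_orthogonal]
    intro w hw
    induction hw using Submodule.span_induction with
    | mem w hw => obtain ⟨b, rfl⟩ := hw; exact horth b a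
    | zero => simp
    | add w w' _ _ h1 h2 => rw [inner_add_left, h1, h2, add_zero]
    | smul s w _ h1 => rw [inner_smul_left, h1, mul_zero]
  have hq : 0 < ‖q‖ := norm_pos_iff.2 hq0
  set p := Real.sqrt (1 - ‖q‖ ^ 2) with hpdef
  have hp0 : 0 ≤ p := Real.sqrt_nonneg _
  have hp2 : p ^ 2 = 1 - ‖q‖ ^ 2 := Real.sq_sqrt (by nlinarith)
  set g : ℝ := (1 + p) / ‖q‖ with hgdef
  have hg : 0 < g := by positivity
  have hgq : ‖q‖ * (g + g⁻¹) ≤ 2 := by
    apply le_of_eq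
    rw [hgdef]; field_simp; linear_combination hp2
  have hfin : ∑ a, ‖(K : ℂ) • y a + ((g : ℂ) - 1) • V.starProjection ((K : ℂ) • y a)‖ ^ 2 ≤
      (2 * 1) ^ 2 * ∑ a, ‖x a + ((g : ℂ) - 1) • V.starProjection (x a)‖ ^ 2 := by
    have hky : ∀ a, Tendsto (fun n => ((u (φ n) : ℝ) : ℂ) • yn (φ n) a) atTop
        (𝓝 ((K : ℂ) • y a)) := fun a =>
      (Complex.continuous_ofReal.continuousAt.tendsto.comp hu').smul (hy a)
    refine le_of_tendsto_of_tendsto'
      (tendsto_finset_sum _ fun a _ => ((hky a).add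
        ((V.starProjection.continuous.continuousAt.tendsto.comp (hky a)).const_smul _)).norm.pow 2)
      ((tendsto_finset_sum _ fun a _ => ((hx a).add
        ((V.starProjection.continuous.continuousAt.tendsto.comp (hx a)).const_smul _)).norm.pow 2
          ).const_mul _) fun n => ?_
    have := sim_bound hq0 hq1 hn A zero_le_one (hPn (φ n)) V hg hgq (xn (φ n))
    simpa only [(hpn (φ n)).fwd, Function.comp_apply] using this
  have e1 : ∀ a, (K : ℂ) • y a + ((g : ℂ) - 1) • V.starProjection ((K : ℂ) • y a) =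
      ((K * g : ℝ) : ℂ) • y a := fun a => by
    rw [map_smul, hVy, smul_smul, ← add_smul]; congr 1; push_cast; ring
  simp only [e1, hVx, smul_zero, add_zero, norm_smul, mul_pow, ← Finset.mul_sum, nx, ny,
    Complex.norm_real, Real.norm_eq_abs, sq_abs, mul_one, one_pow] at hfin
  have h2 : K * g ≤ 2 := (abs_le_of_sq_le_sq' (by rw [mul_pow]; exact hfin) (by norm_num)).2
  have h3 : 2 * ‖q‖ / (1 + p) ≤ cq q := le_max_right _ _
  have h4 : K ≤ 2 * ‖q‖ / (1 + p) := by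
    rw [le_div_iff₀ (by positivity)]
    have : 1 + p = g * ‖q‖ := by rw [hgdef]; field_simp
    rw [this]; nlinarith
  linarith

theorem thmB {q : ℂ} (hq0 : q ≠ 0) (hq1 : ‖q‖ ≤ 1)
    (hn : 2 ≤ Module.finrank ℂ H ∨ ‖q‖ = 1) (A : H →L[ℂ] H) (P : Matrix ι ι ℂ[X]) {C : ℝ}
    (hC : 0 ≤ C) (hP : ∀ z ∈ omegaH q A, Bd (evP P z) C) : BdOp P A (cq q * C) := by
  rcases hC.eq_or_lt with rfl | hpos
  · simpa using thmB_two hq0 hq1 hn A le_rfl hP
  have h1 : ∀ z ∈ omegaH q A, Bd (evP (((C⁻¹ : ℝ) : ℂ) • P) z) 1 := fun z hz ξ => by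
    have := hP z hz ξ
    simp only [evP, Matrix.map_apply, Matrix.smul_apply, eval_smul, smul_eq_mul, mul_assoc,
      ← Finset.mul_sum, norm_mul, mul_pow, Complex.norm_real, Real.norm_eq_abs, sq_abs] at this ⊢
    rw [inv_pow, inv_mul_le_iff₀ (by positivity)]
    simpa using this
  intro x
  have h2 := thmB_unit hq0 hq1 hn A _ h1 x
  simp only [act, Matrix.smul_apply, map_smul, ContinuousLinearMap.smul_apply, ← Finset.smul_sum,
    norm_smul, mul_pow, ← Finset.mul_sum, Complex.norm_real, Real.norm_eq_abs, sq_abs] at h2 ⊢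
  rw [inv_pow, inv_mul_le_iff₀ (by positivity)] at h2
  linarith

end

end Pool.Agent.Lib.MP_16d611_an
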